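import Pool.Agent.L0h48.DS.Fields

/-!
# The action of the Galois group on the unit
-/

set_option autoImplicit false
set_option linter.unusedSectionVars false

namespace Pool.Agent.L0h48.DS

open Module NumberField NumberField.InfinitePlace IsDedekindDomain
open scoped ComplexConjugate

variable {F k K : Type} [Field F] [NumberField F] [Field k] [NumberField k] [Field K]
  [NumberField K] [Algebra F k] [Algebra k K] [Algebra F K] [IsScalarTower F k K] [IsGalois F K]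
  {s : K ≃ₐ[F] K} {χ : (K ≃ₐ[k] K) →* ℂˣ}

/-- embeddings which are real on `k` lie over other places of `F` -/
lemma Dat.real_ne (h : Dat F s χ) {ι : K →+* ℂ} (hι : ∀ x, conj (ι x) = ι (s x)) {φ : K →+* ℂ}
    (hφ : ∀ x : k, conj (φ (algebraMap k K x)) = φ (algebraMap k K x)) :
    φ.comp (algebraMap F K) ≠ ι.comp (algebraMap F K) := by
  intro h1
  obtain ⟨γ, hγ⟩ := NumberField.ComplexEmbedding.exists_comp_symm_eq_of_comp_eq ι φ h1.symm
  have h2 : ∀ x : K, φ x = ι (γ.symm x) := fun x => by rw [← hγ]; rfl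
  have h3 : ∀ x : k, (γ * s * γ⁻¹) (algebraMap k K x) = algebraMap k K x := by
    intro x
    have h4 := hφ x
    rw [h2, hι] at h4
    have h5 := ι.injective h4
    change γ (s (γ.symm (algebraMap k K x))) = _
    rw [h5, AlgEquiv.apply_symm_apply]
  have hn := Subgroup.normal_of_index_eq_two (index_rs (K := K) h.deg)
  have h6 : γ * s * γ⁻¹ ∈ (rs F : (K ≃ₐ[k] K) →* (K ≃ₐ[F] K)).range := by
    refine ⟨{ (γ * s * γ⁻¹).toRingEquiv with commutes' := h3 }, ?_⟩
    ext x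
    rfl
  have h7 := hn.conj_mem _ h6 γ⁻¹
  have h8 : γ⁻¹ * (γ * s * γ⁻¹) * γ⁻¹⁻¹ = s := by group
  rw [h8] at h7
  exact h.out h7

section ML

variable {M L : Type} [Field M] [NumberField M] [Field L] [NumberField L]
    [Algebra F M] [Algebra M K] [IsScalarTower F M K] [Algebra F L] [Algebra L K]
    [IsScalarTower F L K] [Algebra M L] [IsScalarTower M L K]

lemma fix_L (h : Dat F s χ)
    (hL : ∀ γ : K ≃ₐ[F] K, γ ∈ HV h ⊥ ↔ ∃ h' : K ≃ₐ[L] K, h'.restrictScalars F = γ)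
    {g : K ≃ₐ[k] K} (hg : χ g = 1) (x : L) : g (algebraMap L K x) = algebraMap L K x := by
  have h1 : rs F g ∈ HV h ⊥ := (rs_mem_HV h).mpr (Subgroup.mem_bot.mpr hg)
  obtain ⟨h', hh⟩ := (hL _).mp h1
  have h2 : (h'.restrictScalars F) (algebraMap L K x) = algebraMap L K x := h'.commutes x
  rw [hh] at h2
  exact h2

lemma s_fix (h : Dat F s χ)
    (hL : ∀ γ : K ≃ₐ[F] K, γ ∈ HV h ⊥ ↔ ∃ h' : K ≃ₐ[L] K, h'.restrictScalars F = γ)
    (x : L) : s (algebraMap L K x) = algebraMap L K x := by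
  obtain ⟨h', hh⟩ := (hL _).mp (s_mem_HV h ⊥)
  have h2 : (h'.restrictScalars F) (algebraMap L K x) = algebraMap L K x := h'.commutes x
  rw [hh] at h2
  exact h2

lemma eq_one_of_fix (h : Dat F s χ)
    (hL : ∀ γ : K ≃ₐ[F] K, γ ∈ HV h ⊥ ↔ ∃ h' : K ≃ₐ[L] K, h'.restrictScalars F = γ)
    {g : K ≃ₐ[k] K} (hg : ∀ x : L, g (algebraMap L K x) = algebraMap L K x) : χ g = 1 := by
  have h1 : rs F g ∈ HV h ⊥ := by
    rw [hL]
    refine ⟨{ g.toRingEquiv with commutes' := hg }, ?_⟩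
    ext x
    rfl
  exact Subgroup.mem_bot.mp ((rs_mem_HV h).mp h1)

/-- the generator of `Gal(L/M)` -/
theorem exists_sigma [IsGalois M L] (h : Dat F s χ)
    (hM : ∀ γ : K ≃ₐ[F] K, γ ∈ HV h V2 ↔ ∃ h' : K ≃ₐ[M] K, h'.restrictScalars F = γ)
    (hL : ∀ γ : K ≃ₐ[F] K, γ ∈ HV h ⊥ ↔ ∃ h' : K ≃ₐ[L] K, h'.restrictScalars F = γ) :
    ∃ σ : L ≃ₐ[M] L, σ ≠ 1 ∧ ∀ i : K ≃ₐ[F] K, i ∈ HV h V2 → i ∉ HV h ⊥ →
      ∀ x : L, algebraMap L K (σ x) = i (algebraMap L K x) := by
  obtain ⟨c, hc⟩ := h.exc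
  have hc2 : χ (c * c) = -1 := by rw [map_mul, ← sq, hc]
  have h1 : rs F (c * c) ∈ HV h V2 := (rs_mem_HV h).mpr (by rw [hc2, mem_V2]; exact Or.inr rfl)
  have h1' : rs F (c * c) ∉ HV h ⊥ := by
    rw [rs_mem_HV h, hc2, Subgroup.mem_bot]
    exact neg_one_ne
  obtain ⟨h₀, hh⟩ := (hM _).mp h1
  have hh' : ∀ y : K, h₀ y = (c * c) y := fun y => by
    have h2 : (h₀.restrictScalars F) y = (rs F (c * c)) y := by rw [hh]
    exact h2
  have h3 : ∀ x : L, algebraMap L K (h₀.restrictNormal L x) = (c * c) (algebraMap L K x) := by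
    intro x
    rw [AlgEquiv.restrictNormal_commutes, hh']
  refine ⟨h₀.restrictNormal L, ?_, ?_⟩
  · intro h4
    have h5 : χ (c * c) = 1 := by
      refine eq_one_of_fix h hL fun x => ?_
      rw [← h3, h4]
      rfl
    rw [hc2] at h5
    exact neg_one_ne h5
  · intro i hi hi' x
    rw [h3]
    have h6 : (rs F (c * c))⁻¹ * i ∈ HV h ⊥ := index_two_mem h h1 h1' hi hi'
    obtain ⟨h', hh2⟩ := (hL _).mp h6
    have h7 : ((rs F (c * c))⁻¹ * i) (algebraMap L K x) = algebraMap L K x := by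
      rw [← hh2]
      exact h'.commutes x
    have h8 : (rs F (c * c)) (((rs F (c * c))⁻¹ * i) (algebraMap L K x)) =
        i (algebraMap L K x) := by
      change ((rs F (c * c)) * ((rs F (c * c))⁻¹ * i)) (algebraMap L K x) = _
      rw [mul_inv_cancel_left]
    rw [h7] at h8
    exact h8

lemma sigma_g (h : Dat F s χ) {σ : L ≃ₐ[M] L}
    (hσ : ∀ i : K ≃ₐ[F] K, i ∈ HV h V2 → i ∉ HV h ⊥ →
      ∀ x : L, algebraMap L K (σ x) = i (algebraMap L K x)) (g : K ≃ₐ[k] K) (hg : χ g = -1)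
    (x : L) : algebraMap L K (σ x) = g (algebraMap L K x) :=
  hσ (rs F g) ((rs_mem_HV h).mpr (by rw [hg, mem_V2]; exact Or.inr rfl))
    (by rw [rs_mem_HV h, hg, Subgroup.mem_bot]; exact neg_one_ne) x

/-- real on `L` -/
lemma real_L (h : Dat F s χ)
    (hL : ∀ γ : K ≃ₐ[F] K, γ ∈ HV h ⊥ ↔ ∃ h' : K ≃ₐ[L] K, h'.restrictScalars F = γ)
    {ι : K →+* ℂ} (hι : ∀ x, conj (ι x) = ι (s x)) (x : L) :
    conj (ι (algebraMap L K x)) = ι (algebraMap L K x) := by
  rw [hι, s_fix h hL]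

lemma isReal_w (h : Dat F s χ)
    (hL : ∀ γ : K ≃ₐ[F] K, γ ∈ HV h ⊥ ↔ ∃ h' : K ≃ₐ[L] K, h'.restrictScalars F = γ)
    {ι : K →+* ℂ} (hι : ∀ x, conj (ι x) = ι (s x)) :
    (InfinitePlace.mk (ι.comp (algebraMap L K))).IsReal := by
  rw [isReal_mk_iff, ComplexEmbedding.isReal_iff]
  ext x
  exact real_L h hL hι x

/-- places which agree with the distinguished one -/
lemma mk_eq (h : Dat F s χ)
    (hL : ∀ γ : K ≃ₐ[F] K, γ ∈ HV h ⊥ ↔ ∃ h' : K ≃ₐ[L] K, h'.restrictScalars F = γ)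
    {ι : K →+* ℂ} (hι : ∀ x, conj (ι x) = ι (s x)) (τ : L ≃ₐ[M] L) {φ : L →+* ℂ}
    (he : InfinitePlace.mk φ = InfinitePlace.mk ((ι.comp (algebraMap L K)).comp (τ : L →+* L)))
    (x : L) : φ x = ι (algebraMap L K (τ x)) := by
  rcases mk_eq_iff.mp he with h1 | h1
  · rw [h1]
    rfl
  · have h2 : conj (φ x) = ι (algebraMap L K (τ x)) := by
      have := congrArg (fun f : L →+* ℂ => f x) h1
      exact this
    rw [← real_L h hL hι (τ x), ← h2, Complex.conj_conj]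

/-- **the absolute values of the conjugates** -/
theorem act_log [IsGalois M L] (h : Dat F s χ)
    (_hM : ∀ γ : K ≃ₐ[F] K, γ ∈ HV h V2 ↔ ∃ h' : K ≃ₐ[M] K, h'.restrictScalars F = γ)
    (hL : ∀ γ : K ≃ₐ[F] K, γ ∈ HV h ⊥ ↔ ∃ h' : K ≃ₐ[L] K, h'.restrictScalars F = γ)
    (h2 : finrank M L = 2)
    {ι : K →+* ℂ} (hι : ∀ x, conj (ι x) = ι (s x)) {σ : L ≃ₐ[M] L} (hσ : σ ≠ 1)
    (hσ' : ∀ g : K ≃ₐ[k] K, χ g = -1 → ∀ x : L, algebraMap L K (σ x) = g (algebraMap L K x))
    {η : (𝓞 L)ˣ} (hη : η ∈ Em σ)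
    (ho : ∀ w : InfinitePlace L, w ≠ InfinitePlace.mk (ι.comp (algebraMap L K)) →
      w ≠ σ • InfinitePlace.mk (ι.comp (algebraMap L K)) → w ((η : 𝓞 L) : L) = 1) :
    (∀ g : K ≃ₐ[k] K, Real.log ‖ι (g (algebraMap L K ((η : 𝓞 L) : L)))‖ =
      ((χ g : ℂˣ) : ℂ).re * Real.log ‖ι (algebraMap L K ((η : 𝓞 L) : L))‖) ∧
    (∀ φ : K →+* ℂ, (∀ x : k, conj (φ (algebraMap k K x)) = φ (algebraMap k K x)) →
      ‖φ (algebraMap L K ((η : 𝓞 L) : L))‖ = 1) := by
  have hss := sq_eq_one h2 hσ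
  have hsymm : ∀ x : L, σ.symm x = σ x := by
    intro x
    have h3 : σ⁻¹ = σ := inv_eq_of_mul_eq_one_right hss
    have h4 : (σ⁻¹ : L ≃ₐ[M] L) x = σ x := by rw [h3]
    exact h4
  have key1 : InfinitePlace.mk (ι.comp (algebraMap L K)) =
      InfinitePlace.mk ((ι.comp (algebraMap L K)).comp ((1 : L ≃ₐ[M] L) : L →+* L)) := rfl
  have key2 : σ • InfinitePlace.mk (ι.comp (algebraMap L K)) =
      InfinitePlace.mk ((ι.comp (algebraMap L K)).comp (σ : L →+* L)) := by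
    rw [smul_mk]
    congr 1
    ext x
    change ι (algebraMap L K (σ.symm x)) = ι (algebraMap L K (σ x))
    rw [hsymm]
  constructor
  · intro g
    obtain ⟨c, hc⟩ := h.exc
    have himag : ((χ g : ℂˣ) : ℂ) ^ 2 = -1 →
        ((χ g : ℂˣ) : ℂ).re = 0 := by
      intro h5
      have h6 := congrArg Complex.im h5
      have h7 := congrArg Complex.re h5
      rw [sq, Complex.mul_im] at h6
      rw [sq, Complex.mul_re] at h7
      simp only [Complex.neg_im, Complex.one_im, neg_zero, Complex.neg_re, Complex.one_re] at h6 h7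
      have h8 : ((χ g : ℂˣ) : ℂ).re * ((χ g : ℂˣ) : ℂ).im = 0 := by linarith
      rcases mul_eq_zero.mp h8 with h9 | h9
      · exact h9
      · rw [h9] at h7
        nlinarith [sq_nonneg ((χ g : ℂˣ) : ℂ).re]
    have hi : χ g ^ 2 = -1 → Real.log ‖ι (g (algebraMap L K ((η : 𝓞 L) : L)))‖ =
      ((χ g : ℂˣ) : ℂ).re * Real.log ‖ι (algebraMap L K ((η : 𝓞 L) : L))‖ := by
      intro h5
      have h5' : ((χ g : ℂˣ) : ℂ) ^ 2 = -1 := by
        rw [← Units.val_pow_eq_pow_val, h5]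
        simp
      rw [himag h5', zero_mul]
      have h6 := ho (InfinitePlace.mk ((ι.comp (g : K →+* K)).comp (algebraMap L K))) (by
        intro h7
        rw [key1] at h7
        have h8 := mk_eq h hL hι 1 h7
        have h9 : χ g = 1 := by
          refine eq_one_of_fix h hL fun x => ?_
          exact ι.injective (h8 x)
        rw [h9, one_pow] at h5
        exact neg_one_ne h5.symm) (by
        intro h7
        rw [key2] at h7
        have h8 := mk_eq h hL hι σ h7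
        have hc2 : χ (c * c) = -1 := by rw [map_mul, ← sq, hc]
        have h9 : χ ((c * c)⁻¹ * g) = 1 := by
          refine eq_one_of_fix h hL fun x => ?_
          have h10 : g (algebraMap L K x) = algebraMap L K (σ x) := ι.injective (h8 x)
          change (c * c)⁻¹ (g (algebraMap L K x)) = _
          rw [h10, hσ' _ hc2]
          change ((c * c)⁻¹ * (c * c)) (algebraMap L K x) = _
          rw [inv_mul_cancel]
          rfl
        rw [map_mul, map_inv, hc2, inv_mul_eq_one] at h9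
        rw [← h9, neg_one_sq] at h5
        exact neg_one_ne h5.symm)
      have h7 : ‖ι (g (algebraMap L K ((η : 𝓞 L) : L)))‖ = 1 := h6
      rw [h7, Real.log_one]
    have hci : (-χ c) ^ 2 = -1 := by rw [neg_sq, hc]
    rcases val_cases h hc g with h1 | h1 | h1 | h1
    · rw [fix_L h hL h1, h1]
      simp
    · rw [← hσ' g h1, h1]
      have h3 : σ ((η : 𝓞 L) : L) = (((η⁻¹ : (𝓞 L)ˣ) : 𝓞 L) : L) := by
        rw [← us_of_Em hη]
        rfl
      have h4 : (((η⁻¹ : (𝓞 L)ˣ) : 𝓞 L) : L) = ((η : 𝓞 L) : L)⁻¹ := by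
        refine eq_inv_of_mul_eq_one_left ?_
        exact congrArg (fun z : (𝓞 L)ˣ => ((z : 𝓞 L) : L)) (inv_mul_cancel η)
      rw [h3, h4, map_inv₀, map_inv₀, norm_inv, Real.log_inv]
      simp
    · exact hi (by rw [h1, hc])
    · exact hi (by rw [h1, hci])
  · intro φ hφ
    have hne := h.real_ne hι hφ
    have hτ : ∀ τ : L ≃ₐ[M] L, InfinitePlace.mk (φ.comp (algebraMap L K)) ≠
        InfinitePlace.mk ((ι.comp (algebraMap L K)).comp (τ : L →+* L)) := by
      intro τ he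
      apply hne
      ext x
      have h3 := mk_eq h hL hι τ he (algebraMap F L x)
      have h4 : algebraMap L K (algebraMap F L x) = algebraMap F K x :=
        (IsScalarTower.algebraMap_apply F L K x).symm
      have h5 : algebraMap L K (τ (algebraMap F L x)) = algebraMap F K x := by
        rcases eq_one_or h2 hσ τ with rfl | rfl
        · exact h4
        · obtain ⟨c, hc⟩ := h.exc
          have hc2 : χ (c * c) = -1 := by rw [map_mul, ← sq, hc]
          rw [hσ' _ hc2, h4]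
          exact (rs F (c * c)).commutes x
      rw [h5] at h3
      change φ (algebraMap L K (algebraMap F L x)) = _ at h3
      rw [h4] at h3
      exact h3
    exact ho (InfinitePlace.mk (φ.comp (algebraMap L K))) (by rw [key1]; exact hτ 1)
      (by rw [key2]; exact hτ σ)

end ML

end Pool.Agent.L0h48.DS
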