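import Pool.Agent.K4H74.SC.ArtL
import Pool.Agent.K4H74.SC.Sum
import Pool.Agent.Y773.AB.Res
import Pool.Agent.Y772.NZ.Zeta

/-!
# Artin L-series of linear characters as Euler products
-/

set_option autoImplicit false
set_option linter.unusedSectionVars false

namespace Pool.Agent.L0h48.DS

open NumberField Module IsDedekindDomain Filter Topology Ideal
open Pool.Agent.Y773 (LI)
open Pool.Agent.Y772.NZ (one one_ne one_norm LI_one)
open Pool.Agent.K4H74.SC

section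

variable {k K : Type} [Field k] [NumberField k] [Field K] [NumberField K] [Algebra k K]

/-- the factor at `q` -/
noncomputable def fac (a : HeightOneSpectrum (𝓞 k) → ℂ) (s : ℂ) (q : HeightOneSpectrum (𝓞 k)) : ℂ :=
  1 - a q * ((absNorm q.asIdeal : ℕ) : ℂ) ^ (-s)

lemma norm_fac_lt {a : HeightOneSpectrum (𝓞 k) → ℂ} (ha : ∀ q, ‖a q‖ ≤ 1) {s : ℂ} (hs : 0 < s.re)
    (q : HeightOneSpectrum (𝓞 k)) : ‖a q * ((absNorm q.asIdeal : ℕ) : ℂ) ^ (-s)‖ < 1 := by
  have hN := two_le_absNorm q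
  rw [norm_mul, Complex.norm_natCast_cpow_of_pos (by omega)]
  have h3 : ((Ideal.absNorm q.asIdeal : ℕ) : ℝ) ^ (-s).re < 1 := by
    refine Real.rpow_lt_one_of_one_lt_of_neg
      (by exact_mod_cast (by omega : 1 < Ideal.absNorm q.asIdeal)) ?_
    simpa using hs
  calc _ ≤ 1 * ((Ideal.absNorm q.asIdeal : ℕ) : ℝ) ^ (-s).re :=
        mul_le_mul_of_nonneg_right (ha q) (by positivity)
    _ < 1 := by rw [one_mul]; exact h3

lemma fac_ne {a : HeightOneSpectrum (𝓞 k) → ℂ} (ha : ∀ q, ‖a q‖ ≤ 1) {s : ℂ} (hs : 0 < s.re)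
    (q : HeightOneSpectrum (𝓞 k)) : fac a s q ≠ 0 := by
  intro h0
  have h1 := norm_fac_lt ha hs q
  rw [← sub_eq_zero.mp h0, norm_one] at h1
  exact lt_irrefl _ h1

/-- the Euler product of an Artin L-series whose coefficients are powers -/
theorem hasProd_log {χ : (K ≃ₐ[k] K) → ℂ} {a : HeightOneSpectrum (𝓞 k) → ℂ}
    (ha : ∀ q, ‖a q‖ ≤ 1)
    (hχ : ∀ (q : HeightOneSpectrum (𝓞 k)) (n : ℕ), 0 < n → frobMean k K χ q.asIdeal n = a q ^ n)
    {s l : ℂ} (hs : 1 < s.re) (hl : HasSum (logTerm k K χ s) l) :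
    HasProd (fun q => (fac a s q)⁻¹) (Complex.exp l) := by
  have h1 : ∀ q : HeightOneSpectrum (𝓞 k), HasSum (fun n : ℕ+ => logTerm k K χ s (q, n))
      (-Complex.log (fac a s q)) := by
    intro q
    have hz := norm_fac_lt ha (s := s) (by linarith) q
    have h3 := Complex.hasSum_taylorSeries_neg_log hz
    rw [← hasSum_nat_add_iff' 1] at h3
    simp only [Finset.range_one, Finset.sum_singleton, pow_zero, Nat.cast_zero, div_zero,
      sub_zero] at h3
    have h4 := (Equiv.hasSum_iff (f := fun n : ℕ => (a q * ((absNorm q.asIdeal : ℕ) : ℂ) ^ (-s)) ^ (n + 1) /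
      ((n + 1 : ℕ) : ℂ)) Equiv.pnatEquivNat).mpr h3
    refine h4.congr_fun fun n => ?_
    have h5 : Equiv.pnatEquivNat n + 1 = (n : ℕ) := PNat.natPred_add_one n
    change frobMean k K χ q.asIdeal n / _ = _
    simp only [Function.comp_apply]
    rw [h5, hχ q n n.pos, mul_pow]
    have h6 : (((absNorm q.asIdeal : ℕ) : ℂ) ^ (-s)) ^ (n : ℕ) =
        (((absNorm q.asIdeal : ℕ) : ℂ) ^ (((n : ℕ) : ℂ) * s))⁻¹ := by
      rw [← Complex.cpow_nat_mul, ← Complex.cpow_neg]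
      congr 1
      ring
    rw [h6, div_eq_mul_inv, mul_inv, div_eq_mul_inv]
    ring
  have h2 := (hl.prod_fiberwise h1).cexp
  refine h2.congr_fun fun q => ?_
  change (fac a s q)⁻¹ = Complex.exp (-Complex.log (fac a s q))
  rw [Complex.exp_neg, Complex.exp_log (fac_ne ha (by linarith) q)]

/-- the Euler product over the places -/
lemma hasProd_place {ψ : Ideal (𝓞 k) →*₀ ℂ} (hψ : ∀ 𝔞, ‖ψ 𝔞‖ ≤ 1) {s : ℂ} (hs : 1 < s.re) :
    HasProd (fun q : HeightOneSpectrum (𝓞 k) => (fac (fun q => ψ q.asIdeal) s q)⁻¹) (LI ψ s) := by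
  have h1 := Pool.Agent.Y773.AB.hasProd_prime hψ hs
  let e : HeightOneSpectrum (𝓞 k) ≃ {𝔭 : Ideal (𝓞 k) // Prime 𝔭} :=
    { toFun := fun q => ⟨q.asIdeal, q.prime⟩
      invFun := fun p => ⟨p.1, Ideal.isPrime_of_prime p.2, p.2.ne_zero⟩
      left_inv := fun q => rfl
      right_inv := fun p => rfl }
  exact (Equiv.hasProd_iff e).mpr h1

/-- finitely many factors changed -/
lemma hasProd_change {a b : HeightOneSpectrum (𝓞 k) → ℂ} (ha : ∀ q, ‖a q‖ ≤ 1) {s x y : ℂ}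
    (hs : 1 < s.re) (S : Finset (HeightOneSpectrum (𝓞 k))) (hb0 : ∀ q ∈ S, b q = 0)
    (hab : ∀ q, q ∉ S → a q = b q)
    (hx : HasProd (fun q => (fac a s q)⁻¹) x) (hy : HasProd (fun q => (fac b s q)⁻¹) y) :
    y = x * ∏ q ∈ S, fac a s q := by
  classical
  have h3 : HasProd (fun q => if q ∈ S then fac a s q else 1) (∏ q ∈ S, fac a s q) := by
    have h4 := hasProd_prod_of_ne_finset_one (L := SummationFilter.unconditional _)
      (f := fun q => if q ∈ S then fac a s q else 1) (s := S) (by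
        intro q hq
        exact if_neg hq)
    convert h4 using 1
    exact Finset.prod_congr rfl fun q hq => (if_pos hq).symm
  refine hy.unique ((hx.mul h3).congr_fun fun q => ?_)
  have hne := fac_ne ha (s := s) (by linarith) q
  by_cases h5 : q ∈ S
  · rw [if_pos h5, inv_mul_cancel₀ hne]
    unfold fac
    rw [hb0 q h5, zero_mul, sub_zero, inv_one]
  · rw [if_neg h5, mul_one]
    unfold fac
    rw [hab q h5]

variable [IsGalois k K]

/-- the coefficients of the trivial character -/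
lemma frobMean_one (q : HeightOneSpectrum (𝓞 k)) (n : ℕ) :
    frobMean k K (fun _ => 1) q.asIdeal n = 1 := by
  classical
  have := q.isPrime
  have hft : Fintype (K ≃ₐ[k] K) := Fintype.ofFinite _
  rw [frobMean]
  have h1 : ((frobSet k K q.asIdeal n).ncard : ℂ) =
      ∑ᶠ x ∈ frobSet k K q.asIdeal n, (fun _ => (1 : ℂ)) x.2 := by
    rw [frobSet_eq q.ne_bot n, finsum_mem_coe_finset, Finset.sum_const, nsmul_eq_mul, mul_one,
      Set.ncard_coe_finset]
  have h2 : ((frobSet k K q.asIdeal n).ncard : ℂ) ≠ 0 := by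
    rw [ncard_frob q.ne_bot n]
    have h3 : (q.asIdeal.primesOver (𝓞 K)).ncard ≠ 0 := pr_ne (K := k)
    have h4 : q.asIdeal.ramificationIdxIn (𝓞 K) ≠ 0 := ram_ne (K := k)
    exact_mod_cast mul_ne_zero h3 h4
  rw [← h1]
  exact div_self h2

/-- the zeta function as the Artin L-series of the trivial character -/
theorem exp_one {s l : ℂ} (hs : 1 < s.re) (hl : HasSum (logTerm k K (fun _ => 1) s) l) :
    Complex.exp l = LI (one k) s := by
  have h1 := hasProd_log (a := fun _ => 1) (fun _ => by simp)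
    (fun q n _ => by rw [frobMean_one, one_pow]) hs hl
  have h2 := hasProd_place (one_norm k) hs
  refine h1.unique (h2.congr_fun fun q => ?_)
  unfold fac
  beta_reduce
  rw [one_ne k q.ne_bot]

open scoped Pointwise in
/-- the coefficients of a linear character -/
theorem frobMean_lin (χ : (K ≃ₐ[k] K) →* ℂˣ) {q : Ideal (𝓞 k)} (hq : q ≠ ⊥) [q.IsPrime]
    (P : Ideal (𝓞 K)) [P.IsPrime] [P.LiesOver q] {σ : K ≃ₐ[k] K}
    (hσ : ∀ n, Fr P (absNorm q ^ n) (σ ^ n)) (n : ℕ) :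
    ((∀ i ∈ P.inertia (K ≃ₐ[k] K), χ i = 1) →
      frobMean k K (fun g => ((χ g : ℂˣ) : ℂ)) q n = ((χ σ : ℂˣ) : ℂ) ^ n) ∧
    ((∃ i ∈ P.inertia (K ≃ₐ[k] K), χ i ≠ 1) →
      frobMean k K (fun g => ((χ g : ℂˣ) : ℂ)) q n = 0) := by
  classical
  have hft : Fintype (K ≃ₐ[k] K) := Fintype.ofFinite _
  have hcl : ∀ g x : K ≃ₐ[k] K, ((χ (x * g * x⁻¹) : ℂˣ) : ℂ) = ((χ g : ℂˣ) : ℂ) := by
    intro g x
    rw [map_mul, map_mul, map_inv, mul_comm (χ x), mul_inv_cancel_right]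
  rw [frobMean_eq hcl hq n P, frSum_eq (hσ n), ← card_inertia (p := q) P]
  have h1 : ∀ i : P.inertia (K ≃ₐ[k] K), ((χ ((i : K ≃ₐ[k] K) * σ ^ n) : ℂˣ) : ℂ) =
      ((χ (i : K ≃ₐ[k] K) : ℂˣ) : ℂ) * ((χ σ : ℂˣ) : ℂ) ^ n := by
    intro i
    rw [map_mul, map_pow]
    push_cast
    rfl
  simp_rw [h1]
  rw [← Finset.sum_mul]
  have hcard : (Nat.card (P.inertia (K ≃ₐ[k] K)) : ℂ) ≠ 0 := by
    exact_mod_cast Nat.card_pos.ne'
  constructor
  · intro h
    have h2 : ∑ i : P.inertia (K ≃ₐ[k] K), ((χ (i : K ≃ₐ[k] K) : ℂˣ) : ℂ) =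
        Nat.card (P.inertia (K ≃ₐ[k] K)) := by
      rw [Finset.sum_congr rfl (fun i _ => by rw [h i i.2, Units.val_one]), Finset.sum_const,
        Finset.card_univ, nsmul_eq_mul, mul_one, Nat.card_eq_fintype_card]
    rw [h2]
    field_simp
  · rintro ⟨j, hj, hj1⟩
    have h2 : ∑ i : P.inertia (K ≃ₐ[k] K), ((χ (i : K ≃ₐ[k] K) : ℂˣ) : ℂ) = 0 := by
      have h3 : ((χ j : ℂˣ) : ℂ) * ∑ i : P.inertia (K ≃ₐ[k] K), ((χ (i : K ≃ₐ[k] K) : ℂˣ) : ℂ) =
          ∑ i : P.inertia (K ≃ₐ[k] K), ((χ (i : K ≃ₐ[k] K) : ℂˣ) : ℂ) := by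
        rw [Finset.mul_sum]
        conv_rhs => rw [← Equiv.sum_comp (Equiv.mulLeft (⟨j, hj⟩ : P.inertia (K ≃ₐ[k] K)))]
        refine Finset.sum_congr rfl fun i _ => ?_
        rw [Equiv.coe_mulLeft, Subgroup.coe_mul, map_mul, Units.val_mul]
      have h4 : (((χ j : ℂˣ) : ℂ) - 1) *
          ∑ i : P.inertia (K ≃ₐ[k] K), ((χ (i : K ≃ₐ[k] K) : ℂˣ) : ℂ) = 0 := by
        linear_combination h3
      rcases mul_eq_zero.mp h4 with h5 | h5
      · exact absurd (Units.ext (sub_eq_zero.mp h5)) hj1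
      · exact h5
    rw [h2, zero_mul, zero_div]

end

end Pool.Agent.L0h48.DS
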