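import Pool.Agent.L0h48.DS.Zeta

/-!
# The quotient of two Dedekind zeta functions at `s = 0`
-/

set_option autoImplicit false
set_option linter.unusedSectionVars false

namespace Pool.Agent.L0h48.DS

open NumberField NumberField.InfinitePlace Module Complex Filter Topology
open Pool.Agent.Y773 (LI)
open Pool.Agent.Y772.NZ (one one_ne one_norm LI_one)

lemma gi_zero : (Gammaℝ 0)⁻¹ = 0 := by
  rw [inv_eq_zero, Gammaℝ_eq_zero_iff]
  exact ⟨0, by simp⟩

lemma gi_deriv : HasDerivAt (fun s : ℂ => (Gammaℝ s)⁻¹) (1 / 2) 0 := by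
  rw [hasDerivAt_iff_tendsto_slope]
  have h1 := Gammaℝ_residue_zero.inv₀ two_ne_zero
  have h2 : (2 : ℂ)⁻¹ = 1 / 2 := by norm_num
  rw [h2] at h1
  refine h1.congr' ?_
  filter_upwards [self_mem_nhdsWithin] with s hs
  rw [slope_def_field, gi_zero, sub_zero, sub_zero, mul_inv, div_eq_inv_mul]

/-- the Dedekind zeta function does not vanish for `Re s > 1` -/
lemma LI_ne (K : Type) [Field K] [NumberField K] {s : ℂ} (hs : 1 < s.re) : LI (one K) s ≠ 0 := by
  rw [Pool.Agent.Y772.DK.LI_eq_exp (one K) (one_norm K) hs]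
  exact Complex.exp_ne_zero _

theorem exists_ratio (M L : Type) [Field M] [NumberField M] [Field L] [NumberField L] (d : ℕ)
    (hd : Fintype.card (InfinitePlace L) = Fintype.card (InfinitePlace M) + d) (hd0 : 0 < d) :
    ∃ G : ℂ → ℂ, (∀ z, MeromorphicAt G z) ∧ AnalyticAt ℂ G 0 ∧ G 0 = 0 ∧
      (∀ s : ℂ, 1 < s.re → G s * LI (one M) s = LI (one L) s) ∧
      (1 < d → deriv G 0 = 0) ∧
      (d = 1 → deriv G 0 = lv L / (2 * lv M) ∨ deriv G 0 = -(lv L / (2 * lv M))) := by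
  obtain ⟨XL, hL1, hL2, hL3⟩ := exists_X L
  obtain ⟨XM, hM1, hM2, hM3⟩ := exists_X M
  have hML : (lv M : ℂ) ≠ 0 := by exact_mod_cast (lv_pos M).ne'
  have hM0 : XM 0 ≠ 0 := by
    rcases hM2 with h | h <;> rw [h]
    · exact hML
    · exact neg_ne_zero.mpr hML
  have hRL : (((|(discr L : ℝ)| : ℝ) : ℂ)) ≠ 0 := by
    exact_mod_cast abs_ne_zero.mpr (Int.cast_ne_zero.mpr (discr_ne_zero L))
  have hRM : (((|(discr M : ℝ)| : ℝ) : ℂ)) ≠ 0 := by
    exact_mod_cast abs_ne_zero.mpr (Int.cast_ne_zero.mpr (discr_ne_zero M))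
  set RL : ℂ := ((|(discr L : ℝ)| : ℝ) : ℂ) with hRLd
  set RM : ℂ := ((|(discr M : ℝ)| : ℝ) : ℂ) with hRMd
  have hcp : ∀ R : ℂ, R ≠ 0 → Differentiable ℂ fun s : ℂ => R ^ (s / 2) := by
    intro R hR s
    exact DifferentiableAt.const_cpow (by fun_prop) (Or.inl hR)
  have hcp0 : ∀ R : ℂ, R ≠ 0 → ∀ s : ℂ, R ^ (s / 2) ≠ 0 := by
    intro R hR s
    rw [Ne, Complex.cpow_eq_zero_iff]
    exact fun h => hR h.1
  have hg1 : Differentiable ℂ fun s : ℂ => (Gammaℝ (s + 1))⁻¹ :=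
    differentiable_Gammaℝ_inv.comp (differentiable_id.add_const 1)
  have hg1' : (Gammaℝ (0 + 1))⁻¹ = 1 := by rw [zero_add, Gammaℝ_one, inv_one]
  set A : ℂ → ℂ := fun s => XL s * (XM s)⁻¹ * (RM ^ (s / 2) * (RL ^ (s / 2))⁻¹) *
    ((((Gammaℝ (s + 1))⁻¹)⁻¹) ^ nrComplexPlaces M * ((Gammaℝ (s + 1))⁻¹) ^ nrComplexPlaces L)
    with hA
  set B : ℂ → ℂ := fun s => ((Gammaℝ s)⁻¹) ^ d with hB
  have hAan : AnalyticAt ℂ A 0 := by
    refine (((hL1.analyticAt 0).mul ((hM1.analyticAt 0).inv hM0)).mul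
      (((hcp _ hRM).analyticAt 0).mul (((hcp _ hRL).analyticAt 0).inv (hcp0 _ hRL 0)))).mul
      (((((hg1.analyticAt 0).inv ?_)).pow _).mul ((hg1.analyticAt 0).pow _))
    rw [hg1']
    exact one_ne_zero
  have hBan : ∀ z, AnalyticAt ℂ B z := fun z => (differentiable_Gammaℝ_inv.analyticAt z).pow d
  have hA0 : A 0 = XL 0 * (XM 0)⁻¹ := by
    rw [hA]
    simp only
    rw [hg1', inv_one, one_pow, one_pow, zero_div, Complex.cpow_zero, Complex.cpow_zero, inv_one]
    ring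
  have hB0 : B 0 = 0 := by
    rw [hB]
    simp only
    rw [gi_zero, zero_pow hd0.ne']
  have hBd : HasDerivAt B (d * ((Gammaℝ 0)⁻¹) ^ (d - 1) * (1 / 2)) 0 := gi_deriv.pow d
  have hGd : HasDerivAt (fun s => A s * B s)
      (deriv A 0 * B 0 + A 0 * (d * ((Gammaℝ 0)⁻¹) ^ (d - 1) * (1 / 2))) 0 :=
    hAan.differentiableAt.hasDerivAt.mul hBd
  refine ⟨fun s => A s * B s, ?_, hAan.mul (hBan 0), ?_, ?_, ?_, ?_⟩
  · intro z
    refine MeromorphicAt.mul ?_ (hBan z).meromorphicAt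
    refine (((hL1.analyticAt z).meromorphicAt.mul (hM1.analyticAt z).meromorphicAt.inv).mul
      (((hcp _ hRM).analyticAt z).meromorphicAt.mul
        ((hcp _ hRL).analyticAt z).meromorphicAt.inv)).mul
      ((((hg1.analyticAt z).meromorphicAt.inv).pow _).mul ((hg1.analyticAt z).meromorphicAt.pow _))
  · show A 0 * B 0 = 0
    rw [hB0, mul_zero]
  · intro s hs
    have h0 : s ≠ 0 := fun h => by rw [h] at hs; norm_num at hs
    have h1 : s - 1 ≠ 0 := fun h => by
      have : s = 1 := by linear_combination h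
      rw [this] at hs
      norm_num at hs
    have hG : Gammaℝ s ≠ 0 := Gammaℝ_ne_zero_of_re_pos (by linarith)
    have hG1 : Gammaℝ (s + 1) ≠ 0 := Gammaℝ_ne_zero_of_re_pos (by
      rw [Complex.add_re, Complex.one_re]; linarith)
    have hζ := LI_ne M hs
    have e1 := hcp0 _ hRM s
    have e2 := hcp0 _ hRL s
    rw [hA, hB]
    simp only
    rw [hL3 s hs, hM3 s hs, hd, pow_add]
    simp only [inv_inv, inv_pow]
    field_simp
  · intro hd1
    rw [hGd.deriv, hB0, gi_zero, zero_pow (by omega)]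
    ring
  · intro hd1
    rw [hGd.deriv, hB0, hd1, hA0]
    rcases hL2 with h | h <;> rcases hM2 with h' | h' <;> rw [h, h']
    · left
      norm_num
      field_simp
    · right
      norm_num
      field_simp
    · right
      norm_num
      field_simp
    · left
      norm_num
      field_simp

end Pool.Agent.L0h48.DS
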