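import Pool.Agent.L0h48.DS.Zeta
import Pool.Agent.L0h48.DS.Ratio
import Pool.Agent.L0h48.DS.Log
import Pool.Agent.Y773.HG.Ent
import Pool.Agent.Y772.HG.Sgn

/-!
# L-functions of ray class characters at `s = 0`
-/

set_option autoImplicit false
set_option linter.unusedSectionVars false

namespace Pool.Agent.L0h48.DS

open NumberField NumberField.InfinitePlace Module Complex Filter Topology IsDedekindDomain Ideal
open Pool.Agent.Y773.G Pool.Agent.R362.HL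
open Pool.Agent.Y773 (LI TPos rp rp_ne_bot reps_rp mm Dd mm_pos Dd_pos Dd_mem mm_mem)
open Pool.Agent.Y772.NZ (one one_ne one_norm LI_one)

variable {k : Type} [Field k] [NumberField k]

/-- `LI ψ` continues, analytically at `0`, with derivative `D` there -/
def Con (ψ : Ideal (𝓞 k) →*₀ ℂ) (D : ℂ) : Prop :=
  ∃ F : ℂ → ℂ, (∀ z, MeromorphicAt F z) ∧ AnalyticAt ℂ F 0 ∧ (∀ s : ℂ, 1 < s.re → F s = LI ψ s) ∧
    deriv F 0 = D

lemma deriv_sq {A : ℂ → ℂ} (hA : AnalyticAt ℂ A 0) {n : ℕ} (hn : 2 ≤ n) :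
    deriv (fun s => A s * ((Gammaℝ s)⁻¹) ^ n) 0 = 0 := by
  have h1 : HasDerivAt (fun s => A s * ((Gammaℝ s)⁻¹) ^ n)
      (deriv A 0 * ((Gammaℝ 0)⁻¹) ^ n + A 0 * (n * ((Gammaℝ 0)⁻¹) ^ (n - 1) * (1 / 2))) 0 :=
    hA.differentiableAt.hasDerivAt.mul (gi_deriv.pow n)
  rw [h1.deriv, gi_zero, zero_pow (by omega), zero_pow (by omega)]
  ring

lemma gi_an (z : ℂ) : AnalyticAt ℂ (fun s : ℂ => (Gammaℝ s)⁻¹) z :=
  differentiable_Gammaℝ_inv.analyticAt z

/-- two gamma factors with a pole at zero -/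
lemma Con.of_gam {ψ : Ideal (𝓞 k) →*₀ ℂ} {e : InfinitePlace k → ℕ} {H : ℂ → ℂ}
    (hH : Differentiable ℂ H) {φ₁ φ₂ : k →+* ℂ} (hne : φ₁ ≠ φ₂) (h1 : ex e φ₁ = 0)
    (h2 : ex e φ₂ = 0)
    (heq : ∀ s : ℂ, 1 < s.re → LI ψ s = H s * ∏ φ : k →+* ℂ, (Gammaℝ (s + ex e φ))⁻¹) :
    Con ψ 0 := by
  classical
  set B : ℂ → ℂ := fun s => ∏ φ ∈ ((Finset.univ.erase φ₁).erase φ₂), (Gammaℝ (s + ex e φ))⁻¹ with hB
  have hBd : Differentiable ℂ B := by
    refine Differentiable.fun_finsetProd fun w _ => ?_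
    exact Complex.differentiable_Gammaℝ_inv.comp (differentiable_id.add_const _)
  have hprod : ∀ s : ℂ, ∏ φ : k →+* ℂ, (Gammaℝ (s + ex e φ))⁻¹ = B s * ((Gammaℝ s)⁻¹) ^ 2 := by
    intro s
    rw [← Finset.mul_prod_erase Finset.univ _ (Finset.mem_univ φ₁),
      ← Finset.mul_prod_erase (Finset.univ.erase φ₁) _
        (Finset.mem_erase.mpr ⟨hne.symm, Finset.mem_univ φ₂⟩), h1, h2, Nat.cast_zero, add_zero]
    ring
  have hA : ∀ z, AnalyticAt ℂ (fun s => H s * B s) z := fun z => (hH.mul hBd).analyticAt z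
  refine ⟨fun s => (H s * B s) * ((Gammaℝ s)⁻¹) ^ 2, fun z => ?_, ?_, ?_, deriv_sq (hA 0) le_rfl⟩
  · exact ((hA z).mul ((gi_an z).pow 2)).meromorphicAt
  · exact (hA 0).mul ((gi_an 0).pow 2)
  · intro s hs
    rw [heq s hs, hprod]
    ring

/-- at a complex place -/
lemma ex_cpx {e : InfinitePlace k → ℕ} {w : InfinitePlace k} (hw : w.IsComplex) :
    ex e w.embedding = 0 := by
  classical
  unfold ex
  rw [if_neg (by rwa [mk_embedding, not_isReal_iff_isComplex]), if_pos (by rw [mk_embedding])]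

lemma ex_real {e : InfinitePlace k → ℕ} {w : InfinitePlace k} (hw : w.IsReal) :
    ex e w.embedding = e w := by
  classical
  unfold ex
  rw [if_pos (by rwa [mk_embedding]), mk_embedding]

/-- **a character which is not totally odd** -/
theorem Con.hecke {𝔣 : Ideal (𝓞 k)} (hf : 𝔣 ≠ ⊥) {ψ : Ideal (𝓞 k) →*₀ ℂ}
    (hsupp : ∀ 𝔞 : Ideal (𝓞 k), 𝔞 ≠ ⊥ → (ψ 𝔞 ≠ 0 ↔ IsCoprime 𝔞 𝔣))
    (hray : ∀ x : 𝓞 k, x ≠ 0 → x - 1 ∈ 𝔣 → TPos k x → ψ (Ideal.span {x}) = 1)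
    (hn : ∃ 𝔞 : Ideal (𝓞 k), 𝔞 ≠ ⊥ ∧ IsCoprime 𝔞 𝔣 ∧ ψ 𝔞 ≠ 1)
    {w₀ : InfinitePlace k} (hw₀ : w₀.IsComplex)
    (hodd : ∀ e : InfinitePlace k → ℕ, (∀ w, e w ≤ 1) → (∀ w : InfinitePlace k, w.IsComplex → e w = 0) →
      (∀ x : 𝓞 k, x ≠ 0 → x - 1 ∈ 𝔣 → ψ (Ideal.span {x}) = sg e (x : k)) →
      ∃ w : InfinitePlace k, w.IsReal ∧ e w = 0) : Con ψ 0 := by
  obtain ⟨e, he1, he2, he3⟩ := Pool.Agent.Y772.G.t_sig k 𝔣 ψ hf hray
  obtain ⟨w, hw, hw0⟩ := hodd e he1 he2 he3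
  have hne : w₀.embedding ≠ w.embedding := by
    intro h1
    have h2 := congrArg InfinitePlace.mk h1
    rw [mk_embedding, mk_embedding] at h2
    rw [h2] at hw₀
    exact (not_isReal_iff_isComplex.mpr hw₀) hw
  by_cases htop : 𝔣 = ⊤
  · subst htop
    obtain ⟨𝔞, ha1, -, ha2⟩ := hn
    obtain ⟨X, hX⟩ := xi_unr (e := e) (ψ := ψ) ⟨he1, he2, fun x hx => he3 x hx trivial⟩ (r := 0)
      (Or.inr ⟨rfl, 𝔞, ha1, ha2⟩)
    set R : ℂ := (((Ideal.absNorm (differentIdeal ℤ (𝓞 k)) : ℕ) : ℝ) : ℂ) with hR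
    have hR0 : R ≠ 0 := by
      rw [hR]
      have h3 : Ideal.absNorm (differentIdeal ℤ (𝓞 k)) ≠ 0 := by
        rw [Ne, Ideal.absNorm_eq_zero_iff]
        exact differentIdeal_ne_bot
      exact_mod_cast h3
    have hcp : Differentiable ℂ fun s : ℂ => (R ^ (s / 2))⁻¹ := by
      intro s
      refine DifferentiableAt.inv (DifferentiableAt.const_cpow (by fun_prop) (Or.inl hR0)) ?_
      rw [Ne, Complex.cpow_eq_zero_iff]
      exact fun h => hR0 h.1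
    refine Con.of_gam (e := e) (H := fun s => X s * (R ^ (s / 2))⁻¹) (hX.diff.mul hcp) hne
      (ex_cpx hw₀) (by rw [ex_real hw, hw0]) fun s hs => ?_
    have h4 := gam_ne_zero (K := k) (ex e) (s := s) (by linarith)
    have h5 : R ^ (s / 2) ≠ 0 := by
      rw [Ne, Complex.cpow_eq_zero_iff]
      exact fun h => hR0 h.1
    rw [hX.eq s hs, Finset.prod_inv_distrib]
    field_simp
    ring
  · have hmod : IsModChar 𝔣 e ψ := ⟨hf, htop, he1, he2, fun 𝔞 => by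
      by_cases ha : 𝔞 = ⊥
      · subst ha
        constructor
        · intro h1
          exact absurd (map_zero ψ) h1
        · intro h1
          rw [Ideal.isCoprime_iff_sup_eq, bot_sup_eq] at h1
          exact absurd h1 htop
      · exact hsupp 𝔞 ha, he3⟩
    have hn' : ∃ 𝔞, IsCoprime 𝔞 𝔣 ∧ ψ 𝔞 ≠ 1 := by
      obtain ⟨𝔞, -, h1, h2⟩ := hn
      exact ⟨𝔞, h1, h2⟩
    obtain ⟨V, hV, hfe⟩ := fam_fe k
    obtain ⟨C, hC, hmel⟩ := mellin_Ftot k
    have hN : ∀ c, Nice e (Ps ψ e (rp k c)) := fun c => hmod.nice (rp_ne_bot c)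
    obtain ⟨h1, h2, -⟩ := hfe (rp k) reps_rp e ψ hN (mm (rp k) 𝔣) (Dd k) (mm_pos rp_ne_bot hf)
      Dd_pos Dd_mem (fun c => hmod.per_m (rp_ne_bot c) (mm_mem _ _ c)) (hmod.const_zero hn')
    refine Con.of_gam (e := e) (H := fun s => (C : ℂ)⁻¹ * mellin (Ftot ψ e (rp k)) s)
      (h2.const_mul _) hne (ex_cpx hw₀) (by rw [ex_real hw, hw0]) fun s hs => ?_
    rw [(hmel (rp k) reps_rp e ψ hmod.norm_le_one hN s hs).2, Finset.prod_inv_distrib]
    have h3 := gam_ne_zero (K := k) (ex e) (s := s) (by linarith)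
    have hC' : (C : ℂ) ≠ 0 := by exact_mod_cast hC.ne'
    field_simp

/-- the Dedekind zeta function -/
theorem exists_zeta (h3 : 3 ≤ Fintype.card (InfinitePlace k)) :
    ∃ F : ℂ → ℂ, (∀ z, MeromorphicAt F z) ∧ AnalyticAt ℂ F 0 ∧
      (∀ s : ℂ, 1 < s.re → F s = LI (one k) s) ∧ F 0 = 0 ∧ deriv F 0 = 0 := by
  obtain ⟨X, hX1, -, hX2⟩ := exists_X k
  set R : ℂ := ((|(discr k : ℝ)| : ℝ) : ℂ) with hRd
  have hR : R ≠ 0 := by
    rw [hRd]
    exact_mod_cast abs_ne_zero.mpr (Int.cast_ne_zero.mpr (discr_ne_zero k))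
  have hR0 : ∀ s : ℂ, R ^ (s / 2) ≠ 0 := by
    intro s
    rw [Ne, Complex.cpow_eq_zero_iff]
    exact fun h => hR h.1
  have hcp : Differentiable ℂ fun s : ℂ => (R ^ (s / 2))⁻¹ := by
    intro s
    exact DifferentiableAt.inv (DifferentiableAt.const_cpow (by fun_prop) (Or.inl hR)) (hR0 s)
  have hg : ∀ a : ℂ, Differentiable ℂ fun s : ℂ => (Gammaℝ (s + a))⁻¹ := fun a =>
    differentiable_Gammaℝ_inv.comp (differentiable_id.add_const a)
  set n := Fintype.card (InfinitePlace k) with hn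
  set A : ℂ → ℂ := fun s => (s - 1)⁻¹ * (X s * (R ^ (s / 2))⁻¹ *
    ((Gammaℝ (s + 2))⁻¹ * (2 * Real.pi)⁻¹) * ((Gammaℝ (s + 1))⁻¹) ^ nrComplexPlaces k) with hA
  have hAm : ∀ z, MeromorphicAt A z := by
    intro z
    refine MeromorphicAt.mul ?_ ?_
    · exact (((analyticAt_id (z := z)).sub analyticAt_const).meromorphicAt).inv
    · exact ((((hX1.analyticAt z).mul (hcp.analyticAt z)).mul
        (((hg 2).analyticAt z).mul analyticAt_const)).mul
        (((hg 1).analyticAt z).pow _)).meromorphicAt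
  have hAa : AnalyticAt ℂ A 0 := by
    refine AnalyticAt.mul ?_ ?_
    · exact ((analyticAt_id (z := (0 : ℂ))).sub analyticAt_const).inv (by norm_num)
    · exact (((hX1.analyticAt 0).mul (hcp.analyticAt 0)).mul
        (((hg 2).analyticAt 0).mul analyticAt_const)).mul
        (((hg 1).analyticAt 0).pow _)
  refine ⟨fun s => A s * ((Gammaℝ s)⁻¹) ^ (n - 1), fun z => ?_, ?_, ?_, ?_,
    deriv_sq hAa (by omega)⟩
  rotate_right
  · show A 0 * ((Gammaℝ 0)⁻¹) ^ (n - 1) = 0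
    rw [gi_zero, zero_pow (by omega), mul_zero]
  · exact (hAm z).mul ((gi_an z).pow _).meromorphicAt
  · exact hAa.mul ((gi_an 0).pow _)
  · intro s hs
    have h0 : s ≠ 0 := fun h => by rw [h] at hs; norm_num at hs
    have h1 : s - 1 ≠ 0 := fun h => by
      have : s = 1 := by linear_combination h
      rw [this] at hs
      norm_num at hs
    have hG : Gammaℝ s ≠ 0 := Gammaℝ_ne_zero_of_re_pos (by linarith)
    have hG1 : Gammaℝ (s + 1) ≠ 0 := Gammaℝ_ne_zero_of_re_pos (by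
      rw [Complex.add_re, Complex.one_re]; linarith)
    have hpi : (Real.pi : ℂ) ≠ 0 := by exact_mod_cast Real.pi_ne_zero
    have hG2 := Complex.Gammaℝ_add_two h0
    have hn1 : n = (n - 1) + 1 := by omega
    have hRs := hR0 s
    rw [hA]
    simp only
    rw [hX2 s hs, hG2]
    have hpw : Gammaℝ s ^ n = Gammaℝ s ^ (n - 1) * Gammaℝ s := by
      rw [← pow_succ, ← hn1]
    rw [hpw]
    simp only [inv_pow]
    push_cast
    field_simp

end Pool.Agent.L0h48.DS
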