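import Pool.Agent.L0h48.DS.ChiV
import Pool.Agent.L0h48.DS.Hecke

/-!
# Artin symbols, L-functions of the characters of the Galois group, partial zeta functions
-/

set_option autoImplicit false
set_option linter.unusedSectionVars false

namespace Pool.Agent.L0h48.DS

open NumberField NumberField.InfinitePlace Module IsDedekindDomain Ideal
open scoped ComplexConjugate Pointwise
open Pool.Agent.Y773 (LI TPos)
open Pool.Agent.Y772.NZ (one one_ne one_norm LI_one)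
open Pool.Agent.K4H74.SC

section one

variable {k K : Type} [Field k] [NumberField k] [Field K] [NumberField K] [Algebra k K]

/-- `art 𝔞` is the Artin symbol of the nonzero ideals `𝔞` prime to `𝔣`, the extension `K/k` being
contained in the narrow ray class field modulo `𝔣` -/
structure IsArt (𝔣 : Ideal (𝓞 k)) (art : Ideal (𝓞 k) → (K ≃ₐ[k] K)) : Prop where
  ne_bot : 𝔣 ≠ ⊥
  mul : ∀ 𝔞 𝔟 : Ideal (𝓞 k), 𝔞 ≠ ⊥ → 𝔟 ≠ ⊥ → IsCoprime 𝔞 𝔣 → IsCoprime 𝔟 𝔣 →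
    art (𝔞 * 𝔟) = art 𝔞 * art 𝔟
  frob : ∀ 𝔭 : Ideal (𝓞 k), 𝔭.IsPrime → 𝔭 ≠ ⊥ → IsCoprime 𝔭 𝔣 → ∀ P : Ideal (𝓞 K),
    P.IsPrime → P.LiesOver 𝔭 → ∀ x : 𝓞 K, art 𝔭 • x - x ^ absNorm 𝔭 ∈ P
  unram : ∀ 𝔭 : Ideal (𝓞 k), 𝔭.IsPrime → 𝔭 ≠ ⊥ → IsCoprime 𝔭 𝔣 → ∀ P : Ideal (𝓞 K),
    P.IsPrime → P.LiesOver 𝔭 → ∀ g : K ≃ₐ[k] K, (∀ x : 𝓞 K, g • x - x ∈ P) → g = 1
  ray : ∀ x : 𝓞 k, x ≠ 0 → x - 1 ∈ 𝔣 → (∀ τ : k →+* ℝ, 0 < τ (x : k)) →
    art (Ideal.span {x}) = 1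

variable {𝔣 : Ideal (𝓞 k)} {art : Ideal (𝓞 k) → (K ≃ₐ[k] K)}

lemma IsArt.top (h : IsArt 𝔣 art) : art 1 = 1 := by
  have h1 := h.mul 1 1 one_ne_zero one_ne_zero isCoprime_one_left isCoprime_one_left
  rw [mul_one] at h1
  exact (mul_eq_left.mp h1.symm)

open Classical in
/-- the function on the ideals of a character of the Galois group -/
noncomputable def psi (h : IsArt 𝔣 art) (χ : (K ≃ₐ[k] K) →* ℂˣ) : Ideal (𝓞 k) →*₀ ℂ where
  toFun 𝔞 := if 𝔞 ≠ ⊥ ∧ IsCoprime 𝔞 𝔣 then ((χ (art 𝔞) : ℂˣ) : ℂ) else 0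
  map_zero' := if_neg fun h1 => h1.1 rfl
  map_one' := by
    rw [if_pos ⟨one_ne_zero, isCoprime_one_left⟩, h.top, map_one, Units.val_one]
  map_mul' 𝔞 𝔟 := by
    by_cases h1 : 𝔞 ≠ ⊥ ∧ IsCoprime 𝔞 𝔣
    · by_cases h2 : 𝔟 ≠ ⊥ ∧ IsCoprime 𝔟 𝔣
      · rw [if_pos h1, if_pos h2, if_pos ⟨mul_ne_zero h1.1 h2.1, h1.2.mul_left h2.2⟩,
          h.mul 𝔞 𝔟 h1.1 h2.1 h1.2 h2.2, map_mul, Units.val_mul]
      · rw [if_neg h2, if_neg, mul_zero]
        intro h3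
        exact h2 ⟨fun h4 => h3.1 (by rw [h4, Ideal.mul_bot]), (IsCoprime.mul_left_iff.mp h3.2).2⟩
    · rw [if_neg h1, if_neg, zero_mul]
      intro h3
      exact h1 ⟨fun h4 => h3.1 (by rw [h4, Ideal.bot_mul]), (IsCoprime.mul_left_iff.mp h3.2).1⟩

open Classical in
lemma psi_apply (h : IsArt 𝔣 art) (χ : (K ≃ₐ[k] K) →* ℂˣ) (𝔞 : Ideal (𝓞 k)) :
    psi h χ 𝔞 = if 𝔞 ≠ ⊥ ∧ IsCoprime 𝔞 𝔣 then ((χ (art 𝔞) : ℂˣ) : ℂ) else 0 := rfl

lemma psi_cop (h : IsArt 𝔣 art) (χ : (K ≃ₐ[k] K) →* ℂˣ) {𝔞 : Ideal (𝓞 k)} (h1 : 𝔞 ≠ ⊥)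
    (h2 : IsCoprime 𝔞 𝔣) : psi h χ 𝔞 = ((χ (art 𝔞) : ℂˣ) : ℂ) := by
  rw [psi_apply, if_pos ⟨h1, h2⟩]

lemma psi_not (h : IsArt 𝔣 art) (χ : (K ≃ₐ[k] K) →* ℂˣ) {𝔞 : Ideal (𝓞 k)}
    (h2 : ¬ IsCoprime 𝔞 𝔣) : psi h χ 𝔞 = 0 := by
  rw [psi_apply, if_neg (fun h3 => h2 h3.2)]

lemma norm_psi (h : IsArt 𝔣 art) (χ : (K ≃ₐ[k] K) →* ℂˣ) (𝔞 : Ideal (𝓞 k)) :
    ‖psi h χ 𝔞‖ ≤ 1 := by
  rw [psi_apply]
  split_ifs
  · rw [norm_chi]
  · rw [norm_zero]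
    exact zero_le_one

lemma psi_supp (h : IsArt 𝔣 art) (χ : (K ≃ₐ[k] K) →* ℂˣ) {𝔞 : Ideal (𝓞 k)} (h1 : 𝔞 ≠ ⊥) :
    psi h χ 𝔞 ≠ 0 ↔ IsCoprime 𝔞 𝔣 := by
  by_cases h2 : IsCoprime 𝔞 𝔣
  · rw [psi_cop h χ h1 h2]
    exact ⟨fun _ => h2, fun _ => Units.ne_zero _⟩
  · rw [psi_not h χ h2]
    exact ⟨fun h3 => absurd rfl h3, fun h3 => absurd h3 h2⟩

lemma cop_span {x : 𝓞 k} (hx : x - 1 ∈ 𝔣) : IsCoprime (Ideal.span {x}) 𝔣 := by
  rw [Ideal.isCoprime_iff_exists]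
  exact ⟨x, Ideal.mem_span_singleton_self x, 1 - x, by
    rw [← neg_sub]
    exact 𝔣.neg_mem hx, by ring⟩

lemma span_ne {x : 𝓞 k} (hx : x ≠ 0) : Ideal.span {x} ≠ ⊥ := by
  rwa [Ne, Ideal.span_singleton_eq_bot]

lemma psi_ray (h : IsArt 𝔣 art) (χ : (K ≃ₐ[k] K) →* ℂˣ) (x : 𝓞 k) (h0 : x ≠ 0)
    (hx : x - 1 ∈ 𝔣) (hp : TPos k x) : psi h χ (Ideal.span {x}) = 1 := by
  rw [psi_cop h χ (span_ne h0) (cop_span hx), h.ray x h0 hx hp, map_one, Units.val_one]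

/-- powers of a Frobenius element -/
lemma fr_pow {P : Ideal (𝓞 K)} {N : ℕ} {g : K ≃ₐ[k] K} (hg : ∀ x : 𝓞 K, g • x - x ^ N ∈ P)
    (n : ℕ) : Fr P (N ^ n) (g ^ n) := by
  induction n with
  | zero =>
    intro y
    rw [pow_zero, pow_zero, one_smul, pow_one, sub_self]
    exact P.zero_mem
  | succ n ih =>
    intro y
    have h1 := hg (g ^ n • y)
    have h2 := ih y
    have h3 : (g ^ n • y) ^ N - (y ^ N ^ n) ^ N ∈ P := by
      obtain ⟨c, hc⟩ := sub_dvd_pow_sub_pow (g ^ n • y) (y ^ N ^ n) N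
      rw [hc]
      exact P.mul_mem_right _ h2
    have h4 := P.add_mem h1 h3
    rw [sub_add_sub_cancel, ← mul_smul, ← pow_succ', ← pow_mul, ← pow_succ] at h4
    exact h4

variable [IsGalois k K]

lemma ak_psi (h : IsArt 𝔣 art) (χ : (K ≃ₐ[k] K) →* ℂˣ) (q : HeightOneSpectrum (𝓞 k))
    (hq : IsCoprime q.asIdeal 𝔣) : ak χ q = psi h χ q.asIdeal := by
  have hqp := q.isPrime
  obtain ⟨P, hP1, hP2⟩ := (inferInstance : Nonempty (primesOver q.asIdeal (𝓞 K)))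
  rw [psi_cop h χ q.ne_bot hq]
  refine ak_frob χ q P (fr_pow (h.frob q.asIdeal hqp q.ne_bot hq P hP1 hP2)) fun i hi => ?_
  rw [h.unram q.asIdeal hqp q.ne_bot hq P hP1 hP2 i hi, map_one]

/-- **the L-function of the character in terms of the Artin L-series** -/
theorem LI_psi (h : IsArt 𝔣 art) (χ : (K ≃ₐ[k] K) →* ℂˣ) (S : Finset (HeightOneSpectrum (𝓞 k)))
    (hS : ∀ q, q ∈ S ↔ ¬ IsCoprime q.asIdeal 𝔣) {s l : ℂ} (hs : 1 < s.re)
    (hl : HasSum (logTerm k K (cf χ) s) l) :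
    LI (psi h χ) s = Complex.exp l * ∏ q ∈ S, fac (ak χ) s q := by
  refine hasProd_change (norm_ak χ) hs S (fun q hq => psi_not h χ ((hS q).mp hq)) (fun q hq => ?_)
    (hasProd_log (norm_ak χ) (frobMean_ak χ) hs hl) (hasProd_place (norm_psi h χ) hs)
  rw [hS, not_not] at hq
  exact ak_psi h χ q hq

lemma fac_diff (a : HeightOneSpectrum (𝓞 k) → ℂ) (S : Finset (HeightOneSpectrum (𝓞 k))) :
    Differentiable ℂ fun s => ∏ q ∈ S, fac a s q := by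
  refine Differentiable.fun_finsetProd fun q _ => ?_
  have h2 : ((absNorm q.asIdeal : ℕ) : ℂ) ≠ 0 := by
    have := two_le_absNorm q
    exact_mod_cast (by omega : absNorm q.asIdeal ≠ 0)
  intro s
  exact (differentiableAt_const _).sub ((differentiableAt_const _).mul
    ((differentiableAt_id.neg).const_cpow (Or.inl h2)))

/-- the continuation of the L-function of a character of order four -/
lemma Con.of_G (h : IsArt 𝔣 art) (χ : (K ≃ₐ[k] K) →* ℂˣ) (S : Finset (HeightOneSpectrum (𝓞 k)))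
    (hS : ∀ q, q ∈ S ↔ ¬ IsCoprime q.asIdeal 𝔣) {G : ℂ → ℂ} (hG1 : ∀ z, MeromorphicAt G z)
    (hG2 : AnalyticAt ℂ G 0) (hG3 : G 0 = 0)
    (hG4 : ∀ s : ℂ, 1 < s.re → ∀ l, HasSum (logTerm k K (cf χ) s) l → Complex.exp l = G s) :
    Con (psi h χ) (deriv G 0 * ∏ q ∈ S, (1 - ak χ q)) := by
  have hE := fac_diff (ak χ) S
  refine ⟨fun s => G s * ∏ q ∈ S, fac (ak χ) s q, fun z => ?_, ?_, fun s hs => ?_, ?_⟩
  · exact (hG1 z).mul (hE.analyticAt z).meromorphicAt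
  · exact hG2.mul (hE.analyticAt 0)
  · obtain ⟨l, hl⟩ := logTerm_summable (K := k) (L := K) (cf χ) hs
    rw [LI_psi h χ S hS hs hl, hG4 s hs l hl]
  · have h1 : HasDerivAt (fun s => G s * ∏ q ∈ S, fac (ak χ) s q)
        (deriv G 0 * ∏ q ∈ S, fac (ak χ) 0 q +
          G 0 * deriv (fun s => ∏ q ∈ S, fac (ak χ) s q) 0) 0 :=
      hG2.differentiableAt.hasDerivAt.mul (hE 0).hasDerivAt
    rw [h1.deriv, hG3, zero_mul, add_zero]
    congr 1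
    refine Finset.prod_congr rfl fun q _ => ?_
    unfold fac
    rw [neg_zero, Complex.cpow_zero, mul_one]

/-- the trivial character -/
lemma Con.triv (h : IsArt 𝔣 art) (χ : (K ≃ₐ[k] K) →* ℂˣ) (S : Finset (HeightOneSpectrum (𝓞 k)))
    (hS : ∀ q, q ∈ S ↔ ¬ IsCoprime q.asIdeal 𝔣) (h3 : 3 ≤ Fintype.card (InfinitePlace k))
    (ht : ∀ 𝔞 : Ideal (𝓞 k), 𝔞 ≠ ⊥ → IsCoprime 𝔞 𝔣 → psi h χ 𝔞 = 1) : Con (psi h χ) 0 := by
  obtain ⟨Z, hZ1, hZ2, hZ3, hZ4, hZ5⟩ := exists_zeta (k := k) h3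
  have hE := fac_diff (fun _ => 1) S
  refine ⟨fun s => Z s * ∏ q ∈ S, fac (fun _ => 1) s q, fun z => ?_, ?_, fun s hs => ?_, ?_⟩
  · exact (hZ1 z).mul (hE.analyticAt z).meromorphicAt
  · exact hZ2.mul (hE.analyticAt 0)
  · show Z s * ∏ q ∈ S, fac (fun _ => 1) s q = LI (psi h χ) s
    rw [hZ3 s hs]
    refine (hasProd_change (a := fun _ => 1) (b := fun q => psi h χ q.asIdeal) (fun _ => by simp)
      hs S (fun q hq => psi_not h χ ((hS q).mp hq)) (fun q hq => ?_) ?_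
      (hasProd_place (norm_psi h χ) hs)).symm
    · rw [hS, not_not] at hq
      exact (ht q.asIdeal q.ne_bot hq).symm
    · refine (hasProd_place (one_norm k) hs).congr_fun fun q => ?_
      unfold fac
      beta_reduce
      rw [one_ne k q.ne_bot]
  · have h1 : HasDerivAt (fun s => Z s * ∏ q ∈ S, fac (fun _ => 1) s q)
        (deriv Z 0 * ∏ q ∈ S, fac (fun _ => 1) 0 q +
          Z 0 * deriv (fun s => ∏ q ∈ S, fac (fun _ => 1) s q) 0) 0 :=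
      hZ2.differentiableAt.hasDerivAt.mul (hE 0).hasDerivAt
    rw [h1.deriv, hZ4, hZ5, zero_mul, zero_mul, add_zero]

/-- the number of real places at which `x` is negative -/
noncomputable def negs (x : k) : ℕ :=
  Nat.card {w : InfinitePlace k // ∃ hw : w.IsReal, InfinitePlace.embedding_of_isReal hw x < 0}

/-- `χ` is totally odd -/
def TotOdd (𝔣 : Ideal (𝓞 k)) (art : Ideal (𝓞 k) → (K ≃ₐ[k] K)) (χ : (K ≃ₐ[k] K) →* ℂˣ) : Prop :=
  ∀ x : 𝓞 k, x ≠ 0 → x - 1 ∈ 𝔣 → χ (art (Ideal.span {x})) = (-1) ^ negs (x : k)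

open Pool.Agent.Y773.G in
lemma sg_negs {e : InfinitePlace k → ℕ} (h1 : ∀ w : InfinitePlace k, w.IsReal → e w = 1)
    (h2 : ∀ w : InfinitePlace k, w.IsComplex → e w = 0) {x : k} (hx : x ≠ 0) :
    sg e x = (-1) ^ negs x := by
  classical
  have h3 : ∀ w : InfinitePlace k, (((SignType.sign (rl w x) : SignType) : ℤ) : ℂ) ^ (e w) =
      if ∃ hw : w.IsReal, InfinitePlace.embedding_of_isReal hw x < 0 then -1 else 1 := by
    intro w
    rcases InfinitePlace.isReal_or_isComplex w with hw | hw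
    · rw [h1 w hw, pow_one, Pool.Agent.Y772.G.rl_real hw]
      have h4 : InfinitePlace.embedding_of_isReal hw x ≠ 0 := by
        rw [Ne, map_eq_zero]
        exact hx
      by_cases h5 : InfinitePlace.embedding_of_isReal hw x < 0
      · rw [if_pos ⟨hw, h5⟩, sign_neg h5]
        simp
      · rw [if_neg (fun h6 => h5 h6.2), sign_pos (lt_of_le_of_ne (not_lt.mp h5) h4.symm)]
        simp
    · rw [h2 w hw, pow_zero, if_neg]
      rintro ⟨hw', -⟩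
      exact not_isReal_iff_isComplex.mpr hw hw'
  unfold sg
  rw [Finset.prod_congr rfl (fun w _ => h3 w), Finset.prod_ite, Finset.prod_const,
    Finset.prod_const_one, mul_one, negs, Nat.card_eq_fintype_card, Fintype.card_subtype]

lemma fin_S (h : IsArt 𝔣 art) :
    {q : HeightOneSpectrum (𝓞 k) | ¬ IsCoprime q.asIdeal 𝔣}.Finite := by
  refine (Ideal.finite_factors h.ne_bot).subset fun q hq => ?_
  by_contra h1
  exact hq ((Pool.Agent.Y773.AB.cop_iff q.prime).mpr h1)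

/-- **characters which are not totally odd** -/
theorem Con.other (h : IsArt 𝔣 art) (χ : (K ≃ₐ[k] K) →* ℂˣ)
    (h3 : 3 ≤ Fintype.card (InfinitePlace k)) (hc : nrComplexPlaces k ≠ 0)
    (hχ : ¬ TotOdd 𝔣 art χ) : Con (psi h χ) 0 := by
  classical
  have hfin := fin_S h
  by_cases ht : ∀ 𝔞 : Ideal (𝓞 k), 𝔞 ≠ ⊥ → IsCoprime 𝔞 𝔣 → psi h χ 𝔞 = 1
  · exact Con.triv h χ hfin.toFinset (fun q => hfin.mem_toFinset) h3 ht
  · push Not at ht
    obtain ⟨w₀, hw₀⟩ : ∃ w : InfinitePlace k, w.IsComplex := by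
      by_contra hne
      push Not at hne
      apply hc
      rw [nrComplexPlaces, Fintype.card_eq_zero_iff]
      exact ⟨fun w => hne w.1 w.2⟩
    refine Con.hecke h.ne_bot (fun 𝔞 h1 => psi_supp h χ h1) (psi_ray h χ) ?_ hw₀ ?_
    · obtain ⟨𝔞, h1, h2, h4⟩ := ht
      exact ⟨𝔞, h1, h2, h4⟩
    · intro e he1 he2 he3
      by_contra hne
      push Not at hne
      apply hχ
      intro x hx hx1
      have h5 := he3 x hx hx1
      rw [psi_cop h χ (span_ne hx) (cop_span hx1), sg_negs (fun w hw => by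
        have h6 := he1 w
        have h7 := hne w hw
        omega) he2 (RingOfIntegers.coe_ne_zero_iff.mpr hx)] at h5
      apply Units.ext
      rw [h5]
      simp

end one

end Pool.Agent.L0h48.DS
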