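import Pool.Agent.L0h48.DS.Act

/-!
# The L-function and the unit of a character of order four
-/

set_option autoImplicit false
set_option linter.unusedSectionVars false

namespace Pool.Agent.L0h48.DS

open Module NumberField NumberField.InfinitePlace IsDedekindDomain
open scoped ComplexConjugate Pointwise
open Pool.Agent.Y773 (LI)
open Pool.Agent.Y772.NZ (one)
open Pool.Agent.K4H74.ST (indChar)
open Pool.Agent.K4H74.SC

variable {F k K : Type} [Field F] [NumberField F] [Field k] [NumberField k] [Field K]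
  [NumberField K] [Algebra F k] [Algebra k K] [Algebra F K] [IsScalarTower F k K] [IsGalois F K]
  {s : K ≃ₐ[F] K} {χ : (K ≃ₐ[k] K) →* ℂˣ}

/-- the embedding of units -/
noncomputable def emu (L K : Type) [Field L] [NumberField L] [Field K] [NumberField K]
    [Algebra L K] : (𝓞 L)ˣ →* (𝓞 K)ˣ := Units.map (algebraMap (𝓞 L) (𝓞 K) : 𝓞 L →* 𝓞 K)

lemma emu_coe {L : Type} [Field L] [NumberField L] [Algebra L K] (u : (𝓞 L)ˣ) :
    ((emu L K u : 𝓞 K) : K) = algebraMap L K ((u : 𝓞 L) : L) := rfl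

section ML

variable {M L : Type} [Field M] [NumberField M] [Field L] [NumberField L]
    [Algebra F M] [Algebra M K] [IsScalarTower F M K] [Algebra F L] [Algebra L K]
    [IsScalarTower F L K] [Algebra M L] [IsScalarTower M L K]

/-- ramified primes give ramified primes of `L/M` -/
lemma ram_L (h : Dat F s χ) {σ : L ≃ₐ[M] L}
    (hσ' : ∀ i : K ≃ₐ[F] K, i ∈ HV h V2 → i ∉ HV h ⊥ →
      ∀ x : L, algebraMap L K (σ x) = i (algebraMap L K x))
    {P : Ideal (𝓞 K)} (hg : ∃ i : K ≃ₐ[F] K, (∀ x : 𝓞 K, i • x - x ∈ P) ∧ Out h i) (x : 𝓞 L) :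
    σ • x - x ∈ P.under (𝓞 L) := by
  obtain ⟨i, hi, hi1, hi2⟩ := hg
  have h2 := hi (algebraMap (𝓞 L) (𝓞 K) x)
  rw [Ideal.under_def, Ideal.mem_comap, map_sub]
  have h3 : algebraMap (𝓞 L) (𝓞 K) (σ • x) = i • algebraMap (𝓞 L) (𝓞 K) x := by
    apply RingOfIntegers.ext
    exact hσ' i hi1 hi2 (x : L)
  rw [h3]
  exact h2

end ML

/-- ramification of the character -/
lemma out_of_ram (h : Dat F s χ) {P : Ideal (𝓞 K)} (hg : ∃ g ∈ P.inertia (K ≃ₐ[k] K), χ g ≠ 1) :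
    ∃ i : K ≃ₐ[F] K, (∀ x : 𝓞 K, i • x - x ∈ P) ∧ Out h i := by
  obtain ⟨c, hc⟩ := h.exc
  obtain ⟨g, hg, hg1⟩ := hg
  obtain ⟨i, hi, hi1⟩ : ∃ i ∈ P.inertia (K ≃ₐ[k] K), χ i = -1 := by
    rcases val_cases h hc g with h1 | h1 | h1 | h1
    · exact absurd h1 hg1
    · exact ⟨g, hg, h1⟩
    · exact ⟨g * g, mul_mem hg hg, by rw [map_mul, h1, ← sq, hc]⟩
    · exact ⟨g * g, mul_mem hg hg, by rw [map_mul, h1, neg_mul_neg, ← sq, hc]⟩
  exact ⟨rs F i, hi, (rs_mem_HV h).mpr (by rw [hi1, mem_V2]; exact Or.inr rfl),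
    by rw [rs_mem_HV h, hi1, Subgroup.mem_bot]; exact neg_one_ne⟩

/-- complex conjugation in the inertia group -/
lemma out_of_s (h : Dat F s χ) {p : Ideal (𝓞 F)} {P : Ideal (𝓞 K)} (hP1 : P.IsPrime)
    (hP2 : P.LiesOver p) (hs : ∀ x : 𝓞 K, s • x - x ∈ P) :
    ∃ P : Ideal (𝓞 K), P.IsPrime ∧ P.LiesOver p ∧
      ∃ i : K ≃ₐ[F] K, (∀ x : 𝓞 K, i • x - x ∈ P) ∧ Out h i := by
  obtain ⟨c, hc⟩ := h.exc
  obtain ⟨g', e1, e2⟩ := h.conjc hc 1
  rw [map_one, mul_one] at e1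
  rw [map_one] at e2
  refine ⟨(rs F c)⁻¹ • P, inferInstance, ⟨by
    rw [Ideal.under_smul (𝓞 F) P (rs F c)⁻¹]
    exact hP2.over⟩, s * rs F g', fun x => ?_, ?_, ?_⟩
  · rw [← e1]
    have h1 := hs ((rs F c) • x)
    have h2 := Ideal.smul_mem_pointwise_smul (rs F c)⁻¹ _ _ h1
    rw [smul_sub, inv_smul_smul] at h2
    rw [mul_smul, mul_smul]
    exact h2
  · rw [srs_mem_HV h, e2, mem_V2]
    exact Or.inr rfl
  · rw [srs_mem_HV h, e2, Subgroup.mem_bot]
    exact neg_one_ne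

/-- **the L-function and the unit** -/
theorem chi_unit (h : Dat F s χ) {ι : K →+* ℂ} (hι : ∀ x, conj (ι x) = ι (s x))
    (T : Finset (HeightOneSpectrum (𝓞 F)))
    (hT : ∀ p ∈ T, ∃ P : Ideal (𝓞 K), P.IsPrime ∧ P.LiesOver p.asIdeal ∧
      ∃ i : K ≃ₐ[F] K, (∀ x : 𝓞 K, i • x - x ∈ P) ∧ Out h i) :
    ∃ G : ℂ → ℂ, (∀ z, MeromorphicAt G z) ∧ AnalyticAt ℂ G 0 ∧ G 0 = 0 ∧
      (∀ s : ℂ, 1 < s.re → ∀ l, HasSum (logTerm k K (cf χ) s) l → Complex.exp l = G s) ∧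
      ∃ (η : (𝓞 K)ˣ) (c : ℤ), deriv G 0 = (((2 : ℝ) ^ (finrank ℚ k - 1) * 2 ^ T.card * c / 4 *
          Real.log ‖ι ((η : 𝓞 K) : K)‖ : ℝ) : ℂ) ∧
        (∀ g : K ≃ₐ[k] K, Real.log ‖ι (g ((η : 𝓞 K) : K))‖ =
          ((χ g : ℂˣ) : ℂ).re * Real.log ‖ι ((η : 𝓞 K) : K)‖) ∧
        (∀ φ : K →+* ℂ, (∀ x : k, conj (φ (algebraMap k K x)) = φ (algebraMap k K x)) →
          ‖φ ((η : 𝓞 K) : K)‖ = 1) := by
  classical
  have h2 := finrank_L h
  have hq : Algebra.IsQuadraticExtension (fM h) (fL h) := ⟨h2⟩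
  have hgal : IsGalois (fM h) (fL h) := inferInstance
  have hgk : IsGalois k K := IsGalois.tower_top_of_isGalois F k K
  obtain ⟨σ, hσ, hσ'⟩ := exists_sigma h (hM h) (hL h)
  have hw := isReal_w h (hL h) hι
  -- the primes of `L`
  choose! P hP1 hP2 hP3 using hT
  let f : {p // p ∈ T} → HeightOneSpectrum (𝓞 (fL h)) := fun p =>
    { asIdeal := (P p.1).under (𝓞 (fL h))
      isPrime := by
        have := hP1 p.1 p.2
        infer_instance
      ne_bot := by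
        have := hP1 p.1 p.2
        have := hP2 p.1 p.2
        exact mt Ideal.eq_bot_of_comap_eq_bot
          (Ideal.ne_bot_of_liesOver_of_ne_bot p.1.ne_bot (P p.1)) }
  have hf : Function.Injective f := by
    intro p p' hpp
    have h3 := congrArg (fun q : HeightOneSpectrum (𝓞 (fL h)) => q.asIdeal.under (𝓞 F)) hpp
    change ((P p.1).under (𝓞 (fL h))).under (𝓞 F) = ((P p'.1).under (𝓞 (fL h))).under (𝓞 F) at h3
    rw [Ideal.under_under, Ideal.under_under, ← (hP2 p.1 p.2).over, ← (hP2 p'.1 p'.2).over] at h3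
    exact Subtype.ext (HeightOneSpectrum.ext h3)
  have hTc : (Finset.univ.image f).card = T.card := by
    rw [Finset.card_image_of_injective _ hf, Finset.card_univ, Fintype.card_coe]
  obtain ⟨G, hG1, hG2, hG3, hG4, hG5⟩ := quad h2 hσ hw (Finset.univ.image f) (by
    intro Q hQ x
    obtain ⟨p, -, rfl⟩ := Finset.mem_image.mp hQ
    have := hP1 p.1 p.2
    exact ram_L h hσ' (hP3 p.1 p.2) x)
  refine ⟨G, hG1, hG2, hG3, ?_, ?_⟩
  · intro z hz l hl
    have e1 := hasSum_ind (K := F) hl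
    obtain ⟨lM, hlM⟩ := logTerm_summable (K := fM h) (L := K) (fun _ => 1) hz
    obtain ⟨lL, hlL⟩ := logTerm_summable (K := fL h) (L := K) (fun _ => 1) hz
    have e2 := hasSum_ind (K := F) hlM
    have e3 := hasSum_ind (K := F) hlL
    have e4 := hasSum_add e1 e2
    rw [ind_eq h (hM h) (hL h)] at e4
    have e5 := e4.unique e3
    have e6 := exp_one hz hlM
    have e7 := exp_one hz hlL
    have e8 := hG4 z hz
    rw [← e6, ← e7, ← e5, Complex.exp_add] at e8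
    exact (mul_right_cancel₀ (Complex.exp_ne_zero _) e8).symm
  · rw [hTc, finrank_QM h] at hG5
    rcases hG5 with h0 | ⟨η, hη, ho, c, hc⟩
    · refine ⟨1, 0, ?_, ?_, ?_⟩
      · rw [h0]
        simp
      · intro g
        simp
      · intro φ _
        simp
    · obtain ⟨e1, e2⟩ := act_log h (hM h) (hL h) h2 hι hσ (sigma_g h hσ') hη ho
      refine ⟨emu (fL h) K η, c, ?_, e1, e2⟩
      rw [hc]
      rfl

end Pool.Agent.L0h48.DS
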