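import Pool.Agent.L0h48.DS.Eul

/-!
# The contribution of a pair of conjugate characters
-/

set_option autoImplicit false
set_option linter.unusedSectionVars false

namespace Pool.Agent.L0h48.DS

open Module NumberField NumberField.InfinitePlace IsDedekindDomain Ideal
open scoped ComplexConjugate Pointwise
open Pool.Agent.K4H74.SC
open Pool.Agent.K4H74.ST (indChar)

variable {F k K : Type} [Field F] [NumberField F] [Field k] [NumberField k] [Field K]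
  [NumberField K] [Algebra F k] [Algebra k K] [Algebra F K] [IsScalarTower F k K] [IsGalois F K]
  {s : K ≃ₐ[F] K} {χ : (K ≃ₐ[k] K) →* ℂˣ}

/-- all the Euler factors -/
theorem euler_dvd [IsGalois k K] (h : Dat F s χ) (T : Finset (HeightOneSpectrum (𝓞 F)))
    (hu : ∀ p ∈ T, ∀ P : Ideal (𝓞 K), P.IsPrime → P.LiesOver p.asIdeal →
      ∀ i ∈ P.inertia (K ≃ₐ[k] K), χ i = 1)
    (S : Finset (HeightOneSpectrum (𝓞 k)))
    (hS : ∀ p ∈ T, ∀ q : HeightOneSpectrum (𝓞 k), q.asIdeal.under (𝓞 F) = p.asIdeal → q ∈ S) :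
    ∃ z ∈ ZI, ∏ q ∈ S, (1 - ak χ q) = 2 ^ T.card * z := by
  classical
  induction T using Finset.induction_on generalizing S with
  | empty =>
    refine ⟨∏ q ∈ S, (1 - ak χ q), ZI.prod_mem fun q _ => ZI.sub_mem ZI.one_mem (h.ak_mem q), ?_⟩
    rw [Finset.card_empty, pow_zero, one_mul]
  | insert p T hp ih =>
    obtain ⟨z₁, hz1, e1⟩ := ih (fun p' hp' => hu p' (Finset.mem_insert_of_mem hp'))
      (S.filter fun q => q.asIdeal.under (𝓞 F) ≠ p.asIdeal) (fun p' hp' q hq => by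
        rw [Finset.mem_filter]
        refine ⟨hS p' (Finset.mem_insert_of_mem hp') q hq, fun h1 => hp ?_⟩
        have h2 : p' = p := HeightOneSpectrum.ext (hq.symm.trans h1)
        rw [← h2]
        exact hp')
    obtain ⟨z₂, hz2, e2⟩ := pair_dvd h p (hu p (Finset.mem_insert_self p T))
      (S.filter fun q => q.asIdeal.under (𝓞 F) = p.asIdeal) (fun q => by
        rw [Finset.mem_filter]
        exact ⟨fun h1 => h1.2, fun h1 => ⟨hS p (Finset.mem_insert_self p T) q h1, h1⟩⟩)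
    refine ⟨z₂ * z₁, ZI.mul_mem hz2 hz1, ?_⟩
    rw [← Finset.prod_filter_mul_prod_filter_not S (fun q => q.asIdeal.under (𝓞 F) = p.asIdeal),
      e2, e1, Finset.card_insert_of_notMem hp, pow_succ]
    ring

lemma exn_conj (h : Dat F s χ) (γ : K ≃ₐ[F] K) :
    exn (cf χ⁻¹) (s⁻¹ * γ * s) = exn (cf χ) γ := by
  obtain ⟨g, rfl | rfl⟩ := h.cases γ
  · obtain ⟨g', e1, e2⟩ := h.conj g
    have e3 : s⁻¹ * rs F g * s = rs F g' := by rw [e1, h.sinv]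
    rw [e3, exn_rs, exn_rs, MonoidHom.inv_apply, e2, inv_inv]
  · rw [exn_srs h]
    refine exn_not _ fun h' hh => ?_
    have h1 : s⁻¹ * (s * rs F g) * s = rs F g * s := by group
    rw [h1] at hh
    apply h.out
    refine ⟨g⁻¹ * h', ?_⟩
    rw [map_mul, map_inv]
    change (rs F g)⁻¹ * h'.restrictScalars F = s
    rw [hh, inv_mul_cancel_left]

/-- the conjugate character has the same induced character -/
theorem ind_inv (h : Dat F s χ) : indChar F k K (cf χ⁻¹) = indChar F k K (cf χ) := by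
  classical
  have hft : Fintype (K ≃ₐ[F] K) := Fintype.ofFinite _
  funext γ
  rw [indChar_exn, indChar_exn]
  congr 1
  rw [← Equiv.sum_comp (Equiv.mulRight s)]
  refine Finset.sum_congr rfl fun x _ => ?_
  have h1 : (Equiv.mulRight s x)⁻¹ * γ * (Equiv.mulRight s x) = s⁻¹ * (x⁻¹ * γ * x) * s := by
    rw [Equiv.coe_mulRight]
    group
  rw [h1, exn_conj h]

/-- the Galois action on units -/
noncomputable def ua (g : K ≃ₐ[k] K) : (𝓞 K)ˣ →* (𝓞 K)ˣ := us g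

lemma unit_exists (h : Dat F s χ) {ι : K →+* ℂ} {η : (𝓞 K)ˣ}
    (hl : ∀ g : K ≃ₐ[k] K, Real.log ‖ι (g ((η : 𝓞 K) : K))‖ =
          ((χ g : ℂˣ) : ℂ).re * Real.log ‖ι ((η : 𝓞 K) : K)‖)
    (hc : ∀ φ : K →+* ℂ, (∀ x : k, conj (φ (algebraMap k K x)) = φ (algebraMap k K x)) →
          ‖φ ((η : 𝓞 K) : K)‖ = 1) (a b : ℤ) :
    ∃ x : (𝓞 K)ˣ, (∀ g : K ≃ₐ[k] K, Real.log ‖ι (g ((x : 𝓞 K) : K))‖ =
        (a * ((χ g : ℂˣ) : ℂ).re + b * ((χ g : ℂˣ) : ℂ).im) * Real.log ‖ι ((η : 𝓞 K) : K)‖) ∧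
      ∀ φ : K →+* ℂ, (∀ x : k, conj (φ (algebraMap k K x)) = φ (algebraMap k K x)) →
          ‖φ ((x : 𝓞 K) : K)‖ = 1 := by
  obtain ⟨γ, hγ⟩ := h.exI
  have hz : ∀ (u : (𝓞 K)ˣ) (n : ℤ), (((u ^ n : (𝓞 K)ˣ) : 𝓞 K) : K) = ((u : 𝓞 K) : K) ^ n := by
    intro u n
    have := map_zpow (Units.map (algebraMap (𝓞 K) K : 𝓞 K →* K)) u n
    have h2 := congrArg (fun z : Kˣ => (z : K)) this
    simp only [Units.val_zpow_eq_zpow_val] at h2
    exact h2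
  have hcoe : (((η ^ a * (us γ⁻¹ η) ^ b : (𝓞 K)ˣ) : 𝓞 K) : K) =
      ((η : 𝓞 K) : K) ^ a * (γ⁻¹ ((η : 𝓞 K) : K)) ^ b := by
    have h1 : (((η ^ a * (us γ⁻¹ η) ^ b : (𝓞 K)ˣ) : 𝓞 K) : K) =
        (((η ^ a : (𝓞 K)ˣ) : 𝓞 K) : K) * ((((us γ⁻¹ η) ^ b : (𝓞 K)ˣ) : 𝓞 K) : K) := rfl
    rw [h1, hz, hz]
    rfl
  refine ⟨η ^ a * (us γ⁻¹ η) ^ b, ?_, ?_⟩
  · intro g
    have hne : ι (g ((η : 𝓞 K) : K)) ≠ 0 := by
      rw [Ne, map_eq_zero, map_eq_zero]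
      exact u_ne η
    have hne' : ι (g (γ⁻¹ ((η : 𝓞 K) : K))) ≠ 0 := by
      rw [Ne, map_eq_zero, map_eq_zero, map_eq_zero]
      exact u_ne η
    rw [hcoe, map_mul, map_mul, map_zpow₀, map_zpow₀, map_zpow₀, map_zpow₀, norm_mul,
      Real.log_mul (norm_ne_zero_iff.mpr (zpow_ne_zero _ hne))
        (norm_ne_zero_iff.mpr (zpow_ne_zero _ hne')), norm_zpow, norm_zpow, Real.log_zpow,
      Real.log_zpow, hl g]
    have h3 : g (γ⁻¹ ((η : 𝓞 K) : K)) = (g * γ⁻¹) ((η : 𝓞 K) : K) := rfl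
    rw [h3, hl (g * γ⁻¹)]
    have h4 : ((χ (g * γ⁻¹) : ℂˣ) : ℂ).re = ((χ g : ℂˣ) : ℂ).im := by
      rw [map_mul, map_inv, Units.val_mul, Units.val_inv_eq_inv_val, hγ, Complex.inv_I]
      simp
    rw [h4]
    ring
  · intro φ hφ
    rw [hcoe, map_mul, map_zpow₀, map_zpow₀, norm_mul, norm_zpow, norm_zpow, hc φ hφ, one_zpow,
      one_mul]
    have h5 := hc (φ.comp (γ⁻¹ : K ≃ₐ[k] K)) (fun x => by
      have h6 : (φ.comp ((γ⁻¹ : K ≃ₐ[k] K) : K →+* K)) (algebraMap k K x) =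
          φ (algebraMap k K x) := by
        change φ (γ⁻¹ (algebraMap k K x)) = _
        rw [AlgEquiv.commutes]
      rw [h6]
      exact hφ x)
    have h7 : ‖φ (γ⁻¹ ((η : 𝓞 K) : K))‖ = 1 := h5
    rw [h7, one_zpow]

/-- **the contribution of a pair** -/
theorem chi_final (h : Dat F s χ) {ι : K →+* ℂ} (hι : ∀ x, conj (ι x) = ι (s x))
    (T : Finset (HeightOneSpectrum (𝓞 F))) (S : Finset (HeightOneSpectrum (𝓞 k)))
    (hS : ∀ p ∈ T, (∀ q : HeightOneSpectrum (𝓞 k), q.asIdeal.under (𝓞 F) = p.asIdeal → q ∈ S) ∨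
      ∃ P : Ideal (𝓞 K), P.IsPrime ∧ P.LiesOver p.asIdeal ∧ ∀ x : 𝓞 K, s • x - x ∈ P)
    (hd : 3 ≤ finrank ℚ k)
    (hN : Nat.card (K ≃ₐ[k] K) ∣ 2 ^ (finrank ℚ k - 3 + T.card)) :
    ∃ G : ℂ → ℂ, (∀ z, MeromorphicAt G z) ∧ AnalyticAt ℂ G 0 ∧ G 0 = 0 ∧
      (∀ s : ℂ, 1 < s.re → ∀ l, HasSum (logTerm k K (cf χ) s) l → Complex.exp l = G s) ∧
      (∀ s : ℂ, 1 < s.re → ∀ l, HasSum (logTerm k K (cf χ⁻¹) s) l → Complex.exp l = G s) ∧
      ∃ x : (𝓞 K)ˣ, (∀ g : K ≃ₐ[k] K,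
          conj ((χ g : ℂˣ) : ℂ) * (deriv G 0 * ∏ q ∈ S, (1 - ak χ q)) +
          conj ((χ⁻¹ g : ℂˣ) : ℂ) * (deriv G 0 * ∏ q ∈ S, (1 - ak χ⁻¹ q)) =
            ((-(Nat.card (K ≃ₐ[k] K) * Real.log (‖ι (g ((x : 𝓞 K) : K))‖ ^ 2)) : ℝ) : ℂ)) ∧
        ∀ φ : K →+* ℂ, (∀ x : k, conj (φ (algebraMap k K x)) = φ (algebraMap k K x)) →
          ‖φ ((x : 𝓞 K) : K)‖ = 1 := by
  classical
  have hgk : IsGalois k K := IsGalois.tower_top_of_isGalois F k K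
  let Ram : HeightOneSpectrum (𝓞 F) → Prop := fun p =>
    ∃ P : Ideal (𝓞 K), P.IsPrime ∧ P.LiesOver p.asIdeal ∧
      ∃ i : K ≃ₐ[F] K, (∀ x : 𝓞 K, i • x - x ∈ P) ∧ Out h i
  obtain ⟨G, hG1, hG2, hG3, hG4, η, c, hG5, hG6, hG7⟩ := chi_unit h hι (T.filter Ram)
    (fun p hp => (Finset.mem_filter.mp hp).2)
  obtain ⟨z, ⟨A, B, hz⟩, hE⟩ := euler_dvd h (T.filter fun p => ¬ Ram p) (fun p hp P hP1 hP2 i hi => by
    by_contra h1
    exact (Finset.mem_filter.mp hp).2 ⟨P, hP1, hP2, out_of_ram h ⟨i, hi, h1⟩⟩) S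
    (fun p hp => by
      rcases hS p (Finset.mem_filter.mp hp).1 with h1 | ⟨P, hP1, hP2, h1⟩
      · exact h1
      · exact absurd (out_of_s h hP1 hP2 h1) (Finset.mem_filter.mp hp).2)
  obtain ⟨N, hN⟩ := hN
  obtain ⟨x, hx1, hx2⟩ := unit_exists h hG6 hG7 (-(N * c * A)) (-(N * c * B))
  have hEi : ∏ q ∈ S, (1 - ak χ⁻¹ q) = conj (∏ q ∈ S, (1 - ak χ q)) := by
    rw [map_prod]
    refine Finset.prod_congr rfl fun q _ => ?_
    rw [map_sub, map_one, ak_inv]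
  refine ⟨G, hG1, hG2, hG3, hG4, ?_, x, ?_, hx2⟩
  · intro s' hs' l hl
    obtain ⟨l', hl'⟩ := logTerm_summable (K := k) (L := K) (cf χ) hs'
    have e1 := hasSum_ind (K := F) hl
    have e2 := hasSum_ind (K := F) hl'
    rw [ind_inv h] at e1
    rw [e1.unique e2]
    exact hG4 s' hs' l' hl'
  · intro g
    rw [hEi, inv_chi, Complex.conj_conj, hG5, hE, hz, Real.log_pow, hx1]
    have hcard := Finset.card_filter_add_card_filter_not (s := T) Ram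
    have hpow : (2 : ℝ) ^ (finrank ℚ k - 1) * 2 ^ (T.filter Ram).card *
        2 ^ (T.filter fun p => ¬ Ram p).card / 4 = (Nat.card (K ≃ₐ[k] K) : ℝ) * N := by
      have h1 : (2 : ℝ) ^ (finrank ℚ k - 3 + T.card) = (Nat.card (K ≃ₐ[k] K) : ℝ) * N := by
        exact_mod_cast hN
      rw [← h1, ← hcard, pow_add, pow_add]
      have h2 : finrank ℚ k - 1 = (finrank ℚ k - 3) + 2 := by omega
      rw [h2, pow_add]
      ring
    set w := ((χ g : ℂˣ) : ℂ) with hw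
    have hwd : w = (w.re : ℂ) + w.im * Complex.I := (Complex.re_add_im w).symm
    set u := w.re
    set v := w.im
    rw [hwd]
    set lg := Real.log ‖ι ((η : 𝓞 K) : K)‖
    have hpow' : ((2 : ℂ) ^ (finrank ℚ k - 1) * 2 ^ (T.filter Ram).card *
        2 ^ (T.filter fun p => ¬ Ram p).card / 4) = (Nat.card (K ≃ₐ[k] K) : ℂ) * N := by
      have h3 := congrArg (fun z : ℝ => (z : ℂ)) hpow
      push_cast at h3
      exact h3
    simp only [map_add, map_mul, Complex.conj_ofReal, Complex.conj_I, map_pow, map_intCast]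
    push_cast
    have h2 : conj (2 : ℂ) = 2 := Complex.conj_ofNat 2
    rw [h2]
    linear_combination (2 * (c : ℂ) * lg * (u * A + v * B)) * hpow' +
      (-2 * (v : ℂ) * B * ((2 : ℂ) ^ (finrank ℚ k - 1) * 2 ^ (T.filter Ram).card *
        2 ^ (T.filter fun p => ¬ Ram p).card / 4) * c * lg) * Complex.I_sq

end Pool.Agent.L0h48.DS
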