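import Pool.Agent.L0h48.DS.Pl

/-!
# Ramified primes of a quadratic extension
-/

set_option autoImplicit false
set_option linter.unusedSectionVars false

namespace Pool.Agent.L0h48.DS

open NumberField Module IsDedekindDomain FractionalIdeal
open scoped nonZeroDivisors

variable {M L : Type} [Field M] [NumberField M] [Field L] [NumberField L] [Algebra M L]
  [IsGalois M L] {σ : L ≃ₐ[M] L}

/-- the square of a ramified prime comes from the base field -/
lemma ram_sq (h2 : finrank M L = 2) (hσ : σ ≠ 1) (P : HeightOneSpectrum (𝓞 L))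
    (hP : ∀ x : 𝓞 L, σ • x - x ∈ P.asIdeal) :
    (P.asIdeal.under (𝓞 M)).map (algebraMap (𝓞 M) (𝓞 L)) = P.asIdeal ^ 2 := by
  classical
  have := P.isPrime
  set p := P.asIdeal.under (𝓞 M) with hp
  have hpb : p ≠ ⊥ := mt Ideal.eq_bot_of_comap_eq_bot P.ne_bot
  have hpp : p.IsPrime := inferInstance
  have hpm : p.IsMaximal := hpp.isMaximal hpb
  have hI : Nat.card (P.asIdeal.inertia (L ≃ₐ[M] L)) = 2 := by
    have h1 : P.asIdeal.inertia (L ≃ₐ[M] L) = ⊤ := by
      rw [eq_top_iff]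
      intro g _
      rw [AddSubgroup.mem_inertia]
      intro x
      rcases eq_one_or h2 hσ g with rfl | rfl
      · rw [one_smul, sub_self]
        exact P.asIdeal.zero_mem
      · exact hP x
    rw [h1, Subgroup.card_top, IsGalois.card_aut_eq_finrank, h2]
  have hlo : P.asIdeal.LiesOver p := ⟨rfl⟩
  have hin := Ideal.card_inertia_eq_ramificationIdxIn (G := L ≃ₐ[M] L) p P.asIdeal
  have h3 := Ideal.ncard_primesOver_mul_ramificationIdxIn_mul_inertiaDegIn p (𝓞 L) (L ≃ₐ[M] L)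
  rw [← hin, hI, IsGalois.card_aut_eq_finrank, h2] at h3
  have h4 : (p.primesOver (𝓞 L)).ncard = 1 := by
    have : (p.primesOver (𝓞 L)).ncard * (p.inertiaDegIn (𝓞 L)) = 1 := by nlinarith
    exact Nat.eq_one_of_mul_eq_one_right this
  obtain ⟨Q, hQ⟩ := Set.ncard_eq_one.mp h4
  have hPm : P.asIdeal ∈ p.primesOver (𝓞 L) := ⟨P.isPrime, hlo⟩
  have hQP : Q = P.asIdeal := by
    rw [hQ] at hPm
    exact (Set.mem_singleton_iff.mp hPm).symm
  rw [hQP] at hQ
  rw [Ideal.map_algebraMap_eq_finsetProd_pow (R := 𝓞 L) (by simpa using hpb)]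
  have h5 : P.asIdeal.ramificationIdx (𝓞 M) = 2 := by
    rw [← Ideal.ramificationIdxIn_eq_ramificationIdx p P.asIdeal (L ≃ₐ[M] L), ← hin, hI]
  have h6 : (p.primesOver (𝓞 L)).toFinset = {P.asIdeal} := by
    ext x
    rw [Set.mem_toFinset, hQ, Set.mem_singleton_iff, Finset.mem_singleton]
  rw [h6, Finset.prod_singleton, h5]

/-- parity, integral ideals -/
lemma count_even_int (h2 : finrank M L = 2) (hσ : σ ≠ 1) (P : HeightOneSpectrum (𝓞 L))
    (hP : ∀ x : 𝓞 L, σ • x - x ∈ P.asIdeal) (J : Ideal (𝓞 M)) (hJ : J ≠ 0) :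
    Even (count L P ((J.map (algebraMap (𝓞 M) (𝓞 L)) : Ideal (𝓞 L)) :
      FractionalIdeal (𝓞 L)⁰ L)) := by
  classical
  have hnz : ∀ J : Ideal (𝓞 M), J ≠ 0 → J.map (algebraMap (𝓞 M) (𝓞 L)) ≠ 0 := by
    intro J hJ h
    apply hJ
    have := (Ideal.map_eq_bot_iff_of_injective
      (FaithfulSMul.algebraMap_injective (𝓞 M) (𝓞 L))).mp h
    exact this
  revert hJ
  refine UniqueFactorizationMonoid.induction_on_prime J ?_ ?_ ?_
  · intro h
    exact absurd rfl h
  · intro x hx _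
    rw [Ideal.isUnit_iff.mp hx, Ideal.map_top, coeIdeal_top, count_one]
    exact Even.zero
  · intro a q ha hq ih _
    have hq0 : q ≠ 0 := hq.ne_zero
    rw [Ideal.map_mul, coeIdeal_mul, count_mul]
    rotate_left
    · exact coeIdeal_ne_zero.mpr (hnz q hq0)
    · exact coeIdeal_ne_zero.mpr (hnz a ha)
    refine Even.add ?_ (ih ha)
    have hqp : q.IsPrime := Ideal.isPrime_of_prime hq
    by_cases hqP : q = P.asIdeal.under (𝓞 M)
    · rw [hqP, ram_sq h2 hσ P hP, coeIdeal_pow, count_pow_self]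
      exact ⟨1, rfl⟩
    · rw [count_coe L P (hnz q hq0)]
      have h3 : ¬ P.asIdeal ∣ q.map (algebraMap (𝓞 M) (𝓞 L)) := by
        intro h4
        rw [Ideal.dvd_iff_le, Ideal.map_le_iff_le_comap] at h4
        exact hqP ((hqp.isMaximal hq0).eq_of_le (by
          have := P.isPrime
          exact (inferInstance : (P.asIdeal.under (𝓞 M)).IsPrime).ne_top) h4)
      have h5 : (Associates.mk P.asIdeal).count
          (Associates.mk (q.map (algebraMap (𝓞 M) (𝓞 L)))).factors = 0 := by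
        by_contra h6
        exact h3 ((Associates.count_ne_zero_iff_dvd (hnz q hq0)
          (P.irreducible)).mp h6)
      rw [h5]
      exact Even.zero

/-- parity -/
lemma count_even (h2 : finrank M L = 2) (hσ : σ ≠ 1) (P : HeightOneSpectrum (𝓞 L))
    (hP : ∀ x : 𝓞 L, σ • x - x ∈ P.asIdeal) (I : FractionalIdeal (𝓞 M)⁰ M) (hI : I ≠ 0) :
    Even (count L P (extendedHom L (𝓞 L) I)) := by
  obtain ⟨a, J, ha, hIJ⟩ := exists_eq_spanSingleton_mul I
  have hJ : J ≠ 0 := by
    rintro rfl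
    apply hI
    rw [hIJ]
    simp
  have ha' : ((a : 𝓞 M) : M) ≠ 0 := fun h => ha (RingOfIntegers.ext h)
  have h1 : ((Ideal.span {a} : Ideal (𝓞 M)) : FractionalIdeal (𝓞 M)⁰ M) * I =
      (J : FractionalIdeal (𝓞 M)⁰ M) := by
    rw [coeIdeal_span_singleton, hIJ, ← mul_assoc, spanSingleton_mul_spanSingleton]
    have : (algebraMap (𝓞 M) M a) * (algebraMap (𝓞 M) M a)⁻¹ = 1 := mul_inv_cancel₀ ha'
    rw [this, spanSingleton_one, one_mul]
  have h2' := congrArg (extendedHom L (𝓞 L)) h1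
  rw [map_mul, extendedHom_coeIdeal_eq_map, extendedHom_coeIdeal_eq_map] at h2'
  have hs : Ideal.span {a} ≠ (0 : Ideal (𝓞 M)) := by
    rw [Ne, Ideal.zero_eq_bot, Ideal.span_singleton_eq_bot]
    exact ha
  have e1 := count_even_int h2 hσ P hP _ hs
  have e2 := count_even_int h2 hσ P hP J hJ
  rw [← h2', count_mul] at e2
  · rw [Int.even_add] at e2
    exact e2.mp e1
  · intro h
    rw [coeIdeal_eq_zero] at h
    exact hs ((Ideal.map_eq_bot_iff_of_injective
      (FaithfulSMul.algebraMap_injective (𝓞 M) (𝓞 L))).mp h)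
  · rw [Ne, extendedHom_eq_zero_iff]
    exact hI

end Pool.Agent.L0h48.DS
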