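import Pool.Agent.L0h48.DS.Un
import Pool.Agent.L0h48.DS.Ram

/-!
# The class numbers: ambiguous ideals
-/

set_option autoImplicit false
set_option linter.unusedSectionVars false

namespace Pool.Agent.L0h48.DS

open NumberField Module IsDedekindDomain FractionalIdeal
open scoped nonZeroDivisors

lemma index_principal (K : Type) [Field K] [NumberField K] :
    (toPrincipalIdeal (𝓞 K) K).range.index = classNumber K := by
  rw [Subgroup.index, classNumber, ← Nat.card_eq_fintype_card]
  exact Nat.card_congr (ClassGroup.equiv K).symm.toEquiv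

variable {M L : Type} [Field M] [NumberField M] [Field L] [NumberField L] [Algebra M L]

variable (M L) in
/-- extension of the ideals -/
noncomputable def jh : (FractionalIdeal (𝓞 M)⁰ M)ˣ →* (FractionalIdeal (𝓞 L)⁰ L)ˣ :=
  Units.map ((extendedHom L (𝓞 L) : FractionalIdeal (𝓞 M)⁰ M →+* FractionalIdeal (𝓞 L)⁰ L) :
    FractionalIdeal (𝓞 M)⁰ M →* FractionalIdeal (𝓞 L)⁰ L)

lemma jh_coe (I : (FractionalIdeal (𝓞 M)⁰ M)ˣ) :
    (jh M L I : FractionalIdeal (𝓞 L)⁰ L) = extendedHom L (𝓞 L) (I : FractionalIdeal (𝓞 M)⁰ M) := rfl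

lemma jh_inj : Function.Injective (jh M L) := by
  intro I J h
  apply Units.ext
  have h1 := congrArg Units.val h
  rw [jh_coe, jh_coe] at h1
  exact extendedHom_injective (𝓞 M) M L (𝓞 L) h1

variable (M L) in
/-- the principal ideals which come from the base field -/
noncomputable def PM : Subgroup (FractionalIdeal (𝓞 L)⁰ L)ˣ :=
  ((toPrincipalIdeal (𝓞 M) M).range).map (jh M L)

variable (M L) in
/-- the ambiguous ideals -/
noncomputable def Amb : Subgroup (FractionalIdeal (𝓞 L)⁰ L)ˣ :=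
  ((jh M L).range).comap (powMonoidHom 2)

lemma PM_le : PM M L ≤ (jh M L).range := by
  rintro _ ⟨x, -, rfl⟩
  exact ⟨x, rfl⟩

lemma range_le_Amb : (jh M L).range ≤ Amb M L := by
  intro x hx
  exact Subgroup.pow_mem _ hx 2

lemma relIndex_PM : (PM M L).relIndex (jh M L).range = classNumber M := by
  rw [← index_principal M, PM, MonoidHom.range_eq_map (jh M L),
    Subgroup.relIndex_map_map_of_injective _ _ jh_inj, Subgroup.relIndex_top_right]

lemma jh_principal (x : Mˣ) : jh M L (toPrincipalIdeal (𝓞 M) M x) =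
    toPrincipalIdeal (𝓞 L) L (Units.map (algebraMap M L : M →* L) x) := by
  apply Units.ext
  rw [jh_coe, coe_toPrincipalIdeal, coe_toPrincipalIdeal, extendedHom_spanSingleton]
  congr 1
  have h : IsFractionRing.map (A := 𝓞 M) (K := M) (B := 𝓞 L) (L := L)
      (FaithfulSMul.algebraMap_injective (𝓞 M) (𝓞 L)) = algebraMap M L := by
    refine IsLocalization.ringHom_ext (𝓞 M)⁰ ?_
    ext y
    simp only [RingHom.comp_apply]
    rw [IsFractionRing.map, IsLocalization.map_eq]
    rfl
  rw [h]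
  rfl

/-- the ramified primes give a factor two each -/
lemma two_pow_dvd [IsGalois M L] {σ : L ≃ₐ[M] L} (h2 : finrank M L = 2) (hσ : σ ≠ 1)
    (T : Finset (HeightOneSpectrum (𝓞 L)))
    (hT : ∀ P ∈ T, ∀ x : 𝓞 L, σ • x - x ∈ P.asIdeal) :
    2 ^ T.card ∣ ((jh M L).range).relIndex (Amb M L) := by
  classical
  have hne : ∀ I : (FractionalIdeal (𝓞 L)⁰ L)ˣ, (I : FractionalIdeal (𝓞 L)⁰ L) ≠ 0 :=
    fun I => I.ne_zero
  let par : (FractionalIdeal (𝓞 L)⁰ L)ˣ →* (T → Multiplicative (ZMod 2)) :=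
    { toFun := fun I P => Multiplicative.ofAdd ((count L (P : HeightOneSpectrum (𝓞 L)) (I : FractionalIdeal (𝓞 L)⁰ L) : ℤ) : ZMod 2)
      map_one' := by
        funext P
        rw [Units.val_one, count_one, Int.cast_zero, ofAdd_zero]
        rfl
      map_mul' := by
        intro I J
        funext P
        rw [Units.val_mul, count_mul L _ (hne I) (hne J), Int.cast_add, ofAdd_add]
        rfl }
  have hker : (jh M L).range ≤ par.ker := by
    rintro _ ⟨I, rfl⟩
    rw [MonoidHom.mem_ker]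
    funext P
    change Multiplicative.ofAdd _ = _
    rw [jh_coe]
    have h3 := count_even h2 hσ P (hT P P.2) (I : FractionalIdeal (𝓞 M)⁰ M) I.ne_zero
    have h4 : ((count L (P : HeightOneSpectrum (𝓞 L))
        (extendedHom L (𝓞 L) (I : FractionalIdeal (𝓞 M)⁰ M)) : ℤ) : ZMod 2) = 0 := by
      rw [ZMod.intCast_zmod_eq_zero_iff_dvd]
      exact_mod_cast h3.two_dvd
    rw [h4]
    rfl
  refine dvd_trans ?_ (Subgroup.relIndex_dvd_of_le_left (Amb M L) hker)
  rw [Subgroup.relIndex_ker]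
  have htop : (Amb M L).map par = ⊤ := by
    rw [eq_top_iff]
    -- the primes
    let pr : T → (FractionalIdeal (𝓞 L)⁰ L)ˣ := fun P =>
      Units.mk0 ((P : HeightOneSpectrum (𝓞 L)).asIdeal : FractionalIdeal (𝓞 L)⁰ L)
        (coeIdeal_ne_zero.mpr (P : HeightOneSpectrum (𝓞 L)).ne_bot)
    have hpr : ∀ P : T, pr P ∈ Amb M L := by
      intro P
      rw [Amb, Subgroup.mem_comap, powMonoidHom_apply]
      have h5 := ram_sq h2 hσ P (hT P P.2)
      have hpb : ((P : HeightOneSpectrum (𝓞 L)).asIdeal.under (𝓞 M)) ≠ ⊥ :=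
        mt Ideal.eq_bot_of_comap_eq_bot (P : HeightOneSpectrum (𝓞 L)).ne_bot
      refine ⟨Units.mk0 (((P : HeightOneSpectrum (𝓞 L)).asIdeal.under (𝓞 M) : Ideal (𝓞 M)) :
        FractionalIdeal (𝓞 M)⁰ M) (coeIdeal_ne_zero.mpr hpb), ?_⟩
      apply Units.ext
      rw [jh_coe, Units.val_mk0, extendedHom_coeIdeal_eq_map, h5, coeIdeal_pow]
      rfl
    have hpp : ∀ P : T, par (pr P) = Pi.mulSingle P (Multiplicative.ofAdd 1) := by
      intro P
      funext Q
      change Multiplicative.ofAdd (((count L (Q : HeightOneSpectrum (𝓞 L))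
        ((P : HeightOneSpectrum (𝓞 L)).asIdeal : FractionalIdeal (𝓞 L)⁰ L)) : ℤ) : ZMod 2) = _
      by_cases h : Q = P
      · subst h
        rw [count_self, Pi.mulSingle_eq_same]
        simp
      · rw [count_maximal_coprime L _ (fun h5 => h (Subtype.ext h5.symm)),
          Pi.mulSingle_eq_of_ne h]
        simp
    intro f _
    have hf : f = ∏ P : T, Pi.mulSingle P (f P) := by
      rw [Finset.univ_prod_mulSingle]
    rw [hf]
    refine Subgroup.prod_mem _ fun P _ => ?_
    obtain ⟨k, hk⟩ : ∃ k : ℕ, f P = (Multiplicative.ofAdd (1 : ZMod 2)) ^ k := by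
      refine ⟨(Multiplicative.toAdd (f P)).val, ?_⟩
      rw [← ofAdd_nsmul, nsmul_eq_mul, mul_one, ZMod.natCast_val, ZMod.cast_id]
      rfl
    refine ⟨pr P ^ k, (Amb M L).pow_mem (hpr P) k, ?_⟩
    rw [map_pow, hpp, hk]
    exact (Pi.mulSingle_pow P _ k).symm
  rw [htop, Subgroup.card_top, Nat.card_pi]
  simp

end Pool.Agent.L0h48.DS
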