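import Pool.Agent.L0h48.DS.Fin

/-!
# Cyclic extensions of degree four
-/

set_option autoImplicit false
set_option linter.unusedSectionVars false

namespace Pool.Agent.L0h48.DS

open NumberField NumberField.InfinitePlace Module IsDedekindDomain Ideal
open scoped ComplexConjugate Pointwise

section grp

variable {G : Type} [Group G]

lemma cyc_order (h4 : Nat.card G = 4) {g : G} (hg : g * g ≠ 1) : orderOf g = 4 := by
  have h1 : orderOf g ∣ 4 := h4 ▸ orderOf_dvd_natCard g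
  have h2 : orderOf g ≤ 4 := Nat.le_of_dvd (by norm_num) h1
  have h3 : ¬ orderOf g ∣ 2 := by
    rw [orderOf_dvd_iff_pow_eq_one, sq]
    exact hg
  interval_cases h : orderOf g
  · omega
  · exact absurd (one_dvd 2) h3
  · exact absurd dvd_rfl h3
  · omega
  · rfl

lemma cyc_top (h4 : Nat.card G = 4) {g : G} (hg : g * g ≠ 1) (a : G) : ∃ n : ℤ, g ^ n = a := by
  have hf : Finite G := Nat.finite_of_card_ne_zero (by rw [h4]; norm_num)
  have h1 : Subgroup.zpowers g = ⊤ := by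
    refine Subgroup.eq_top_of_card_eq _ ?_
    rw [Nat.card_zpowers, cyc_order h4 hg, h4]
  have h2 : a ∈ Subgroup.zpowers g := by
    rw [h1]
    exact Subgroup.mem_top a
  exact Subgroup.mem_zpowers_iff.mp h2

lemma cyc_comm (h4 : Nat.card G = 4) {g : G} (hg : g * g ≠ 1) (a b : G) : a * b = b * a := by
  obtain ⟨n, rfl⟩ := cyc_top h4 hg a
  obtain ⟨m, rfl⟩ := cyc_top h4 hg b
  rw [← zpow_add, ← zpow_add, add_comm]

lemma cyc_pow (h4 : Nat.card G = 4) (a : G) : a ^ 4 = 1 := by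
  rw [← h4]
  exact pow_card_eq_one'

lemma cyc_even (h4 : Nat.card G = 4) {g : G} (hg : g * g ≠ 1) {a : G} (ha : a * a = 1) :
    ∃ b : G, a = b * b := by
  obtain ⟨n, rfl⟩ := cyc_top h4 hg a
  rw [← zpow_add, ← orderOf_dvd_iff_zpow_eq_one, cyc_order h4 hg] at ha
  obtain ⟨m, hm⟩ := ha
  refine ⟨g ^ m, ?_⟩
  rw [← zpow_add]
  congr 1
  push_cast at hm
  omega

/-- an element of order four other than the generator is its inverse -/
lemma cyc_inv (h4 : Nat.card G = 4) {g : G} (hg : g * g ≠ 1) {a : G} (ha : a * a ≠ 1)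
    (hne : a ≠ g) : a = g⁻¹ := by
  obtain ⟨n, rfl⟩ := cyc_top h4 hg a
  have ho := cyc_order h4 hg
  rw [← zpow_add, Ne, ← orderOf_dvd_iff_zpow_eq_one, ho] at ha
  have h1 : ¬ ((4 : ℕ) : ℤ) ∣ n - 1 := by
    intro h2
    rw [← ho, orderOf_dvd_iff_zpow_eq_one, zpow_sub_one, mul_inv_eq_one] at h2
    exact hne h2
  have h2 : ((4 : ℕ) : ℤ) ∣ n + 1 := by
    push_cast at ha h1 ⊢
    omega
  rw [← ho, orderOf_dvd_iff_zpow_eq_one, zpow_add_one] at h2
  exact eq_inv_of_mul_eq_one_left h2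

end grp

variable {F k K : Type} [Field F] [NumberField F] [Field k] [NumberField k] [Field K]
  [NumberField K] [Algebra F k] [Algebra k K] [Algebra F K] [IsScalarTower F k K] [IsGalois F K]
  {𝔣 : Ideal (𝓞 k)} {art : Ideal (𝓞 k) → (K ≃ₐ[k] K)}

/-- the action of an automorphism which does not fix `k` -/
lemma cyc_act (h2 : finrank F k = 2) (h4 : Nat.card (K ≃ₐ[k] K) = 4) {g : K ≃ₐ[k] K}
    (hg : g * g ≠ 1) {a b : K ≃ₐ[F] K} (hab : a * b ≠ b * a) {γ : K ≃ₐ[F] K}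
    (hγ : γ ∉ (rs F : (K ≃ₐ[k] K) →* (K ≃ₐ[F] K)).range) :
    γ * rs F g * γ⁻¹ = (rs F g)⁻¹ := by
  have hidx := index_rs (K := K) h2
  have hn := Subgroup.normal_of_index_eq_two hidx
  obtain ⟨g', hg'⟩ := hn.conj_mem (rs F g) ⟨g, rfl⟩ γ
  have h1 : g' * g' ≠ 1 := by
    intro h3
    apply hg
    apply rs_inj (F := F)
    have h5 : rs F (g' * g') = γ * rs F (g * g) * γ⁻¹ := by
      rw [map_mul, hg', map_mul]
      group
    rw [h3, map_one] at h5
    have h6 : rs F (g * g) = γ⁻¹ * (γ * rs F (g * g) * γ⁻¹) * γ := by group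
    rw [h6, ← h5, map_one]
    group
  have h3 : g' ≠ g := by
    rintro rfl
    apply hab
    -- everything commutes with everything
    have hcom : Commute γ (rs F g') := by
      have h5 : γ * rs F g' * γ⁻¹ * γ = rs F g' * γ := by rw [← hg']
      rw [inv_mul_cancel_right] at h5
      exact h5
    have hall : ∀ δ : K ≃ₐ[F] K, ∃ (i : ℤ) (j : ℕ), δ = γ ^ j * (rs F g') ^ i := by
      intro δ
      by_cases hδ : δ ∈ (rs F : (K ≃ₐ[k] K) →* (K ≃ₐ[F] K)).range
      · obtain ⟨d, rfl⟩ := hδ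
        obtain ⟨n, rfl⟩ := cyc_top h4 hg d
        exact ⟨n, 0, by rw [pow_zero, one_mul, map_zpow]⟩
      · have h5 : γ⁻¹ * δ ∈ (rs F : (K ≃ₐ[k] K) →* (K ≃ₐ[F] K)).range := by
          rw [Subgroup.mul_mem_iff_of_index_two hidx, inv_mem_iff]
          exact ⟨fun h6 => absurd h6 hγ, fun h6 => absurd h6 hδ⟩
        obtain ⟨d, hd⟩ := h5
        obtain ⟨n, rfl⟩ := cyc_top h4 hg d
        exact ⟨n, 1, by rw [pow_one, ← map_zpow, hd, mul_inv_cancel_left]⟩
    obtain ⟨i, j, rfl⟩ := hall a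
    obtain ⟨i', j', rfl⟩ := hall b
    have c1 : Commute (γ ^ j * (rs F g') ^ i) (γ ^ j' * (rs F g') ^ i') := by
      refine Commute.mul_left (Commute.mul_right ?_ ?_) (Commute.mul_right ?_ ?_)
      · exact (Commute.refl γ).pow_pow j j'
      · exact (hcom.pow_left j).zpow_right i'
      · exact ((hcom.symm).zpow_left i).pow_right j'
      · exact (Commute.refl (rs F g')).zpow_zpow i i'
    exact c1
  have h5 := cyc_inv h4 hg h1 h3
  rw [← hg', h5, map_inv]

lemma negs_one {w : InfinitePlace k} (hw : w.IsReal) {x : k}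
    (h1 : Pool.Agent.Y773.G.rl w x < 0)
    (h2 : ∀ w' : InfinitePlace k, (w'.IsReal → w' ≠ w) → 0 < Pool.Agent.Y773.G.rl w' x) :
    negs x = 1 := by
  rw [negs, Nat.card_eq_one_iff_unique]
  constructor
  · constructor
    rintro ⟨a, ha, ha'⟩ ⟨b, hb, hb'⟩
    have key : ∀ c : InfinitePlace k, ∀ hc : c.IsReal, InfinitePlace.embedding_of_isReal hc x < 0 →
        c = w := by
      intro c hc hc'
      by_contra hne
      have h3 := h2 c (fun _ => hne)
      rw [Pool.Agent.Y772.G.rl_real hc] at h3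
      exact lt_asymm h3 hc'
    exact Subtype.ext ((key a ha ha').trans (key b hb hb').symm)
  · exact ⟨⟨w, hw, by rwa [← Pool.Agent.Y772.G.rl_real hw]⟩⟩

/-- **the hypotheses hold for cyclic extensions of degree four which are not abelian over `F`** -/
theorem cyc_cond (h2 : finrank F k = 2) (hr : 1 ≤ nrRealPlaces k) (h : IsArt 𝔣 art)
    (h4 : Nat.card (K ≃ₐ[k] K) = 4) {g₀ : K ≃ₐ[k] K} (hg : g₀ * g₀ ≠ 1) {a b : K ≃ₐ[F] K}
    (hab : a * b ≠ b * a) (χ : (K ≃ₐ[k] K) →* ℂˣ) (hχ : TotOdd 𝔣 art χ) :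
    (∀ g, χ g ^ 4 = 1) ∧ (∃ g, χ g ^ 2 ≠ 1) ∧
      ∀ γ : K ≃ₐ[F] K, (∃ y : k, γ (algebraMap k K y) ≠ algebraMap k K y) →
        ∀ g g' : K ≃ₐ[k] K, (∀ x, g' (γ x) = γ (g x)) → χ g' = (χ g)⁻¹ := by
  classical
  refine ⟨fun g => by rw [← map_pow, cyc_pow h4, map_one], ?_, ?_⟩
  · by_contra hne
    push Not at hne
    obtain ⟨w, hw⟩ : ∃ w : InfinitePlace k, w.IsReal := by
      by_contra hno
      push Not at hno
      have h3 : nrRealPlaces k = 0 := by
        rw [nrRealPlaces, Fintype.card_eq_zero_iff]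
        exact ⟨fun w => hno w.1 w.2⟩
      omega
    obtain ⟨x, hx0, hx1, hx2, hx3⟩ := Pool.Agent.Y772.G.exists_neg h.ne_bot w
    have hn := negs_one hw (hx2 hw) hx3
    have h3 := hχ x hx0 hx1
    rw [hn, pow_one] at h3
    have hxx : x * x ≠ 0 := mul_ne_zero hx0 hx0
    have hxx1 : x * x - 1 ∈ 𝔣 := by
      have h5 := 𝔣.add_mem (𝔣.mul_mem_left x hx1) hx1
      have h6 : x * (x - 1) + (x - 1) = x * x - 1 := by ring
      rwa [h6] at h5
    have h5 := h.ray (x * x) hxx hxx1 (fun τ => by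
      have h6 : τ ((x * x : 𝓞 k) : k) = τ (x : k) * τ (x : k) := by
        rw [← map_mul]
        rfl
      rw [h6]
      have h7 : τ (x : k) ≠ 0 := by
        rw [Ne, map_eq_zero]
        exact RingOfIntegers.coe_ne_zero_iff.mpr hx0
      exact mul_self_pos.mpr h7)
    rw [← Ideal.span_singleton_mul_span_singleton, h.mul _ _ (span_ne hx0) (span_ne hx0)
      (cop_span hx1) (cop_span hx1)] at h5
    obtain ⟨c, hc⟩ := cyc_even h4 hg h5
    rw [hc, map_mul, ← sq, hne c] at h3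
    exact neg_one_ne h3.symm
  · intro γ hγ g g' hgg
    have hγ' : γ ∉ (rs F : (K ≃ₐ[k] K) →* (K ≃ₐ[F] K)).range := by
      rintro ⟨c, rfl⟩
      obtain ⟨y, hy⟩ := hγ
      exact hy (c.commutes y)
    have h3 := cyc_act h2 h4 hg hab hγ'
    have h5 : rs F g' = γ * rs F g * γ⁻¹ := by
      rw [eq_mul_inv_iff_mul_eq]
      ext x
      exact hgg x
    obtain ⟨n, rfl⟩ := cyc_top h4 hg g
    rw [map_zpow, ← conj_zpow, h3, inv_zpow, ← map_zpow, ← map_inv] at h5
    rw [rs_inj h5, map_inv]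

end Pool.Agent.L0h48.DS
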