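import Pool.Agent.L0h48.DS.ChiU

/-!
# Divisibility of the Euler factors
-/

set_option autoImplicit false
set_option linter.unusedSectionVars false

namespace Pool.Agent.L0h48.DS

open Module NumberField NumberField.InfinitePlace IsDedekindDomain Ideal
open scoped ComplexConjugate Pointwise
open Pool.Agent.K4H74.SC

section one

variable {k K : Type} [Field k] [NumberField k] [Field K] [NumberField K] [Algebra k K]

/-- the coefficient at a prime -/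
noncomputable def ak (χ : (K ≃ₐ[k] K) →* ℂˣ) (q : HeightOneSpectrum (𝓞 k)) : ℂ :=
  frobMean k K (cf χ) q.asIdeal 1

lemma norm_chi (χ : (K ≃ₐ[k] K) →* ℂˣ) (g : K ≃ₐ[k] K) : ‖((χ g : ℂˣ) : ℂ)‖ = 1 := by
  have h1 : ((χ g : ℂˣ) : ℂ) ^ Nat.card (K ≃ₐ[k] K) = 1 := by
    rw [← Units.val_pow_eq_pow_val, ← map_pow, pow_card_eq_one', map_one, Units.val_one]
  exact Complex.norm_eq_one_of_pow_eq_one h1 Nat.card_pos.ne'

lemma inv_chi (χ : (K ≃ₐ[k] K) →* ℂˣ) (g : K ≃ₐ[k] K) :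
    ((χ⁻¹ g : ℂˣ) : ℂ) = conj ((χ g : ℂˣ) : ℂ) := by
  rw [MonoidHom.inv_apply, Units.val_inv_eq_inv_val]
  exact Complex.inv_eq_conj (norm_chi χ g)

variable [IsGalois k K]

lemma exists_fr (q : HeightOneSpectrum (𝓞 k)) : ∃ P : Ideal (𝓞 K), P.IsPrime ∧
    P.LiesOver q.asIdeal ∧ ∃ σ : K ≃ₐ[k] K, ∀ n, Fr P (absNorm q.asIdeal ^ n) (σ ^ n) := by
  have := q.isPrime
  obtain ⟨P, hP1, hP2⟩ := (inferInstance : Nonempty (primesOver q.asIdeal (𝓞 K)))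
  exact ⟨P, hP1, hP2, exists_frob q.ne_bot P⟩

lemma ak_frob (χ : (K ≃ₐ[k] K) →* ℂˣ) (q : HeightOneSpectrum (𝓞 k)) (P : Ideal (𝓞 K)) [P.IsPrime]
    [P.LiesOver q.asIdeal] {σ : K ≃ₐ[k] K} (hσ : ∀ n, Fr P (absNorm q.asIdeal ^ n) (σ ^ n))
    (hu : ∀ i ∈ P.inertia (K ≃ₐ[k] K), χ i = 1) : ak χ q = ((χ σ : ℂˣ) : ℂ) := by
  have := q.isPrime
  have h1 := (frobMean_lin χ q.ne_bot P hσ 1).1 hu
  rw [pow_one] at h1
  exact h1

lemma ak_ram (χ : (K ≃ₐ[k] K) →* ℂˣ) (q : HeightOneSpectrum (𝓞 k)) (P : Ideal (𝓞 K)) [P.IsPrime]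
    [P.LiesOver q.asIdeal] (hr : ∃ i ∈ P.inertia (K ≃ₐ[k] K), χ i ≠ 1) : ak χ q = 0 := by
  have := q.isPrime
  obtain ⟨σ, hσ⟩ := exists_frob q.ne_bot P
  exact (frobMean_lin χ q.ne_bot P hσ 1).2 hr

lemma frobMean_ak (χ : (K ≃ₐ[k] K) →* ℂˣ) (q : HeightOneSpectrum (𝓞 k)) (n : ℕ) (hn : 0 < n) :
    frobMean k K (cf χ) q.asIdeal n = ak χ q ^ n := by
  have := q.isPrime
  obtain ⟨P, hP1, hP2, σ, hσ⟩ := exists_fr (K := K) q
  by_cases hu : ∀ i ∈ P.inertia (K ≃ₐ[k] K), χ i = 1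
  · rw [ak_frob χ q P hσ hu]
    exact (frobMean_lin χ q.ne_bot P hσ n).1 hu
  · push Not at hu
    rw [ak_ram χ q P hu, zero_pow hn.ne']
    exact (frobMean_lin χ q.ne_bot P hσ n).2 hu

lemma ak_cases (χ : (K ≃ₐ[k] K) →* ℂˣ) (q : HeightOneSpectrum (𝓞 k)) :
    ak χ q = 0 ∨ ∃ σ : K ≃ₐ[k] K, ak χ q = ((χ σ : ℂˣ) : ℂ) := by
  obtain ⟨P, hP1, hP2, σ, hσ⟩ := exists_fr (K := K) q
  by_cases hu : ∀ i ∈ P.inertia (K ≃ₐ[k] K), χ i = 1
  · exact Or.inr ⟨σ, ak_frob χ q P hσ hu⟩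
  · push Not at hu
    exact Or.inl (ak_ram χ q P hu)

lemma norm_ak (χ : (K ≃ₐ[k] K) →* ℂˣ) (q : HeightOneSpectrum (𝓞 k)) : ‖ak χ q‖ ≤ 1 := by
  rcases ak_cases χ q with h | ⟨σ, h⟩
  · rw [h, norm_zero]
    exact zero_le_one
  · rw [h, norm_chi]

lemma ak_inv (χ : (K ≃ₐ[k] K) →* ℂˣ) (q : HeightOneSpectrum (𝓞 k)) :
    ak χ⁻¹ q = conj (ak χ q) := by
  obtain ⟨P, hP1, hP2, σ, hσ⟩ := exists_fr (K := K) q
  by_cases hu : ∀ i ∈ P.inertia (K ≃ₐ[k] K), χ i = 1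
  · rw [ak_frob χ q P hσ hu, ak_frob χ⁻¹ q P hσ (fun i hi => by
      rw [MonoidHom.inv_apply, hu i hi, inv_one]), inv_chi]
  · push Not at hu
    rw [ak_ram χ q P hu, ak_ram χ⁻¹ q P (by
      obtain ⟨i, hi, h1⟩ := hu
      exact ⟨i, hi, by rwa [MonoidHom.inv_apply, Ne, inv_eq_one]⟩), map_zero]

end one

/-- the Gaussian integers -/
def ZI : Subring ℂ where
  carrier := {z | ∃ a b : ℤ, z = a + b * Complex.I}
  mul_mem' := by
    rintro _ _ ⟨a, b, rfl⟩ ⟨c, d, rfl⟩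
    refine ⟨a * c - b * d, a * d + b * c, ?_⟩
    push_cast
    linear_combination (b * d : ℂ) * Complex.I_sq
  one_mem' := ⟨1, 0, by simp⟩
  add_mem' := by
    rintro _ _ ⟨a, b, rfl⟩ ⟨c, d, rfl⟩
    exact ⟨a + c, b + d, by push_cast; ring⟩
  zero_mem' := ⟨0, 0, by simp⟩
  neg_mem' := by
    rintro _ ⟨a, b, rfl⟩
    exact ⟨-a, -b, by push_cast; ring⟩

lemma mem_ZI {z : ℂ} : z ∈ ZI ↔ ∃ a b : ℤ, z = a + b * Complex.I := Iff.rfl

lemma I_mem : Complex.I ∈ ZI := ⟨0, 1, by simp⟩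

lemma sq_neg_one {z : ℂ} (hz : z ^ 2 = -1) : z = Complex.I ∨ z = -Complex.I := by
  have h : (z - Complex.I) * (z + Complex.I) = 0 := by
    linear_combination hz - Complex.I_sq
  rcases mul_eq_zero.mp h with h | h
  · exact Or.inl (sub_eq_zero.mp h)
  · exact Or.inr (eq_neg_of_add_eq_zero_left h)

variable {F k K : Type} [Field F] [NumberField F] [Field k] [NumberField k] [Field K]
  [NumberField K] [Algebra F k] [Algebra k K] [Algebra F K] [IsScalarTower F k K] [IsGalois F K]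
  {s : K ≃ₐ[F] K} {χ : (K ≃ₐ[k] K) →* ℂˣ}

lemma Dat.values (h : Dat F s χ) (g : K ≃ₐ[k] K) :
    ((χ g : ℂˣ) : ℂ) = 1 ∨ ((χ g : ℂˣ) : ℂ) = -1 ∨ ((χ g : ℂˣ) : ℂ) = Complex.I ∨
      ((χ g : ℂˣ) : ℂ) = -Complex.I := by
  obtain ⟨c, hc⟩ := h.exc
  have hc' : ((χ c : ℂˣ) : ℂ) ^ 2 = -1 := by
    rw [← Units.val_pow_eq_pow_val, hc]
    simp
  rcases val_cases h hc g with h1 | h1 | h1 | h1
  · left
    rw [h1, Units.val_one]
  · right; left
    rw [h1]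
    simp
  · right; right
    rw [h1]
    exact sq_neg_one hc'
  · right; right
    rw [h1, Units.val_neg]
    rcases sq_neg_one hc' with h2 | h2
    · right
      rw [h2]
    · left
      rw [h2, neg_neg]

lemma Dat.value_mem (h : Dat F s χ) (g : K ≃ₐ[k] K) : ((χ g : ℂˣ) : ℂ) ∈ ZI := by
  rcases h.values g with h1 | h1 | h1 | h1 <;> rw [h1]
  · exact ZI.one_mem
  · exact ZI.neg_mem ZI.one_mem
  · exact I_mem
  · exact ZI.neg_mem I_mem

lemma Dat.ak_mem [IsGalois k K] (h : Dat F s χ) (q : HeightOneSpectrum (𝓞 k)) : ak χ q ∈ ZI := by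
  rcases ak_cases χ q with h1 | ⟨σ, h1⟩ <;> rw [h1]
  · exact ZI.zero_mem
  · exact h.value_mem σ

lemma Dat.exI (h : Dat F s χ) : ∃ g : K ≃ₐ[k] K, ((χ g : ℂˣ) : ℂ) = Complex.I := by
  obtain ⟨c, hc⟩ := h.exc
  have hc' : ((χ c : ℂˣ) : ℂ) ^ 2 = -1 := by
    rw [← Units.val_pow_eq_pow_val, hc]
    simp
  rcases sq_neg_one hc' with h2 | h2
  · exact ⟨c, h2⟩
  · refine ⟨c⁻¹, ?_⟩
    rw [map_inv, Units.val_inv_eq_inv_val, h2, inv_neg, Complex.inv_I, neg_neg]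

/-- the product of the Euler factors at the primes above an unramified prime -/
theorem pair_dvd [IsGalois k K] (h : Dat F s χ) (p : HeightOneSpectrum (𝓞 F))
    (hu : ∀ P : Ideal (𝓞 K), P.IsPrime → P.LiesOver p.asIdeal →
      ∀ i ∈ P.inertia (K ≃ₐ[k] K), χ i = 1)
    (S : Finset (HeightOneSpectrum (𝓞 k)))
    (hS : ∀ q, q ∈ S ↔ q.asIdeal.under (𝓞 F) = p.asIdeal) :
    ∃ z ∈ ZI, ∏ q ∈ S, (1 - ak χ q) = 2 * z := by
  classical
  have hpp := p.isPrime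
  obtain ⟨P₀, hP1, hP2⟩ := (inferInstance : Nonempty (primesOver p.asIdeal (𝓞 K)))
  have hP0 : P₀ ≠ ⊥ := Ideal.ne_bot_of_liesOver_of_ne_bot p.ne_bot P₀
  let q₀ : HeightOneSpectrum (𝓞 k) := ⟨P₀.under (𝓞 k), inferInstance,
    mt Ideal.eq_bot_of_comap_eq_bot hP0⟩
  have ho0 : P₀.LiesOver q₀.asIdeal := ⟨rfl⟩
  obtain ⟨σ₀, hσ₀⟩ := exists_frob (K := k) (L := K) q₀.ne_bot P₀
  -- the conjugate prime
  have hP1' : (s • P₀).IsPrime := inferInstance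
  have hun : (s • P₀).under (𝓞 F) = P₀.under (𝓞 F) := Ideal.under_smul (𝓞 F) P₀ s
  have hP2' : (s • P₀).LiesOver p.asIdeal := ⟨by rw [hun]; exact hP2.over⟩
  have hP0' : s • P₀ ≠ ⊥ := Ideal.ne_bot_of_liesOver_of_ne_bot p.ne_bot _
  let q₁ : HeightOneSpectrum (𝓞 k) := ⟨(s • P₀).under (𝓞 k), inferInstance,
    mt Ideal.eq_bot_of_comap_eq_bot hP0'⟩
  have ho1 : (s • P₀).LiesOver q₁.asIdeal := ⟨rfl⟩
  -- the norms
  have hq : Algebra.IsQuadraticExtension F k := ⟨h.deg⟩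
  have hN : absNorm q₁.asIdeal = absNorm q₀.asIdeal := by
    have h1 : ∀ x : 𝓞 k, algebraMap (𝓞 k) (𝓞 K) (s.restrictNormal k • x) =
        s • algebraMap (𝓞 k) (𝓞 K) x := by
      intro x
      apply RingOfIntegers.ext
      exact AlgEquiv.restrictNormal_commutes s k (x : k)
    have h2 : q₁.asIdeal = q₀.asIdeal.map
        ((MulSemiringAction.toRingEquiv (k ≃ₐ[F] k) (𝓞 k) (s.restrictNormal k) :
          𝓞 k ≃+* 𝓞 k) : 𝓞 k →+* 𝓞 k) := by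
      ext x
      refine Iff.trans ?_ (Ideal.mem_map_of_equiv (I := q₀.asIdeal)
        (MulSemiringAction.toRingEquiv (k ≃ₐ[F] k) (𝓞 k) (s.restrictNormal k)) x).symm
      change algebraMap (𝓞 k) (𝓞 K) x ∈ s • P₀ ↔ _
      constructor
      · intro hx
        refine ⟨(s.restrictNormal k)⁻¹ • x, ?_,
          smul_inv_smul (s.restrictNormal k : k ≃ₐ[F] k) x⟩
        change algebraMap (𝓞 k) (𝓞 K) ((s.restrictNormal k)⁻¹ • x) ∈ P₀
        rw [← Ideal.smul_mem_pointwise_smul_iff (a := s), ← h1, smul_inv_smul]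
        exact hx
      · rintro ⟨y, hy, rfl⟩
        change algebraMap (𝓞 k) (𝓞 K) (s.restrictNormal k • y) ∈ s • P₀
        rw [h1]
        exact Ideal.smul_mem_pointwise_smul s _ _ hy
    rw [Ideal.absNorm_apply, Ideal.absNorm_apply, Submodule.cardQuot_apply,
      Submodule.cardQuot_apply]
    exact (Nat.card_congr (Ideal.quotientEquiv _ _ _ h2).toEquiv).symm
  obtain ⟨σ₁, e1, e2⟩ := h.conj σ₀
  have hσ₁ : ∀ n, Fr (s • P₀) (absNorm q₁.asIdeal ^ n) (σ₁ ^ n) := by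
    intro n
    have h1 : Fr (K := F) (s • P₀) (absNorm q₀.asIdeal ^ n) (s * rs F (σ₀ ^ n) * s⁻¹) :=
      (fr_conj P₀ _ (rs F (σ₀ ^ n)) s).mpr (hσ₀ n)
    have h2 : s * rs F (σ₀ ^ n) * s⁻¹ = rs F (σ₁ ^ n) := by
      rw [map_pow, map_pow, e1, conj_pow]
    rw [h2, ← hN] at h1
    exact h1
  have a0 : ak χ q₀ = ((χ σ₀ : ℂˣ) : ℂ) := ak_frob χ q₀ P₀ hσ₀ (hu P₀ hP1 hP2)
  have a1 : ak χ q₁ = ((χ σ₀ : ℂˣ) : ℂ)⁻¹ := by
    rw [ak_frob χ q₁ (s • P₀) hσ₁ (hu _ hP1' hP2'), e2, Units.val_inv_eq_inv_val]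
  have hSeq : S = {q₀, q₁} := by
    ext q
    rw [hS, Finset.mem_insert, Finset.mem_singleton]
    constructor
    · intro hqp
      have := q.isPrime
      obtain ⟨Q, hQ1, hQ2⟩ := (inferInstance : Nonempty (primesOver q.asIdeal (𝓞 K)))
      have hQF : Q.under (𝓞 F) = p.asIdeal := by
        rw [← hqp, hQ2.over, Ideal.under_under]
      obtain ⟨τ, hτ⟩ := Algebra.IsInvariant.exists_smul_of_under_eq (𝓞 F) (𝓞 K) (K ≃ₐ[F] K) P₀ Q
        (by rw [hQF]; exact hP2.over.symm)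
      obtain ⟨g, hg | hg⟩ := h.cases τ⁻¹
      · left
        have h3 : τ = rs F g⁻¹ := by rw [map_inv, ← hg, inv_inv]
        apply HeightOneSpectrum.ext
        rw [hQ2.over, hτ, h3]
        exact Ideal.under_smul (𝓞 k) P₀ g⁻¹
      · right
        have h3 : τ = rs F g⁻¹ * s := by
          rw [map_inv, eq_inv_mul_iff_mul_eq, ← inv_inj, mul_inv_rev, hg, mul_assoc,
            mul_inv_cancel, mul_one, h.sinv]
        apply HeightOneSpectrum.ext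
        rw [hQ2.over, hτ, h3, mul_smul]
        exact Ideal.under_smul (𝓞 k) (s • P₀) g⁻¹
    · rintro (rfl | rfl)
      · change (P₀.under (𝓞 k)).under (𝓞 F) = _
        rw [Ideal.under_under]
        exact hP2.over.symm
      · change ((s • P₀).under (𝓞 k)).under (𝓞 F) = _
        rw [Ideal.under_under]
        exact hP2'.over.symm
  rw [hSeq]
  by_cases hqq : q₀ = q₁
  · rw [← hqq, Finset.pair_eq_singleton, Finset.prod_singleton]
    rw [← hqq] at a1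
    have h1 := a0.symm.trans a1
    rw [a0]
    rcases h.values σ₀ with h2 | h2 | h2 | h2
    · exact ⟨0, ZI.zero_mem, by rw [h2]; ring⟩
    · exact ⟨1, ZI.one_mem, by rw [h2]; ring⟩
    · rw [h2, Complex.inv_I] at h1
      have h3 := congrArg Complex.im h1
      norm_num at h3
    · rw [h2, inv_neg, Complex.inv_I] at h1
      have h3 := congrArg Complex.im h1
      norm_num at h3
  · rw [Finset.prod_pair hqq, a0, a1]
    rcases h.values σ₀ with h2 | h2 | h2 | h2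
    · exact ⟨0, ZI.zero_mem, by rw [h2]; simp⟩
    · exact ⟨2, ⟨2, 0, by simp⟩, by rw [h2]; norm_num⟩
    · refine ⟨1, ZI.one_mem, ?_⟩
      rw [h2, Complex.inv_I]
      linear_combination -Complex.I_sq
    · refine ⟨1, ZI.one_mem, ?_⟩
      rw [h2, inv_neg, Complex.inv_I]
      linear_combination -Complex.I_sq

end Pool.Agent.L0h48.DS
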