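import Pool.Agent.L0h48.DS.Cls

/-!
# The divisibility of the class numbers
-/

set_option autoImplicit false
set_option linter.unusedSectionVars false

namespace Pool.Agent.L0h48.DS

open NumberField Module IsDedekindDomain FractionalIdeal
open scoped nonZeroDivisors

variable {M L : Type} [Field M] [NumberField M] [Field L] [NumberField L] [Algebra M L]

variable (L) in
/-- the units in the field -/
noncomputable def ul : (𝓞 L)ˣ →* Lˣ := Units.map (algebraMap (𝓞 L) L : 𝓞 L →* L)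

lemma ul_coe (u : (𝓞 L)ˣ) : ((ul L u : Lˣ) : L) = ((u : 𝓞 L) : L) := rfl

lemma ul_inj : Function.Injective (ul L) := by
  intro u v h
  exact ext_u (congrArg Units.val h)

/-- the action on the nonzero elements -/
noncomputable def sl (σ : L ≃ₐ[M] L) : Lˣ →* Lˣ := Units.map ((σ : L →+* L) : L →* L)

lemma sl_coe (σ : L ≃ₐ[M] L) (x : Lˣ) : ((sl σ x : Lˣ) : L) = σ x := rfl

lemma sl_ul (σ : L ≃ₐ[M] L) (u : (𝓞 L)ˣ) : sl σ (ul L u) = ul L (us σ u) := rfl

/-- `x ↦ x / σ x` -/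
noncomputable def dl (σ : L ≃ₐ[M] L) : Lˣ →* Lˣ := MonoidHom.id _ * (sl σ)⁻¹

lemma dl_apply (σ : L ≃ₐ[M] L) (x : Lˣ) : dl σ x = x * (sl σ x)⁻¹ := rfl

lemma stable_span (σ : L ≃ₐ[M] L) (I : FractionalIdeal (𝓞 M)⁰ M) (y : L)
    (hy : y ∈ extendedHom L (𝓞 L) I) : σ y ∈ extendedHom L (𝓞 L) I := by
  rw [← FractionalIdeal.mem_coe, coe_extendedHom_eq_span] at hy ⊢
  induction hy using Submodule.span_induction with
  | mem x hx =>
    obtain ⟨z, hz, rfl⟩ := hx
    rw [AlgEquiv.commutes]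
    exact Submodule.subset_span ⟨z, hz, rfl⟩
  | zero =>
    rw [map_zero]
    exact Submodule.zero_mem _
  | add x y _ _ hx hy =>
    rw [map_add]
    exact Submodule.add_mem _ hx hy
  | smul a x _ hx =>
    have h1 : σ (a • x) = (σ • a) • σ x := by
      rw [Algebra.smul_def, Algebra.smul_def, map_mul]
      rfl
    rw [h1]
    exact Submodule.smul_mem _ _ hx

lemma exists_unit (σ : L ≃ₐ[M] L) (hσ : σ * σ = 1) {x : Lˣ}
    (hx : toPrincipalIdeal (𝓞 L) L x ∈ Amb M L) : ∃ u ∈ Em σ, ul L u = dl σ x := by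
  rw [Amb, Subgroup.mem_comap, powMonoidHom_apply, ← map_pow] at hx
  obtain ⟨I, hI⟩ := hx
  have hI' : extendedHom L (𝓞 L) (I : FractionalIdeal (𝓞 M)⁰ M) =
      spanSingleton (𝓞 L)⁰ ((x ^ 2 : Lˣ) : L) := by
    rw [← jh_coe, hI, coe_toPrincipalIdeal]
  have hss : ∀ y : L, σ (σ y) = y := fun y => DFunLike.congr_fun hσ y
  have hmem : ∀ y : L, y ∈ spanSingleton (𝓞 L)⁰ ((x ^ 2 : Lˣ) : L) →
      σ y ∈ spanSingleton (𝓞 L)⁰ ((x ^ 2 : Lˣ) : L) := by
    intro y hy
    rw [← hI'] at hy ⊢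
    exact stable_span σ _ y hy
  have h1 := hmem _ (mem_spanSingleton_self _ _)
  rw [mem_spanSingleton] at h1
  obtain ⟨a, ha⟩ := h1
  have hx0 : ((x ^ 2 : Lˣ) : L) ≠ 0 := (x ^ 2).ne_zero
  have hx1 : (x : L) ≠ 0 := x.ne_zero
  have hsx : σ (x : L) ≠ 0 := by
    rw [Ne, map_eq_zero]
    exact hx1
  have ha' : (a : L) * (x : L) ^ 2 = σ (x : L) ^ 2 := by
    rw [Algebra.smul_def] at ha
    have e1 : ((x ^ 2 : Lˣ) : L) = (x : L) ^ 2 := by simp
    rw [e1, map_pow] at ha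
    exact ha
  have hint1 : IsIntegral ℤ (σ (x : L) / (x : L)) := by
    refine IsIntegral.of_pow two_pos ?_
    have e1 : (σ (x : L) / (x : L)) ^ 2 = (a : L) := by
      rw [div_pow, ← ha']
      field_simp
    rw [e1]
    exact RingOfIntegers.isIntegral_coe _
  have hint2 : IsIntegral ℤ ((x : L) / σ (x : L)) := by
    have e1 : (x : L) / σ (x : L) = σ (σ (x : L) / (x : L)) := by
      rw [map_div₀, hss]
    rw [e1]
    exact hint1.map σ.toAlgHom.toIntAlgHom
  let u : (𝓞 L)ˣ := ⟨⟨_, hint2⟩, ⟨_, hint1⟩, by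
    apply RingOfIntegers.ext
    change (x : L) / σ (x : L) * (σ (x : L) / (x : L)) = 1
    field_simp, by
    apply RingOfIntegers.ext
    change (σ (x : L) / (x : L)) * ((x : L) / σ (x : L)) = 1
    field_simp⟩
  have hu : ((u : 𝓞 L) : L) = (x : L) / σ (x : L) := rfl
  refine ⟨u, ?_, ?_⟩
  · rw [mem_Em]
    apply ext_u
    have e1 : (((u * us σ u : (𝓞 L)ˣ) : 𝓞 L) : L) = ((u : 𝓞 L) : L) * σ ((u : 𝓞 L) : L) := rfl
    rw [e1, hu, map_div₀, hss]
    have e2 : (((1 : (𝓞 L)ˣ) : 𝓞 L) : L) = 1 := rfl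
    rw [e2]
    field_simp
  · apply Units.ext
    rw [ul_coe, hu, dl_apply, Units.val_mul, Units.val_inv_eq_inv_val, sl_coe, div_eq_mul_inv]

lemma relIndex_dvd_right {G : Type*} [CommGroup G] {D H K : Subgroup G} (hD : D ≤ K) (hH : H ≤ K) :
    D.relIndex H ∣ D.relIndex K := by
  have h1 : D.relIndex (D ⊔ H) = D.relIndex H := Subgroup.relIndex_sup_left H D
  rw [← h1]
  exact ⟨_, (Subgroup.relIndex_mul_relIndex _ _ _ le_sup_left (sup_le hD hH)).symm⟩

/-- **the class numbers** -/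
theorem class_div [IsGalois M L] {σ : L ≃ₐ[M] L} (h2 : finrank M L = 2) (hσ : σ ≠ 1)
    (T : Finset (HeightOneSpectrum (𝓞 L)))
    (hT : ∀ P ∈ T, ∀ x : 𝓞 L, σ • x - x ∈ P.asIdeal) (hκ : (Sq σ).relIndex (Em σ) ∣ 4) :
    2 ^ T.card * classNumber M * ((em M L).range ⊔ Em σ).index ∣ 4 * classNumber L := by
  have hss : σ * σ = 1 := sq_eq_one h2 hσ
  set A := Amb M L with hA
  set J := (jh M L).range with hJ
  set PL := (toPrincipalIdeal (𝓞 L) L).range with hPL
  set D := (dh σ).range with hD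
  have e1 : (PM M L).relIndex J * J.relIndex A = (PM M L).relIndex A :=
    Subgroup.relIndex_mul_relIndex _ _ _ PM_le range_le_Amb
  -- the principal ambiguous ideals
  set X : Subgroup Lˣ := A.comap (toPrincipalIdeal (𝓞 L) L) with hX
  have e2 : X.map (toPrincipalIdeal (𝓞 L) L) = A ⊓ PL := by
    ext I
    constructor
    · rintro ⟨x, hx, rfl⟩
      exact ⟨hx, x, rfl⟩
    · rintro ⟨hI, x, rfl⟩
      exact ⟨x, hI, rfl⟩
  have hPMAP : PM M L ≤ A ⊓ PL := by
    refine le_inf (PM_le.trans range_le_Amb) ?_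
    rintro _ ⟨_, ⟨x, rfl⟩, rfl⟩
    rw [jh_principal]
    exact ⟨_, rfl⟩
  have e3 : (PM M L).relIndex (A ⊓ PL) * (A ⊓ PL).relIndex A = (PM M L).relIndex A :=
    Subgroup.relIndex_mul_relIndex _ _ _ hPMAP inf_le_left
  have e4 : (A ⊓ PL).relIndex A ∣ classNumber L := by
    rw [inf_comm, Subgroup.inf_relIndex_right, ← index_principal L]
    exact Subgroup.relIndex_dvd_index_of_normal _ _
  have e5 : (PM M L).relIndex (A ⊓ PL) ∣ D.relIndex (Em σ) := by
    rw [← e2, ← Subgroup.relIndex_comap]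
    have h5 : (D.map (ul L)).comap (dl σ) ≤ (PM M L).comap (toPrincipalIdeal (𝓞 L) L) := by
      intro x hx
      obtain ⟨_, ⟨ε, rfl⟩, hε⟩ := hx
      rw [Subgroup.mem_comap]
      -- `x / ε` is fixed
      have h6 : sl σ (x * (ul L ε)⁻¹) = x * (ul L ε)⁻¹ := by
        rw [map_mul, map_inv, sl_ul]
        have h7 : ul L (us σ ε) = ul L ε * (dl σ x)⁻¹ := by
          rw [← hε, dh_apply, map_mul, map_inv, mul_inv, inv_inv, mul_inv_cancel_left]
        rw [h7, dl_apply]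
        have h71 : (ul L ε * (x * (sl σ x)⁻¹)⁻¹)⁻¹ = (ul L ε)⁻¹ * (x * (sl σ x)⁻¹) := by
          rw [mul_inv, inv_inv]
        rw [h71]
        calc sl σ x * ((ul L ε)⁻¹ * (x * (sl σ x)⁻¹)) =
            (sl σ x * (sl σ x)⁻¹) * (x * (ul L ε)⁻¹) := by
              rw [mul_comm x, mul_left_comm (ul L ε)⁻¹, ← mul_assoc, mul_comm (ul L ε)⁻¹ x]
          _ = _ := by rw [mul_inv_cancel, one_mul]
      have h8 : ((x * (ul L ε)⁻¹ : Lˣ) : L) ∈ Set.range (algebraMap M L) := by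
        refine (IsGalois.mem_range_algebraMap_iff_fixed _).mpr fun g => ?_
        rcases eq_one_or h2 hσ g with rfl | rfl
        · rfl
        · have := congrArg Units.val h6
          rw [sl_coe] at this
          exact this
      obtain ⟨y, hy⟩ := h8
      have hy0 : y ≠ 0 := by
        rintro rfl
        rw [map_zero] at hy
        exact (x * (ul L ε)⁻¹).ne_zero hy.symm
      refine ⟨toPrincipalIdeal (𝓞 M) M (Units.mk0 y hy0), ⟨_, rfl⟩, ?_⟩
      rw [jh_principal]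
      have h9 : Units.map (algebraMap M L : M →* L) (Units.mk0 y hy0) = x * (ul L ε)⁻¹ :=
        Units.ext hy
      rw [h9, map_mul, map_inv]
      have h10 : toPrincipalIdeal (𝓞 L) L (ul L ε) = 1 := by
        apply Units.ext
        rw [coe_toPrincipalIdeal, ul_coe, Units.val_one]
        have h11 : spanSingleton (𝓞 L)⁰ ((ε : 𝓞 L) : L) =
            ((Ideal.span {(ε : 𝓞 L)} : Ideal (𝓞 L)) : FractionalIdeal (𝓞 L)⁰ L) :=
          (coeIdeal_span_singleton _).symm
        rw [h11, Ideal.span_singleton_eq_top.mpr ε.isUnit, coeIdeal_top]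
      rw [h10, inv_one, mul_one]
    refine (Subgroup.relIndex_dvd_of_le_left X h5).trans ?_
    rw [Subgroup.relIndex_comap, ← Subgroup.relIndex_map_map_of_injective D (Em σ) ul_inj]
    refine relIndex_dvd_right (Subgroup.map_mono (dh_range_le hss)) ?_
    rintro _ ⟨x, hx, rfl⟩
    obtain ⟨u, hu, hux⟩ := exists_unit σ hss hx
    exact ⟨u, hu, hux⟩
  have e6 : (Sq σ).relIndex D * D.relIndex (Em σ) = (Sq σ).relIndex (Em σ) :=
    Subgroup.relIndex_mul_relIndex _ _ _ Sq_le (dh_range_le hss)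
  have e7 : 2 ^ T.card ∣ J.relIndex A := two_pow_dvd h2 hσ T hT
  rw [index_eq h2 hσ]
  have e8 : 2 ^ T.card * classNumber M ∣ D.relIndex (Em σ) * classNumber L := by
    refine dvd_trans ?_ (mul_dvd_mul e5 e4)
    rw [e3, ← e1, relIndex_PM, mul_comm]
    exact mul_dvd_mul_left _ e7
  calc 2 ^ T.card * classNumber M * (Sq σ).relIndex D ∣
      D.relIndex (Em σ) * classNumber L * (Sq σ).relIndex D := mul_dvd_mul_right e8 _
    _ = (Sq σ).relIndex (Em σ) * classNumber L := by rw [← e6]; ring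
    _ ∣ 4 * classNumber L := mul_dvd_mul_right hκ _

end Pool.Agent.L0h48.DS
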