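import Pool.Agent.L0h48.DS.Gen

/-!
# The regulators
-/

set_option autoImplicit false
set_option linter.unusedSectionVars false

namespace Pool.Agent.L0h48.DS

open NumberField NumberField.InfinitePlace NumberField.Units Module Matrix

variable {M L : Type} [Field M] [NumberField M] [Field L] [NumberField L] [Algebra M L]
  {σ : L ≃ₐ[M] L} {w₁ : InfinitePlace L}

lemma card_rank (K : Type) [Field K] [NumberField K] :
    Fintype.card (InfinitePlace K) = rank K + 1 := by
  have : 0 < Fintype.card (InfinitePlace K) := Fintype.card_pos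
  have h : Units.rank K = Fintype.card (InfinitePlace K) - 1 := rfl
  omega

lemma card_ne (K : Type) [Field K] [NumberField K] (w : InfinitePlace K)
    [Fintype {v : InfinitePlace K // v ≠ w}] :
    Fintype.card {v : InfinitePlace K // v ≠ w} = rank K := by
  classical
  have h := card_rank K
  rw [Fintype.card_subtype_compl, Fintype.card_subtype_eq]
  omega

/-- the places different from the second place above `v₁` -/
noncomputable def pf (hP : PlData M L σ w₁) :
    {v : InfinitePlace M // v ≠ w₁.comap (algebraMap M L)} ⊕ Unit →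
      {w : InfinitePlace L // w ≠ σ • w₁}
  | Sum.inl v => ⟨(comap_surjective (K := L) v.1).choose, by
      intro h
      have h1 := (comap_surjective (K := L) v.1).choose_spec
      rw [h] at h1
      apply v.2
      rw [← h1]
      beta_reduce
      rw [comap_smul]
      congr 1
      ext x
      simp⟩
  | Sum.inr _ => ⟨w₁, hP.ne.symm⟩

lemma pf_inl (hP : PlData M L σ w₁) (v : {v : InfinitePlace M // v ≠ w₁.comap (algebraMap M L)}) :
    (pf hP (Sum.inl v)).1.comap (algebraMap M L) = v.1 :=
  (comap_surjective (K := L) v.1).choose_spec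

lemma pf_bij (hP : PlData M L σ w₁) : Function.Bijective (pf hP) := by
  constructor
  · rintro (v | v) (v' | v') h
    · congr 1
      apply Subtype.ext
      rw [← pf_inl hP v, ← pf_inl hP v', h]
    · exfalso
      have h1 := pf_inl hP v
      rw [h] at h1
      exact v.2 h1.symm
    · exfalso
      have h1 := pf_inl hP v'
      rw [← h] at h1
      exact v'.2 h1.symm
    · rfl
  · intro w
    by_cases h : w.1.comap (algebraMap M L) = w₁.comap (algebraMap M L)
    · refine ⟨Sum.inr (), ?_⟩
      rcases hP.abv _ h with h1 | h1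
      · exact Subtype.ext h1.symm
      · exact absurd h1 w.2
    · refine ⟨Sum.inl ⟨_, h⟩, ?_⟩
      apply Subtype.ext
      have h1 := pf_inl hP ⟨_, h⟩
      exact hP.uniq _ _ h1 (by rw [h1]; exact h)

theorem reg_family (hP : PlData M L σ w₁) (hσ : σ * σ = 1)
    (hc : Fintype.card (InfinitePlace L) = Fintype.card (InfinitePlace M) + 1)
    {η : (𝓞 L)ˣ} (hη : IsGen σ η) :
    ∃ u : Fin (rank L) → (𝓞 L)ˣ,
      Subgroup.closure (Set.range u) ⊔ torsion L = (em M L).range ⊔ Em σ ∧
      regOfFamily u = 2 ^ rank M * regulator M * |Real.log (w₁ ((η : 𝓞 L) : L))| := by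
  classical
  set v₁ := w₁.comap (algebraMap M L) with hv₁
  have hrk : rank L = rank M + 1 := by
    have h1 := card_rank L
    have h2 := card_rank M
    omega
  let eM : {v : InfinitePlace M // v ≠ v₁} ≃ Fin (rank M) :=
    Fintype.equivOfCardEq (by rw [card_ne, Fintype.card_fin])
  let E : Fin (rank L) ≃ {v : InfinitePlace M // v ≠ v₁} ⊕ Unit :=
    Fintype.equivOfCardEq (by
      rw [Fintype.card_sum, Fintype.card_fin, card_ne, Fintype.card_unit, hrk])
  let u' : {v : InfinitePlace M // v ≠ v₁} ⊕ Unit → (𝓞 L)ˣ :=
    Sum.elim (fun v => em M L (fundSystem M (eM v))) (fun _ => η)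
  let f := Equiv.ofBijective (pf hP) (pf_bij hP)
  refine ⟨u' ∘ E, ?_, ?_⟩
  · have hr : Set.range (u' ∘ E) = Set.range (fun i => em M L (fundSystem M i)) ∪ {η} := by
      rw [E.surjective.range_comp, Set.Sum.elim_range]
      congr 1
      · exact (eM.surjective.range_comp (fun i => em M L (fundSystem M i)))
      · exact Set.range_const
    have hrM : v₁.IsReal := hP.real.comap _
    apply le_antisymm
    · rw [sup_le_iff, Subgroup.closure_le, hr, Set.union_subset_iff]
      refine ⟨⟨?_, ?_⟩, ?_⟩
      · rintro _ ⟨i, rfl⟩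
        exact Subgroup.mem_sup_left ⟨_, rfl⟩
      · rintro _ rfl
        exact Subgroup.mem_sup_right hη.mem
      · intro x hx
        refine Subgroup.mem_sup_right ?_
        rcases (mem_tors_iff hP.real).mp hx with rfl | rfl
        · exact one_mem _
        · exact neg_one_mem σ
    · have hη' : η ∈ Subgroup.closure (Set.range (u' ∘ E)) ⊔ torsion L := by
        refine Subgroup.mem_sup_left (Subgroup.subset_closure ?_)
        rw [hr]
        exact Or.inr rfl
      have hneg : (-1 : (𝓞 L)ˣ) ∈ Subgroup.closure (Set.range (u' ∘ E)) ⊔ torsion L :=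
        Subgroup.mem_sup_right neg_one_torsion
      rw [sup_le_iff]
      constructor
      · rw [MonoidHom.range_eq_map, ← closure_fundSystem_sup_torsion_eq_top (K := M), Subgroup.map_sup,
          sup_le_iff]
        constructor
        · rw [MonoidHom.map_closure, Subgroup.closure_le]
          rintro _ ⟨_, ⟨i, rfl⟩, rfl⟩
          refine Subgroup.mem_sup_left (Subgroup.subset_closure ?_)
          rw [hr]
          exact Or.inl ⟨i, rfl⟩
        · rintro _ ⟨x, hx, rfl⟩
          rcases (mem_tors_iff hrM).mp hx with rfl | rfl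
          · rw [map_one]
            exact one_mem _
          · have : em M L (-1) = -1 := by
              apply ext_u
              rw [em_coe]
              simp
            rw [this]
            exact hneg
      · intro x hx
        obtain ⟨k, rfl | rfl⟩ := hη.gen x hx
        · exact Subgroup.zpow_mem _ hη' k
        · rw [← neg_one_mul]
          exact Subgroup.mul_mem _ hneg (Subgroup.zpow_mem _ hη' k)
  · rw [regOfFamily_eq_det (u' ∘ E) (σ • w₁) (f.symm.trans E.symm), regulator_eq_det M v₁ eM]
    have h1 : (Matrix.of fun (i w : {w // w ≠ σ • w₁}) => (mult w.val : ℝ) *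
        Real.log (w.val (((u' ∘ E) ((f.symm.trans E.symm) i) : 𝓞 L) : L))).det =
        (Matrix.of fun (i j : {v : InfinitePlace M // v ≠ v₁} ⊕ Unit) =>
          (mult (f j).1 : ℝ) * Real.log ((f j).1 ((u' i : 𝓞 L) : L))).det := by
      rw [← Matrix.det_submatrix_equiv_self f]
      congr 1
      ext i j
      simp [f]
    rw [h1]
    have h2 : (Matrix.of fun (i j : {v : InfinitePlace M // v ≠ v₁} ⊕ Unit) =>
          (mult (f j).1 : ℝ) * Real.log ((f j).1 ((u' i : 𝓞 L) : L))) =
        Matrix.fromBlocks
          ((2 : ℝ) • Matrix.of fun (i j : {v : InfinitePlace M // v ≠ v₁}) =>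
            (mult j.1 : ℝ) * Real.log (j.1 ((fundSystem M (eM i) : 𝓞 M) : M)))
          (Matrix.of fun i _ => (mult w₁ : ℝ) * Real.log (w₁ ((u' (Sum.inl i) : 𝓞 L) : L)))
          0
          (Matrix.of fun _ _ => Real.log (w₁ ((η : 𝓞 L) : L))) := by
      ext i j
      rcases i with i | i <;> rcases j with j | j
      · rw [Matrix.of_apply, Matrix.fromBlocks_apply₁₁, Matrix.smul_apply, Matrix.of_apply]
        have e1 := pf_inl hP j
        have e2 : (f (Sum.inl j)).1.comap (algebraMap M L) = j.1 := e1
        have e3 := hP.cpx (f (Sum.inl j)).1 (by rw [e2]; exact j.2)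
        have e4 : mult (f (Sum.inl j)).1 = 2 := mult_isComplex ⟨_, e3.1⟩
        have e5 : mult j.1 = 1 := by
          rw [← e2]
          exact mult_isReal ⟨_, e3.2.1⟩
        have e6 : (f (Sum.inl j)).1 ((u' (Sum.inl i) : 𝓞 L) : L) =
            j.1 ((fundSystem M (eM i) : 𝓞 M) : M) := by
          rw [← e2]
          rfl
        rw [e4, e5, e6]
        simp
      · rfl
      · rw [Matrix.of_apply, Matrix.fromBlocks_apply₂₁, Matrix.zero_apply]
        have e2 : (f (Sum.inl j)).1.comap (algebraMap M L) = j.1 := pf_inl hP j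
        have e3 : (f (Sum.inl j)).1 ((u' (Sum.inr i) : 𝓞 L) : L) = 1 := by
          refine hP.other hσ hη.mem ?_ (f (Sum.inl j)).2
          intro h
          rw [h] at e2
          exact j.2 e2.symm
        rw [e3, Real.log_one, mul_zero]
      · rw [Matrix.of_apply, Matrix.fromBlocks_apply₂₂, Matrix.of_apply]
        have e1 : (f (Sum.inr j)).1 = w₁ := rfl
        rw [e1, mult_isReal ⟨_, hP.real⟩]
        simp [u']
    rw [h2, Matrix.det_fromBlocks_zero₂₁, Matrix.det_smul, abs_mul, abs_mul, card_ne]
    congr 1
    · congr 1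
      rw [abs_of_pos (by positivity)]
    · rw [Matrix.det_unique]
      rfl

/-- **the regulators**, and the index -/
theorem reg_eq (hP : PlData M L σ w₁) (hσ : σ * σ = 1)
    (hc : Fintype.card (InfinitePlace L) = Fintype.card (InfinitePlace M) + 1)
    {η : (𝓞 L)ˣ} (hη : IsGen σ η) :
    2 ^ rank M * regulator M * |Real.log (w₁ ((η : 𝓞 L) : L))| =
      (((em M L).range ⊔ Em σ).index : ℝ) * regulator L := by
  obtain ⟨u, hu, hr⟩ := reg_family hP hσ hc hη
  have h1 := regOfFamily_div_regulator u
  rw [hu, div_eq_iff (regulator_ne_zero L)] at h1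
  rw [← hr, h1]

end Pool.Agent.L0h48.DS
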