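import Pool.Agent.L0h48.DS.Ratio
import Pool.Agent.L0h48.DS.Reg
import Pool.Agent.L0h48.DS.Idx

/-!
# The derivative at zero of the quotient of the zeta functions of a quadratic extension
-/

set_option autoImplicit false
set_option linter.unusedSectionVars false

namespace Pool.Agent.L0h48.DS

open NumberField NumberField.InfinitePlace Module IsDedekindDomain
open Pool.Agent.Y773 (LI)
open Pool.Agent.Y772.NZ (one)

lemma torsionOrder_real {K : Type} [Field K] [NumberField K] {w : InfinitePlace K} (hw : w.IsReal) :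
    Units.torsionOrder K = 2 := by
  have h1 : Units.torsionOrder K = Nat.card (Units.torsion K) := rfl
  have h2 : (Units.torsion K : Set (𝓞 K)ˣ) = {1, -1} := by
    ext x
    rw [SetLike.mem_coe, mem_tors_iff hw]
    simp
  have h3 : Nat.card (Units.torsion K) = ((Units.torsion K : Set (𝓞 K)ˣ)).ncard := by
    rw [← Nat.card_coe_set_eq]
    rfl
  rw [h1, h3, h2, Set.ncard_pair]
  intro h
  have h4 := congrArg (fun z : (𝓞 K)ˣ => ((z : 𝓞 K) : K)) h
  have h5 : (1 : K) = -1 := by simpa using h4
  norm_num at h5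

variable {M L : Type} [Field M] [NumberField M] [Field L] [NumberField L] [Algebra M L]
  [IsGalois M L] {σ : L ≃ₐ[M] L} {w₁ : InfinitePlace L}

lemma PlData.totReal (hP : PlData M L σ w₁) :
    Fintype.card (InfinitePlace M) = finrank ℚ M := by
  have h1 : ∀ v : InfinitePlace M, v.IsReal := by
    intro v
    obtain ⟨w, rfl⟩ := comap_surjective (K := L) v
    by_cases h : w.comap (algebraMap M L) = w₁.comap (algebraMap M L)
    · change (w.comap (algebraMap M L)).IsReal
      rw [h]
      exact hP.real.comap _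
    · exact (hP.cpx w h).2.1
  have h2 := InfinitePlace.card_add_two_mul_card_eq_rank M
  have h3 := InfinitePlace.card_eq_nrRealPlaces_add_nrComplexPlaces M
  have h4 : nrComplexPlaces M = 0 := by
    have : IsTotallyReal M := ⟨h1⟩
    exact nrComplexPlaces_eq_zero_iff.mpr this
  omega

/-- **the derivative at zero** -/
theorem quad (h2 : finrank M L = 2) (hσ : σ ≠ 1) (hw : w₁.IsReal)
    (T : Finset (HeightOneSpectrum (𝓞 L)))
    (hT : ∀ P ∈ T, ∀ x : 𝓞 L, σ • x - x ∈ P.asIdeal) :
    ∃ G : ℂ → ℂ, (∀ z, MeromorphicAt G z) ∧ AnalyticAt ℂ G 0 ∧ G 0 = 0 ∧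
      (∀ s : ℂ, 1 < s.re → G s * LI (one M) s = LI (one L) s) ∧
      (deriv G 0 = 0 ∨ ∃ η ∈ Em σ, (∀ w : InfinitePlace L, w ≠ w₁ → w ≠ σ • w₁ →
        w ((η : 𝓞 L) : L) = 1) ∧ ∃ c : ℤ, deriv G 0 = (((2 : ℝ) ^ (finrank ℚ M - 1) * 2 ^ T.card * c / 4 *
          Real.log (w₁ ((η : 𝓞 L) : L)) : ℝ) : ℂ)) := by
  classical
  have hc := card_unram' (M := M) (L := L) h2
  set d := (Finset.univ.filter fun v : InfinitePlace M => v.IsUnramifiedIn L).card with hd
  have hd0 : 0 < d := by
    rw [hd, Finset.card_pos]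
    exact ⟨w₁.comap (algebraMap M L), by
      simp [isUnramifiedIn_comap.mpr (IsReal.isUnramified M hw)]⟩
  obtain ⟨G, hG1, hG2, hG3, hG4, hG5, hG6⟩ := exists_ratio M L d hc hd0
  refine ⟨G, hG1, hG2, hG3, hG4, ?_⟩
  by_cases hd1 : 1 < d
  · exact Or.inl (hG5 hd1)
  right
  have hd2 : d = 1 := by omega
  rw [hd2] at hc
  have hss := sq_eq_one h2 hσ
  have hP := plData h2 hσ hc hw
  obtain ⟨η, hη⟩ := exists_gen hP hss
  refine ⟨η, hη.mem, fun w h1 h2 => hP.other hss hη.mem h1 h2, ?_⟩
  obtain ⟨c, hcl⟩ := class_div h2 hσ T hT hη.kappa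
  have hreg := reg_eq hP hss hc hη
  have htL : Units.torsionOrder L = 2 := torsionOrder_real hw
  have htM : Units.torsionOrder M = 2 := torsionOrder_real (hw.comap (algebraMap M L))
  have hrk : Units.rank M = finrank ℚ M - 1 := by
    rw [← hP.totReal]
    rfl
  rw [hrk] at hreg
  set q := ((em M L).range ⊔ Em σ).index with hq
  set l := Real.log (w₁ ((η : 𝓞 L) : L)) with hl
  have hRL := Units.regulator_pos L
  have hRM := Units.regulator_pos M
  have hhM : (0 : ℝ) < classNumber M := by exact_mod_cast classNumber_pos M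
  have hcl' : (4 : ℝ) * classNumber L = 2 ^ T.card * classNumber M * q * c := by exact_mod_cast hcl
  have hval : lv L / (2 * lv M) = 2 ^ (finrank ℚ M - 1) * 2 ^ T.card * c / 4 * |l| := by
    unfold lv
    rw [htL, htM, hc, pow_succ]
    have h5 : (classNumber L : ℝ) = 2 ^ T.card * classNumber M * q * c / 4 := by linarith
    rw [h5]
    push_cast
    have h6 : (2 : ℝ) ^ Fintype.card (InfinitePlace M) ≠ 0 := by positivity
    have h7 : (q : ℝ) * Units.regulator L = 2 ^ (finrank ℚ M - 1) * Units.regulator M * |l| :=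
      hreg.symm
    have h8 : (2 ^ Fintype.card (InfinitePlace M) * 2 * (2 ^ T.card * (classNumber M : ℝ) * q * c / 4) *
        Units.regulator L / 2) / (2 * (2 ^ Fintype.card (InfinitePlace M) * classNumber M *
          Units.regulator M / 2)) = 2 ^ T.card * c / 4 * ((q * Units.regulator L) /
            Units.regulator M) := by
      field_simp
    rw [h8, h7]
    field_simp
  rcases hG6 hd2 with h | h
  · rcases abs_cases l with ⟨h9, -⟩ | ⟨h9, -⟩
    · refine ⟨c, ?_⟩
      rw [h]
      have := hval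
      rw [h9] at this
      have h10 : lv L / (2 * lv M) =
          2 ^ (finrank ℚ M - 1) * 2 ^ T.card * ((c : ℤ) : ℝ) / 4 * l := by
        rw [this, Int.cast_natCast]
      exact_mod_cast h10
    · refine ⟨-c, ?_⟩
      rw [h]
      have := hval
      rw [h9] at this
      have h10 : lv L / (2 * lv M) =
          2 ^ (finrank ℚ M - 1) * 2 ^ T.card * ((-c : ℤ) : ℝ) / 4 * l := by
        rw [this]
        push_cast
        ring
      exact_mod_cast h10
  · rcases abs_cases l with ⟨h9, -⟩ | ⟨h9, -⟩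
    · refine ⟨-c, ?_⟩
      rw [h]
      have := hval
      rw [h9] at this
      have h10 : -(lv L / (2 * lv M)) =
          2 ^ (finrank ℚ M - 1) * 2 ^ T.card * ((-c : ℤ) : ℝ) / 4 * l := by
        rw [this]
        push_cast
        ring
      exact_mod_cast h10
    · refine ⟨c, ?_⟩
      rw [h]
      have := hval
      rw [h9] at this
      have h10 : -(lv L / (2 * lv M)) =
          2 ^ (finrank ℚ M - 1) * 2 ^ T.card * ((c : ℤ) : ℝ) / 4 * l := by
        rw [this]
        push_cast
        ring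
      exact_mod_cast h10

end Pool.Agent.L0h48.DS
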