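import Pool.Agent.L0h48.DS.Ind
import Pool.Agent.L0h48.DS.Quad

/-!
# The fields `M` and `L` of a character of order four
-/

set_option autoImplicit false
set_option linter.unusedSectionVars false

namespace Pool.Agent.L0h48.DS

open Module NumberField NumberField.InfinitePlace IsDedekindDomain

section fixed

variable {E K : Type} [Field E] [NumberField E] [Field K] [NumberField K] [Algebra E K]
  [IsGalois E K]

lemma mem_fix_iff (H : Subgroup (K ≃ₐ[E] K)) (γ : K ≃ₐ[E] K) :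
    γ ∈ H ↔ ∃ h' : K ≃ₐ[IntermediateField.fixedField H] K, h'.restrictScalars E = γ := by
  have hfin : FiniteDimensional E K := Module.Finite.of_restrictScalars_finite ℚ E K
  constructor
  · intro h
    exact ⟨IntermediateField.subgroupEquivAlgEquiv H ⟨γ, h⟩, by ext x; rfl⟩
  · rintro ⟨h', rfl⟩
    have h5 : ∀ h : H, (IntermediateField.subgroupEquivAlgEquiv H h).restrictScalars E =
        (h : K ≃ₐ[E] K) := fun h => by ext x; rfl
    obtain ⟨h, rfl⟩ := (IntermediateField.subgroupEquivAlgEquiv H).surjective h'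
    rw [h5]
    exact h.2

end fixed

variable {F k K : Type} [Field F] [NumberField F] [Field k] [NumberField k] [Field K]
  [NumberField K] [Algebra F k] [Algebra k K] [Algebra F K] [IsScalarTower F k K] [IsGalois F K]
  {s : K ≃ₐ[F] K} {χ : (K ≃ₐ[k] K) →* ℂˣ}

/-- the field `M` -/
noncomputable abbrev fM (h : Dat F s χ) : IntermediateField F K :=
  IntermediateField.fixedField (HV h V2)

/-- the field `L` -/
noncomputable abbrev fL (h : Dat F s χ) : IntermediateField (fM h) K :=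
  IntermediateField.fixedField ((HV h ⊥).comap
    (AlgEquiv.restrictScalarsHom F : (K ≃ₐ[fM h] K) →* (K ≃ₐ[F] K)))

lemma hM (h : Dat F s χ) (γ : K ≃ₐ[F] K) :
    γ ∈ HV h V2 ↔ ∃ h' : K ≃ₐ[fM h] K, h'.restrictScalars F = γ := mem_fix_iff _ γ

instance (h : Dat F s χ) : IsScalarTower F (fL h) K :=
  IsScalarTower.of_algebraMap_eq fun _ => rfl

lemma hL (h : Dat F s χ) (γ : K ≃ₐ[F] K) :
    γ ∈ HV h ⊥ ↔ ∃ h' : K ≃ₐ[fL h] K, h'.restrictScalars F = γ := by
  constructor
  · intro h1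
    obtain ⟨h2, h3⟩ := (hM h γ).mp (HV_mono h bot_le h1)
    obtain ⟨h4, h5⟩ := (mem_fix_iff ((HV h ⊥).comap
      (AlgEquiv.restrictScalarsHom F : (K ≃ₐ[fM h] K) →* (K ≃ₐ[F] K))) h2).mp (by
        rw [Subgroup.mem_comap]
        change h2.restrictScalars F ∈ _
        rw [h3]
        exact h1)
    refine ⟨h4, ?_⟩
    rw [← h3, ← h5]
    ext x
    rfl
  · rintro ⟨h4, rfl⟩
    have h1 := (mem_fix_iff ((HV h ⊥).comap
      (AlgEquiv.restrictScalarsHom F : (K ≃ₐ[fM h] K) →* (K ≃ₐ[F] K)))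
        (h4.restrictScalars (fM h))).mpr ⟨h4, rfl⟩
    exact h1

lemma card_gal_eq {E : Type} [Field E] [NumberField E] [Algebra F E] [Algebra E K]
    [IsScalarTower F E K] {H : Subgroup (K ≃ₐ[F] K)}
    (hE : ∀ γ : K ≃ₐ[F] K, γ ∈ H ↔ ∃ h' : K ≃ₐ[E] K, h'.restrictScalars F = γ) :
    Nat.card (K ≃ₐ[E] K) = Nat.card H := by
  refine Nat.card_congr (Equiv.ofBijective (fun h' =>
    (⟨h'.restrictScalars F, (hE _).mpr ⟨h', rfl⟩⟩ : H)) ⟨?_, ?_⟩)
  · intro a b hab
    exact rS_inj (congrArg Subtype.val hab)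
  · rintro ⟨γ, hγ⟩
    obtain ⟨h', rfl⟩ := (hE _).mp hγ
    exact ⟨h', rfl⟩

/-- the degree of `L` over `M` -/
lemma finrank_L (h : Dat F s χ) : finrank (fM h) (fL h) = 2 := by
  have h1 : Nat.card (K ≃ₐ[fM h] K) = Nat.card (HV h V2) := card_gal_eq (hM h)
  have h2 : Nat.card (K ≃ₐ[fL h] K) = Nat.card (HV h ⊥) := card_gal_eq (hL h)
  have c1 := card_HV h V2
  have c2 := card_HV h ⊥
  obtain ⟨c3, c4⟩ := card_comap h
  rw [IsGalois.card_aut_eq_finrank] at h1 h2
  have h3 := finrank_mul_finrank (fM h) (fL h) K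
  have h4 : 0 < finrank (fL h) K := finrank_pos
  have h5 : finrank (fM h) (fL h) * finrank (fL h) K = 2 * finrank (fL h) K := by
    rw [h3, h1, h2]
    omega
  exact Nat.eq_of_mul_eq_mul_right h4 h5

/-- the degree of `M` over `F` -/
lemma finrank_M (h : Dat F s χ) : finrank F (fM h) = 2 := by
  have h1 : Nat.card (K ≃ₐ[fM h] K) = Nat.card (HV h V2) := card_gal_eq (hM h)
  have c1 := card_HV h V2
  obtain ⟨c3, c4⟩ := card_comap h
  rw [IsGalois.card_aut_eq_finrank] at h1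
  have h3 := finrank_mul_finrank F (fM h) K
  have h4 : 0 < finrank (fM h) K := finrank_pos
  have h6 : Nat.card (K ≃ₐ[F] K) = 2 * Nat.card (K ≃ₐ[k] K) := card_top h.deg
  rw [IsGalois.card_aut_eq_finrank] at h6
  have h5 : finrank F (fM h) * finrank (fM h) K = 2 * finrank (fM h) K := by
    rw [h3, h6, h1]
    omega
  exact Nat.eq_of_mul_eq_mul_right h4 h5

lemma finrank_QM (h : Dat F s χ) : finrank ℚ (fM h) = finrank ℚ k := by
  rw [← finrank_mul_finrank ℚ F (fM h), ← finrank_mul_finrank ℚ F k, finrank_M, h.deg]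

end Pool.Agent.L0h48.DS
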