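import Pool.Agent.L0h48.DS.Art

/-!
# Partial zeta functions and the assembly
-/

set_option autoImplicit false
set_option linter.unusedSectionVars false

namespace Pool.Agent.L0h48.DS

open NumberField NumberField.InfinitePlace Module IsDedekindDomain Ideal
open scoped ComplexConjugate Pointwise
open Pool.Agent.Y773 (LI TPos)
open Pool.Agent.K4H74.SC

section orth

variable {G : Type} [Group G] [Finite G]

lemma finite_dual (hab : ∀ a b : G, a * b = b * a) : Finite (G →* ℂˣ) := by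
  let _ : CommGroup G := { (inferInstance : Group G) with mul_comm := hab }
  have h1 : Nat.card (G →* ℂˣ) = Nat.card G := CommGroup.card_monoidHom_of_hasEnoughRootsOfUnity G ℂ
  have h2 : Nat.card (G →* ℂˣ) ≠ 0 := by
    rw [h1]
    exact Nat.card_pos.ne'
  exact Nat.finite_of_card_ne_zero h2

lemma orth_one (hab : ∀ a b : G, a * b = b * a) [Fintype (G →* ℂˣ)] (a : G) [Decidable (a = 1)] :
    ∑ χ : G →* ℂˣ, ((χ a : ℂˣ) : ℂ) = if a = 1 then (Nat.card G : ℂ) else 0 := by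
  let _ : CommGroup G := { (inferInstance : Group G) with mul_comm := hab }
  have h1 : Nat.card (G →* ℂˣ) = Nat.card G := CommGroup.card_monoidHom_of_hasEnoughRootsOfUnity G ℂ
  by_cases ha : a = 1
  · rw [if_pos ha, ha]
    simp only [map_one, Units.val_one, Finset.sum_const, Finset.card_univ, nsmul_eq_mul, mul_one]
    rw [← h1, Nat.card_eq_fintype_card]
  · rw [if_neg ha]
    obtain ⟨χ₀, h2⟩ := CommGroup.exists_apply_ne_one_of_hasEnoughRootsOfUnity G ℂ ha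
    have h3 : ((χ₀ a : ℂˣ) : ℂ) * ∑ χ : G →* ℂˣ, ((χ a : ℂˣ) : ℂ) =
        ∑ χ : G →* ℂˣ, ((χ a : ℂˣ) : ℂ) := by
      rw [Finset.mul_sum]
      conv_rhs => rw [← Equiv.sum_comp (Equiv.mulLeft χ₀)]
      refine Finset.sum_congr rfl fun χ _ => ?_
      rw [Equiv.coe_mulLeft, MonoidHom.mul_apply, Units.val_mul]
    have h4 : (((χ₀ a : ℂˣ) : ℂ) - 1) * ∑ χ : G →* ℂˣ, ((χ a : ℂˣ) : ℂ) = 0 := by
      linear_combination h3
    rcases mul_eq_zero.mp h4 with h5 | h5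
    · exact absurd (Units.ext (sub_eq_zero.mp h5)) h2
    · exact h5

end orth

section sums

/-- summation in pairs -/
lemma sum_pairs {X : Type} [Fintype X] (e : X → ℕ) (he : Function.Injective e) (ι : X → X)
    (hι : ∀ x, ι (ι x) = x) (P : X → Prop) [DecidablePred P] (hP : ∀ x, P x → P (ι x))
    (hne : ∀ x, P x → ι x ≠ x) (f : X → ℂ) (hf : ∀ x, ¬ P x → f x = 0) :
    ∑ x, f x = ∑ x ∈ Finset.univ.filter (fun x => P x ∧ e x < e (ι x)), (f x + f (ι x)) := by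
  classical
  have h1 : ∑ x, f x = ∑ x ∈ Finset.univ.filter P, f x := by
    rw [Finset.sum_filter]
    refine Finset.sum_congr rfl fun x _ => ?_
    split_ifs with h
    · rfl
    · exact hf x h
  rw [h1, ← Finset.sum_filter_add_sum_filter_not (Finset.univ.filter P) (fun x => e x < e (ι x)),
    Finset.filter_filter, Finset.filter_filter, Finset.sum_add_distrib]
  congr 1
  refine (Finset.sum_nbij' ι ι ?_ ?_ ?_ ?_ ?_).symm
  · intro x hx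
    rw [Finset.mem_filter] at hx ⊢
    refine ⟨Finset.mem_univ _, hP x hx.2.1, ?_⟩
    rw [hι]
    exact not_lt.mpr hx.2.2.le
  · intro x hx
    rw [Finset.mem_filter] at hx ⊢
    refine ⟨Finset.mem_univ _, hP x hx.2.1, ?_⟩
    rw [hι]
    refine lt_of_le_of_ne (not_lt.mp hx.2.2) fun h => hne x hx.2.1 (he h)
  · intro x _
    exact hι x
  · intro x _
    exact hι x
  · intro x _
    rfl

end sums

section zeta

variable {k K : Type} [Field k] [NumberField k] [Field K] [NumberField K] [Algebra k K]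
  [IsGalois k K] {𝔣 : Ideal (𝓞 k)} {art : Ideal (𝓞 k) → (K ≃ₐ[k] K)}

/-- **partial zeta functions** -/
theorem partial_zeta (h : IsArt 𝔣 art) (hab : ∀ a b : K ≃ₐ[k] K, a * b = b * a)
    [Fintype ((K ≃ₐ[k] K) →* ℂˣ)] {D : ((K ≃ₐ[k] K) →* ℂˣ) → ℂ}
    (hD : ∀ χ, Con (psi h χ) (D χ)) (g : K ≃ₐ[k] K) :
    ∃ Z : ℂ → ℂ, (∀ z, MeromorphicAt Z z) ∧ AnalyticAt ℂ Z 0 ∧
      (∀ s : ℂ, 1 < s.re → HasSum (fun 𝔞 : {𝔞 : Ideal (𝓞 k) // 𝔞 ≠ ⊥ ∧ IsCoprime 𝔞 𝔣 ∧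
        art 𝔞 = g} => ((absNorm 𝔞.1 : ℕ) : ℂ) ^ (-s)) (Z s)) ∧
      deriv Z 0 = (Nat.card (K ≃ₐ[k] K) : ℂ)⁻¹ *
        ∑ χ : (K ≃ₐ[k] K) →* ℂˣ, conj ((χ g : ℂˣ) : ℂ) * D χ := by
  classical
  choose Fn hF1 hF2 hF3 hF4 using hD
  set n : ℂ := (Nat.card (K ≃ₐ[k] K) : ℂ) with hn
  have hn0 : n ≠ 0 := by
    rw [hn]
    exact_mod_cast Nat.card_pos.ne'
  refine ⟨fun s => n⁻¹ * ∑ χ : (K ≃ₐ[k] K) →* ℂˣ, conj ((χ g : ℂˣ) : ℂ) * Fn χ s, ?_, ?_, ?_, ?_⟩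
  · intro z
    refine (analyticAt_const).meromorphicAt.mul (MeromorphicAt.fun_sum fun χ _ => ?_)
    exact (analyticAt_const).meromorphicAt.mul (hF1 χ z)
  · refine (analyticAt_const).mul (Finset.analyticAt_fun_sum _ fun χ _ => ?_)
    exact (analyticAt_const).mul (hF2 χ)
  · intro s hs
    -- the sum over all ideals
    have h1 : ∀ χ : (K ≃ₐ[k] K) →* ℂˣ, HasSum (fun 𝔞 : Ideal (𝓞 k) =>
        conj ((χ g : ℂˣ) : ℂ) * (psi h χ 𝔞 * ((absNorm 𝔞 : ℕ) : ℂ) ^ (-s)))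
        (conj ((χ g : ℂˣ) : ℂ) * Fn χ s) := by
      intro χ
      rw [hF3 χ s hs]
      exact (Pool.Agent.Y773.G.summable_LI (norm_psi h χ) hs).hasSum.mul_left _
    have h2 := (hasSum_sum fun χ (_ : χ ∈ Finset.univ) => h1 χ).mul_left n⁻¹
    have h3 : ∀ 𝔞 : Ideal (𝓞 k), n⁻¹ * ∑ χ : (K ≃ₐ[k] K) →* ℂˣ,
        conj ((χ g : ℂˣ) : ℂ) * (psi h χ 𝔞 * ((absNorm 𝔞 : ℕ) : ℂ) ^ (-s)) =
        Set.indicator {𝔞 : Ideal (𝓞 k) | 𝔞 ≠ ⊥ ∧ IsCoprime 𝔞 𝔣 ∧ art 𝔞 = g}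
          (fun 𝔞 => ((absNorm 𝔞 : ℕ) : ℂ) ^ (-s)) 𝔞 := by
      intro 𝔞
      by_cases hc : 𝔞 ≠ ⊥ ∧ IsCoprime 𝔞 𝔣
      · have h4 : ∀ χ : (K ≃ₐ[k] K) →* ℂˣ,
            conj ((χ g : ℂˣ) : ℂ) * (psi h χ 𝔞 * ((absNorm 𝔞 : ℕ) : ℂ) ^ (-s)) =
            ((χ (g⁻¹ * art 𝔞) : ℂˣ) : ℂ) * ((absNorm 𝔞 : ℕ) : ℂ) ^ (-s) := by
          intro χ
          rw [psi_cop h χ hc.1 hc.2, ← inv_chi, MonoidHom.inv_apply, map_mul, map_inv,
            Units.val_mul, mul_assoc]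
        rw [Finset.sum_congr rfl (fun χ _ => h4 χ), ← Finset.sum_mul, orth_one hab]
        by_cases hg : art 𝔞 = g
        · rw [if_pos (by rw [hg, inv_mul_cancel]), Set.indicator_of_mem (by exact ⟨hc.1, hc.2, hg⟩),
            ← mul_assoc, inv_mul_cancel₀ hn0, one_mul]
        · rw [if_neg (fun h5 => hg (inv_mul_eq_one.mp h5).symm),
            Set.indicator_of_notMem (fun h5 => hg h5.2.2), zero_mul, mul_zero]
      · rw [Set.indicator_of_notMem (fun h5 => hc ⟨h5.1, h5.2.1⟩)]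
        have h4 : ∀ χ : (K ≃ₐ[k] K) →* ℂˣ,
            conj ((χ g : ℂˣ) : ℂ) * (psi h χ 𝔞 * ((absNorm 𝔞 : ℕ) : ℂ) ^ (-s)) = 0 := by
          intro χ
          rw [psi_apply, if_neg hc, zero_mul, mul_zero]
        rw [Finset.sum_eq_zero (fun χ _ => h4 χ), mul_zero]
    have h5 := h2.congr_fun (g := Set.indicator {𝔞 : Ideal (𝓞 k) | 𝔞 ≠ ⊥ ∧ IsCoprime 𝔞 𝔣 ∧ art 𝔞 = g}
          (fun 𝔞 => ((absNorm 𝔞 : ℕ) : ℂ) ^ (-s))) (fun 𝔞 => (h3 𝔞).symm)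
    exact (hasSum_subtype_iff_indicator (s := {𝔞 : Ideal (𝓞 k) | 𝔞 ≠ ⊥ ∧ IsCoprime 𝔞 𝔣 ∧
      art 𝔞 = g}) (f := fun 𝔞 => ((absNorm 𝔞 : ℕ) : ℂ) ^ (-s))).mpr h5
  · have h1 : HasDerivAt (fun s => n⁻¹ * ∑ χ : (K ≃ₐ[k] K) →* ℂˣ, conj ((χ g : ℂˣ) : ℂ) * Fn χ s)
        (n⁻¹ * ∑ χ : (K ≃ₐ[k] K) →* ℂˣ, conj ((χ g : ℂˣ) : ℂ) * D χ) 0 := by
      refine HasDerivAt.const_mul _ (HasDerivAt.fun_sum fun χ _ => ?_)
      rw [← hF4 χ]
      exact ((hF2 χ).differentiableAt.hasDerivAt).const_mul _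
    exact h1.deriv

end zeta

variable {F k K : Type} [Field F] [NumberField F] [Field k] [NumberField k] [Field K]
  [NumberField K] [Algebra F k] [Algebra k K] [Algebra F K] [IsScalarTower F k K] [IsGalois F K]
  {𝔣 : Ideal (𝓞 k)} {art : Ideal (𝓞 k) → (K ≃ₐ[k] K)}

/-- complex conjugation -/
lemma exists_s [IsTotallyReal F] (ι : K →+* ℂ)
    (hι : ¬ ∀ x : k, conj (ι (algebraMap k K x)) = ι (algebraMap k K x)) :
    ∃ s : K ≃ₐ[F] K, (∀ x, conj (ι x) = ι (s x)) ∧ s * s = 1 ∧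
      s ∉ (rs F : (K ≃ₐ[k] K) →* (K ≃ₐ[F] K)).range := by
  have h1 : (ComplexEmbedding.conjugate ι).comp (algebraMap F K) = ι.comp (algebraMap F K) := by
    have h2 : ComplexEmbedding.IsReal (ι.comp (algebraMap F K)) := by
      rw [← InfinitePlace.isReal_mk_iff]
      exact IsTotallyReal.isReal _
    rw [ComplexEmbedding.isReal_iff] at h2
    ext x
    exact congrArg (fun f : F →+* ℂ => f x) h2
  obtain ⟨γ, hγ⟩ := NumberField.ComplexEmbedding.exists_comp_symm_eq_of_comp_eq ι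
    (ComplexEmbedding.conjugate ι) h1.symm
  have hs : ∀ x, conj (ι x) = ι (γ.symm x) := fun x =>
    (congrArg (fun f : K →+* ℂ => f x) hγ).symm
  refine ⟨γ.symm, hs, ?_, ?_⟩
  · ext x
    apply ι.injective
    change ι (γ.symm (γ.symm x)) = ι x
    rw [← hs, ← hs, Complex.conj_conj]
  · rintro ⟨g, hg⟩
    apply hι
    intro x
    rw [hs, ← hg]
    exact congrArg ι (g.commutes x)

/-- **the rank one abelian Stark conjecture** -/
theorem main [IsTotallyReal F] (h2 : finrank F k = 2) (hc : nrComplexPlaces k = 1)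
    (hr : 1 ≤ nrRealPlaces k) (hab : ∀ a b : K ≃ₐ[k] K, a * b = b * a) (h : IsArt 𝔣 art)
    (ι : K →+* ℂ) (hι : ¬ ∀ x : k, conj (ι (algebraMap k K x)) = ι (algebraMap k K x))
    (hodd : ∀ χ : (K ≃ₐ[k] K) →* ℂˣ, TotOdd 𝔣 art χ → (∀ g, χ g ^ 4 = 1) ∧ (∃ g, χ g ^ 2 ≠ 1) ∧
      ∀ γ : K ≃ₐ[F] K, (∃ y : k, γ (algebraMap k K y) ≠ algebraMap k K y) →
        ∀ g g' : K ≃ₐ[k] K, (∀ x, g' (γ x) = γ (g x)) → χ g' = (χ g)⁻¹)
    (T : Finset (HeightOneSpectrum (𝓞 F)))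
    (hT : ∀ p ∈ T, (∀ q : Ideal (𝓞 k), q.IsPrime → q.LiesOver p.asIdeal → 𝔣 ≤ q) ∨
      ∃ P : Ideal (𝓞 K), P.IsPrime ∧ P.LiesOver p.asIdeal ∧
        ∃ s : K ≃ₐ[F] K, (∀ x, conj (ι x) = ι (s x)) ∧ ∀ x : 𝓞 K, s • x - x ∈ P)
    (hcard : Nat.card (K ≃ₐ[k] K) ∣ 2 ^ (nrRealPlaces k - 1 + T.card)) :
    ∃ x : (𝓞 K)ˣ, (∀ g : K ≃ₐ[k] K, ∃ Z : ℂ → ℂ, (∀ z, MeromorphicAt Z z) ∧ AnalyticAt ℂ Z 0 ∧
      (∀ s : ℂ, 1 < s.re → HasSum (fun 𝔞 : {𝔞 : Ideal (𝓞 k) // 𝔞 ≠ ⊥ ∧ IsCoprime 𝔞 𝔣 ∧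
        art 𝔞 = g} => ((absNorm 𝔞.1 : ℕ) : ℂ) ^ (-s)) (Z s)) ∧
      deriv Z 0 = ((-Real.log (‖ι (g ((x : 𝓞 K) : K))‖ ^ 2) : ℝ) : ℂ)) ∧
      ∀ φ : K →+* ℂ, (∀ y : k, conj (φ (algebraMap k K y)) = φ (algebraMap k K y)) →
        ‖φ ((x : 𝓞 K) : K)‖ = 1 := by
  classical
  have hgk : IsGalois k K := IsGalois.tower_top_of_isGalois F k K
  have hfd := finite_dual hab
  have hft : Fintype ((K ≃ₐ[k] K) →* ℂˣ) := Fintype.ofFinite _
  obtain ⟨s, hs1, hs2, hs3⟩ := exists_s (F := F) ι hι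
  -- degrees
  have hdeg := InfinitePlace.card_add_two_mul_card_eq_rank k
  have hpl := InfinitePlace.card_eq_nrRealPlaces_add_nrComplexPlaces k
  have hev : 2 * finrank ℚ F = finrank ℚ k := by
    rw [← finrank_mul_finrank ℚ F k, h2, mul_comm]
  have hpl3 : 3 ≤ Fintype.card (InfinitePlace k) := by omega
  have hd3 : 3 ≤ finrank ℚ k := by omega
  have hrr : nrRealPlaces k - 1 = finrank ℚ k - 3 := by omega
  rw [hrr] at hcard
  -- the primes dividing the conductor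
  have hfin := fin_S h
  set S := hfin.toFinset with hSd
  have hS : ∀ q, q ∈ S ↔ ¬ IsCoprime q.asIdeal 𝔣 := fun q => hfin.mem_toFinset
  have hTS : ∀ p ∈ T, (∀ q : HeightOneSpectrum (𝓞 k), q.asIdeal.under (𝓞 F) = p.asIdeal →
      q ∈ S) ∨ ∃ P : Ideal (𝓞 K), P.IsPrime ∧ P.LiesOver p.asIdeal ∧
        ∀ x : 𝓞 K, s • x - x ∈ P := by
    intro p hp
    rcases hT p hp with h5 | ⟨P, hP1, hP2, s', hs', h5⟩
    · left
      intro q hq
      rw [hS]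
      intro h3
      have h4 := h5 q.asIdeal q.isPrime ⟨hq.symm⟩
      rw [Ideal.isCoprime_iff_sup_eq, sup_eq_left.mpr h4] at h3
      exact q.isPrime.ne_top h3
    · right
      have h6 : s' = s := by
        ext x
        apply ι.injective
        rw [← hs', hs1]
      rw [h6] at h5
      exact ⟨P, hP1, hP2, h5⟩
  -- the data of the characters
  have hdat : ∀ χ, TotOdd 𝔣 art χ → Dat F s χ := by
    intro χ hχ
    obtain ⟨e1, e2, e3⟩ := hodd χ hχ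
    refine ⟨h2, hs2, hs3, fun g g' hg => e3 s ?_ g g' ?_, e1, e2⟩
    · by_contra hne
      push Not at hne
      apply hs3
      refine ⟨{ s.toRingEquiv with commutes' := hne }, ?_⟩
      ext x
      rfl
    · intro x
      have h3 : (rs F g' * s) x = (s * rs F g) x := by
        rw [hg, inv_mul_cancel_right]
      exact h3
  have hinv : ∀ χ, TotOdd 𝔣 art χ → TotOdd 𝔣 art χ⁻¹ := by
    intro χ hχ x h0 h1
    rw [MonoidHom.inv_apply, hχ x h0 h1, ← inv_pow, inv_neg_one]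
  have hii : ∀ χ : (K ≃ₐ[k] K) →* ℂˣ, χ⁻¹⁻¹ = χ := fun χ => by
    ext g
    rw [MonoidHom.inv_apply, MonoidHom.inv_apply, inv_inv]
  have hne : ∀ χ, TotOdd 𝔣 art χ → χ⁻¹ ≠ χ := by
    intro χ hχ h3
    obtain ⟨-, ⟨g, e2⟩, -⟩ := hodd χ hχ
    apply e2
    have h4 : χ⁻¹ g = χ g := by rw [h3]
    rw [MonoidHom.inv_apply] at h4
    rw [sq]
    nth_rewrite 1 [← h4]
    exact inv_mul_cancel _
  have hch := fun χ (hχ : TotOdd 𝔣 art χ) => chi_final (hdat χ hχ) hs1 T S hTS hd3 hcard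
  choose! G hG1 hG2 hG3 hG4 hG5 x hx1 hx2 using hch
  -- the order
  obtain ⟨e⟩ : Nonempty (((K ≃ₐ[k] K) →* ℂˣ) ≃ Fin (Fintype.card ((K ≃ₐ[k] K) →* ℂˣ))) :=
    ⟨Fintype.equivFin _⟩
  let en : ((K ≃ₐ[k] K) →* ℂˣ) → ℕ := fun χ => (e χ : ℕ)
  have hen : Function.Injective en := fun a b hab' => e.injective (Fin.ext hab')
  let D : ((K ≃ₐ[k] K) →* ℂˣ) → ℂ := fun χ =>
    if TotOdd 𝔣 art χ then
      (if en χ < en χ⁻¹ then deriv (G χ) 0 * ∏ q ∈ S, (1 - ak χ q)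
        else deriv (G χ⁻¹) 0 * ∏ q ∈ S, (1 - ak χ q))
    else 0
  have hD : ∀ χ, Con (psi h χ) (D χ) := by
    intro χ
    by_cases hχ : TotOdd 𝔣 art χ
    · by_cases hlt : en χ < en χ⁻¹
      · have h3 : D χ = deriv (G χ) 0 * ∏ q ∈ S, (1 - ak χ q) := by
          simp only [D, if_pos hχ, if_pos hlt]
        rw [h3]
        exact Con.of_G h χ S hS (hG1 χ hχ) (hG2 χ hχ) (hG3 χ hχ) (hG4 χ hχ)
      · have h3 : D χ = deriv (G χ⁻¹) 0 * ∏ q ∈ S, (1 - ak χ q) := by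
          simp only [D, if_pos hχ, if_neg hlt]
        rw [h3]
        have hχ' := hinv χ hχ
        refine Con.of_G h χ S hS (hG1 _ hχ') (hG2 _ hχ') (hG3 _ hχ') ?_
        have h4 := hG5 χ⁻¹ hχ'
        rw [hii] at h4
        exact h4
    · have h3 : D χ = 0 := by simp only [D, if_neg hχ]
      rw [h3]
      exact Con.other h χ hpl3 (by omega) hχ
  set R := Finset.univ.filter (fun χ : (K ≃ₐ[k] K) →* ℂˣ => TotOdd 𝔣 art χ ∧ en χ < en χ⁻¹) with hR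
  have hcoe : (((∏ χ ∈ R, x χ : (𝓞 K)ˣ) : 𝓞 K) : K) = ∏ χ ∈ R, ((x χ : 𝓞 K) : K) := by
    rw [Units.coe_prod]
    exact map_prod (algebraMap (𝓞 K) K) _ _
  have hn0 : (Nat.card (K ≃ₐ[k] K) : ℂ) ≠ 0 := by exact_mod_cast Nat.card_pos.ne'
  refine ⟨∏ χ ∈ R, x χ, ?_, ?_⟩
  · intro g
    obtain ⟨Z, hZ1, hZ2, hZ3, hZ4⟩ := partial_zeta h hab hD g
    refine ⟨Z, hZ1, hZ2, hZ3, ?_⟩
    rw [hZ4, sum_pairs en hen (fun χ => χ⁻¹) hii (TotOdd 𝔣 art) hinv hne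
      (fun χ => conj ((χ g : ℂˣ) : ℂ) * D χ) (fun χ hχ => by
        have h3 : D χ = 0 := by simp only [D, if_neg hχ]
        rw [h3, mul_zero])]
    have h4 : ∀ χ ∈ R, conj ((χ g : ℂˣ) : ℂ) * D χ + conj ((χ⁻¹ g : ℂˣ) : ℂ) * D χ⁻¹ =
        ((-(Nat.card (K ≃ₐ[k] K) * Real.log (‖ι (g ((x χ : 𝓞 K) : K))‖ ^ 2)) : ℝ) : ℂ) := by
      intro χ hχ
      obtain ⟨hχ1, hχ2⟩ := (Finset.mem_filter.mp hχ).2
      have h5 : D χ = deriv (G χ) 0 * ∏ q ∈ S, (1 - ak χ q) := by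
        simp only [D, if_pos hχ1, if_pos hχ2]
      have h6 : D χ⁻¹ = deriv (G χ) 0 * ∏ q ∈ S, (1 - ak χ⁻¹ q) := by
        simp only [D, if_pos (hinv χ hχ1), hii, if_neg (not_lt.mpr hχ2.le)]
      rw [h5, h6]
      exact hx1 χ hχ1 g
    rw [Finset.sum_congr rfl h4, hcoe, map_prod, map_prod, norm_prod]
    have h7 : ∀ χ, (0 : ℝ) < ‖ι (g ((x χ : 𝓞 K) : K))‖ := by
      intro χ
      rw [norm_pos_iff, Ne, map_eq_zero, map_eq_zero]
      exact u_ne (x χ)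
    rw [← Finset.prod_pow, Real.log_prod (fun χ _ => (pow_pos (h7 χ) 2).ne')]
    push_cast
    rw [Finset.mul_sum, ← Finset.sum_neg_distrib]
    refine Finset.sum_congr rfl fun χ _ => ?_
    field_simp
  · intro φ hφ
    rw [hcoe, map_prod, norm_prod]
    exact Finset.prod_eq_one fun χ hχ => hx2 χ (Finset.mem_filter.mp hχ).2.1 φ hφ

end Pool.Agent.L0h48.DS
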