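import Pool.Agent.L0h48.DS.Un

/-!
# A generator of the units of relative norm one
-/

set_option autoImplicit false
set_option linter.unusedSectionVars false

namespace Pool.Agent.L0h48.DS

open NumberField NumberField.InfinitePlace Module

section tors

variable {K : Type} [Field K] [NumberField K]

lemma torsion_real {w : InfinitePlace K} (hw : w.IsReal) {x : (𝓞 K)ˣ} (hx : x ∈ Units.torsion K) :
    x = 1 ∨ x = -1 := by
  obtain ⟨n, hn, hxn⟩ := isOfFinOrder_iff_pow_eq_one.mp ((CommGroup.mem_torsion _).mp hx)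
  set τ := embedding_of_isReal hw with hτ
  have h1 : (τ ((x : 𝓞 K) : K)) ^ n = 1 := by
    rw [← map_pow]
    have : (((x : 𝓞 K) : K)) ^ n = 1 := by
      have h2 := congrArg (fun z : (𝓞 K)ˣ => ((z : 𝓞 K) : K)) hxn
      simpa using h2
    rw [this, map_one]
  have h2 : |τ ((x : 𝓞 K) : K)| = 1 := by
    have h3 : |τ ((x : 𝓞 K) : K)| ^ n = 1 := by rw [← abs_pow, h1, abs_one]
    exact (pow_eq_one_iff_of_nonneg (abs_nonneg _) hn.ne').mp h3
  rcases (abs_eq zero_le_one).mp h2 with h3 | h3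
  · left
    apply Units.ext
    apply RingOfIntegers.ext
    apply τ.injective
    rw [h3]
    simp
  · right
    apply Units.ext
    apply RingOfIntegers.ext
    apply τ.injective
    rw [h3]
    simp

lemma neg_one_torsion : (-1 : (𝓞 K)ˣ) ∈ Units.torsion K := by
  rw [Units.torsion, CommGroup.mem_torsion, isOfFinOrder_iff_pow_eq_one]
  exact ⟨2, two_pos, by simp⟩

lemma mem_tors_iff {w : InfinitePlace K} (hw : w.IsReal) {x : (𝓞 K)ˣ} :
    x ∈ Units.torsion K ↔ x = 1 ∨ x = -1 := by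
  refine ⟨torsion_real hw, ?_⟩
  rintro (rfl | rfl)
  · exact one_mem _
  · exact neg_one_torsion

end tors

variable {M L : Type} [Field M] [NumberField M] [Field L] [NumberField L] [Algebra M L]
  {σ : L ≃ₐ[M] L} {w₁ : InfinitePlace L}

lemma place_us (w : InfinitePlace L) (x : (𝓞 L)ˣ) (hσ : σ * σ = 1) :
    w ((us σ x : 𝓞 L) : L) = (σ • w) ((x : 𝓞 L) : L) := by
  rw [us_coe, InfinitePlace.smul_apply]
  congr 1
  have h1 : σ⁻¹ = σ := inv_eq_of_mul_eq_one_right hσ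
  exact (DFunLike.congr_fun h1 _).symm

lemma u_ne (x : (𝓞 L)ˣ) : ((x : 𝓞 L) : L) ≠ 0 := by
  intro h
  exact x.ne_zero (RingOfIntegers.ext h)

/-- the absolute values of the units of relative norm one -/
lemma PlData.other (hP : PlData M L σ w₁) (hσ : σ * σ = 1) {x : (𝓞 L)ˣ} (hx : x ∈ Em σ)
    {w : InfinitePlace L} (h1 : w ≠ w₁) (h2 : w ≠ σ • w₁) : w ((x : 𝓞 L) : L) = 1 := by
  have hne : w.comap (algebraMap M L) ≠ w₁.comap (algebraMap M L) := by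
    intro h3
    rcases hP.abv w h3 with h4 | h4
    · exact h1 h4
    · exact h2 h4
  have h3 := (hP.cpx w hne).2.2
  have h4 := place_us w x hσ
  rw [us_of_Em hx, h3] at h4
  have h5 : w (((x⁻¹ : (𝓞 L)ˣ) : 𝓞 L) : L) = (w ((x : 𝓞 L) : L))⁻¹ := by
    rw [← map_inv₀]
    congr 1
    refine eq_inv_of_mul_eq_one_left ?_
    simp
  rw [h5] at h4
  have h6 : 0 ≤ w ((x : 𝓞 L) : L) := apply_nonneg _ _
  have h7 : w ((x : 𝓞 L) : L) ≠ 0 := by
    rw [Ne, map_eq_zero]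
    exact u_ne x
  have h8 : w ((x : 𝓞 L) : L) * w ((x : 𝓞 L) : L) = 1 := by
    nth_rewrite 1 [← h4]
    exact inv_mul_cancel₀ h7
  nlinarith

lemma place_inv (w : InfinitePlace L) (x : (𝓞 L)ˣ) :
    w (((x⁻¹ : (𝓞 L)ˣ) : 𝓞 L) : L) = (w ((x : 𝓞 L) : L))⁻¹ := by
  rw [← map_inv₀]
  congr 1
  refine eq_inv_of_mul_eq_one_left ?_
  simp

lemma PlData.second (_hP : PlData M L σ w₁) (hσ : σ * σ = 1) {x : (𝓞 L)ˣ} (hx : x ∈ Em σ) :
    (σ • w₁) ((x : 𝓞 L) : L) = (w₁ ((x : 𝓞 L) : L))⁻¹ := by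
  rw [← place_us w₁ x hσ, us_of_Em hx, place_inv]

/-- the logarithm at the first place -/
noncomputable def lgh (w : InfinitePlace L) : Additive (𝓞 L)ˣ →+ ℝ where
  toFun x := Real.log (w ((x.toMul : 𝓞 L) : L))
  map_zero' := by simp
  map_add' x y := by
    rw [toMul_add]
    have : (((x.toMul * y.toMul : (𝓞 L)ˣ) : 𝓞 L) : L) =
      ((x.toMul : 𝓞 L) : L) * ((y.toMul : 𝓞 L) : L) := by simp
    rw [this, map_mul, Real.log_mul]
    · rw [Ne, map_eq_zero]; exact u_ne _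
    · rw [Ne, map_eq_zero]; exact u_ne _

lemma lgh_apply (w : InfinitePlace L) (x : (𝓞 L)ˣ) :
    lgh w (Additive.ofMul x) = Real.log (w ((x : 𝓞 L) : L)) := rfl

lemma place_pos (w : InfinitePlace L) (x : (𝓞 L)ˣ) : 0 < w ((x : 𝓞 L) : L) := by
  refine lt_of_le_of_ne (apply_nonneg _ _) ?_
  rw [Ne, eq_comm, map_eq_zero]
  exact u_ne x

lemma PlData.tors (hP : PlData M L σ w₁) (hσ : σ * σ = 1) {x : (𝓞 L)ˣ} (hx : x ∈ Em σ)
    (h : w₁ ((x : 𝓞 L) : L) = 1) : x = 1 ∨ x = -1 := by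
  refine torsion_real hP.real ?_
  rw [Units.mem_torsion]
  intro w
  by_cases h1 : w = w₁
  · rw [h1, h]
  by_cases h2 : w = σ • w₁
  · rw [h2, hP.second hσ hx, h, inv_one]
  exact hP.other hσ hx h1 h2

lemma PlData.finite (hP : PlData M L σ w₁) (hσ : σ * σ = 1) :
    {x : (𝓞 L)ˣ | x ∈ Em σ ∧ |Real.log (w₁ ((x : 𝓞 L) : L))| ≤ 1}.Finite := by
  have h1 := NumberField.Embeddings.finite_of_norm_le L ℂ (Real.exp 1)
  refine Set.Finite.of_finite_image (f := fun x : (𝓞 L)ˣ => ((x : 𝓞 L) : L)) (h1.subset ?_) ?_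
  · rintro _ ⟨x, ⟨hx, hx1⟩, rfl⟩
    refine ⟨RingOfIntegers.isIntegral_coe _, fun φ => ?_⟩
    have h2 : ‖φ ((x : 𝓞 L) : L)‖ = (InfinitePlace.mk φ) ((x : 𝓞 L) : L) := rfl
    rw [h2]
    have hp := place_pos w₁ x
    have hle : ∀ y : ℝ, 0 < y → |Real.log y| ≤ 1 → y ≤ Real.exp 1 := by
      intro y hy hy1
      rw [← Real.exp_log hy]
      exact Real.exp_le_exp.mpr ((le_abs_self _).trans hy1)
    by_cases e1 : InfinitePlace.mk φ = w₁
    · rw [e1]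
      exact hle _ hp hx1
    by_cases e2 : InfinitePlace.mk φ = σ • w₁
    · rw [e2, hP.second hσ hx]
      refine hle _ (inv_pos.mpr hp) ?_
      rw [Real.log_inv, abs_neg]
      exact hx1
    rw [hP.other hσ hx e1 e2]
    exact Real.one_le_exp zero_le_one
  · intro x _ y _ h
    exact ext_u h

theorem exists_gen (hP : PlData M L σ w₁) (hσ : σ * σ = 1) : ∃ η, IsGen σ η := by
  classical
  let S : AddSubgroup ℝ := (Subgroup.toAddSubgroup (Em σ)).map (lgh w₁)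
  have hS : ∀ y, y ∈ S ↔ ∃ x ∈ Em σ, Real.log (w₁ ((x : 𝓞 L) : L)) = y := by
    intro y
    constructor
    · rintro ⟨x, hx, rfl⟩
      exact ⟨x.toMul, hx, rfl⟩
    · rintro ⟨x, hx, rfl⟩
      exact ⟨Additive.ofMul x, hx, rfl⟩
  have hfin : {y : ℝ | y ∈ S ∧ 0 < y ∧ y ≤ 1}.Finite := by
    refine ((hP.finite hσ).image
      (fun x : (𝓞 L)ˣ => Real.log (w₁ ((x : 𝓞 L) : L)))).subset ?_
    rintro y ⟨hy, h0, h1⟩
    obtain ⟨x, hx, rfl⟩ := (hS y).mp hy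
    refine ⟨x, ⟨hx, ?_⟩, rfl⟩
    rw [abs_of_pos h0]
    exact h1
  obtain ⟨a, ha0, ha⟩ : ∃ a : ℝ, 0 < a ∧ Disjoint (S : Set ℝ) (Set.Ioo 0 a) := by
    by_cases hne : {y : ℝ | y ∈ S ∧ 0 < y ∧ y ≤ 1}.Nonempty
    · obtain ⟨a, ha, hmin⟩ := Set.exists_min_image _ id hfin hne
      refine ⟨a, ha.2.1, ?_⟩
      rw [Set.disjoint_left]
      rintro y hy ⟨h0, h1⟩
      have := hmin y ⟨hy, h0, h1.le.trans ha.2.2⟩
      simp only [id] at this
      linarith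
    · refine ⟨1, one_pos, ?_⟩
      rw [Set.disjoint_left]
      rintro y hy ⟨h0, h1⟩
      exact hne ⟨y, hy, h0, h1.le⟩
  obtain ⟨b, hb⟩ := AddSubgroup.cyclic_of_isolated_zero ha0 ha
  have hbS : b ∈ S := by
    rw [hb]
    exact AddSubgroup.subset_closure rfl
  obtain ⟨η, hη, hηb⟩ := (hS b).mp hbS
  refine ⟨η, hη, fun x hx => ?_⟩
  have h1 : Real.log (w₁ ((x : 𝓞 L) : L)) ∈ S := (hS _).mpr ⟨x, hx, rfl⟩
  rw [hb, AddSubgroup.mem_closure_singleton] at h1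
  obtain ⟨k, hk⟩ := h1
  refine ⟨k, ?_⟩
  have h2 : x * (η ^ k)⁻¹ ∈ Em σ := (Em σ).mul_mem hx ((Em σ).inv_mem ((Em σ).zpow_mem hη k))
  have h3 : lgh w₁ (Additive.ofMul (x * (η ^ k)⁻¹)) = 0 := by
    rw [ofMul_mul, map_add, ofMul_inv, map_neg, ofMul_zpow, map_zsmul, lgh_apply, lgh_apply, hηb, hk]
    ring
  rw [lgh_apply] at h3
  have h4 : w₁ (((x * (η ^ k)⁻¹ : (𝓞 L)ˣ) : 𝓞 L) : L) = 1 := by
    have hp := place_pos w₁ (x * (η ^ k)⁻¹)
    rw [← Real.exp_log hp, h3, Real.exp_zero]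
  rcases hP.tors hσ h2 h4 with h5 | h5
  · left
    exact mul_inv_eq_one.mp h5
  · right
    rw [← neg_one_mul, ← h5, inv_mul_cancel_right]

end Pool.Agent.L0h48.DS
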