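import Mathlib

/-!
# The dihedral quotients: subgroups of the Galois group
-/

set_option autoImplicit false
set_option linter.unusedSectionVars false

namespace Pool.Agent.L0h48.DS

open Module

variable {F k K : Type} [Field F] [NumberField F] [Field k] [NumberField k] [Field K]
  [NumberField K] [Algebra F k] [Algebra k K] [Algebra F K] [IsScalarTower F k K] [IsGalois F K]

variable (F) in
/-- restriction of scalars -/
noncomputable abbrev rs : (K ≃ₐ[k] K) →* (K ≃ₐ[F] K) := AlgEquiv.restrictScalarsHom F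

lemma rs_inj : Function.Injective (rs F : (K ≃ₐ[k] K) →* (K ≃ₐ[F] K)) :=
  AlgEquiv.restrictScalarsHom_injective F

lemma rs_apply (g : K ≃ₐ[k] K) (x : K) : rs F g x = g x := rfl

/-- the hypotheses on a character of order four -/
structure Dat (F : Type) {k K : Type} [Field F] [NumberField F] [Field k] [NumberField k] [Field K]
    [NumberField K] [Algebra F k] [Algebra k K] [Algebra F K] [IsScalarTower F k K]
    (s : K ≃ₐ[F] K) (χ : (K ≃ₐ[k] K) →* ℂˣ) : Prop where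
  deg : finrank F k = 2
  inv : s * s = 1
  out : s ∉ (rs F : (K ≃ₐ[k] K) →* (K ≃ₐ[F] K)).range
  anti : ∀ g g' : K ≃ₐ[k] K, rs F g' = s * rs F g * s⁻¹ → χ g' = (χ g)⁻¹
  four : ∀ g, χ g ^ 4 = 1
  ex : ∃ g, χ g ^ 2 ≠ 1

variable {s : K ≃ₐ[F] K} {χ : (K ≃ₐ[k] K) →* ℂˣ}

lemma card_top (h2 : finrank F k = 2) :
    Nat.card (K ≃ₐ[F] K) = 2 * Nat.card (K ≃ₐ[k] K) := by
  have : IsGalois k K := IsGalois.tower_top_of_isGalois F k K
  rw [IsGalois.card_aut_eq_finrank, IsGalois.card_aut_eq_finrank, ← h2, finrank_mul_finrank]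

lemma index_rs (h2 : finrank F k = 2) :
    (rs F : (K ≃ₐ[k] K) →* (K ≃ₐ[F] K)).range.index = 2 := by
  have h1 := Subgroup.card_mul_index (rs F : (K ≃ₐ[k] K) →* (K ≃ₐ[F] K)).range
  rw [card_top h2] at h1
  have h3 : Nat.card (rs F : (K ≃ₐ[k] K) →* (K ≃ₐ[F] K)).range = Nat.card (K ≃ₐ[k] K) :=
    Nat.card_congr (MonoidHom.ofInjective rs_inj).symm.toEquiv
  rw [h3, mul_comm 2] at h1
  exact Nat.eq_of_mul_eq_mul_left Nat.card_pos h1

lemma Dat.sinv (h : Dat F s χ) : s⁻¹ = s := inv_eq_of_mul_eq_one_right h.inv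

lemma Dat.cases (h : Dat F s χ) (γ : K ≃ₐ[F] K) :
    ∃ g : K ≃ₐ[k] K, γ = rs F g ∨ γ = s * rs F g := by
  by_cases h1 : γ ∈ (rs F : (K ≃ₐ[k] K) →* (K ≃ₐ[F] K)).range
  · obtain ⟨g, hg⟩ := h1
    exact ⟨g, Or.inl hg.symm⟩
  · have h3 : s * γ ∈ (rs F : (K ≃ₐ[k] K) →* (K ≃ₐ[F] K)).range := by
      rw [Subgroup.mul_mem_iff_of_index_two (index_rs h.deg)]
      exact ⟨fun h4 => absurd h4 h.out, fun h4 => absurd h4 h1⟩
    obtain ⟨g, hg⟩ := h3
    refine ⟨g, Or.inr ?_⟩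
    rw [hg, ← mul_assoc, h.inv, one_mul]

lemma Dat.disj (h : Dat F s χ) (g g' : K ≃ₐ[k] K) : rs F g ≠ s * rs F g' := by
  intro h1
  apply h.out
  refine ⟨g * g'⁻¹, ?_⟩
  rw [map_mul, h1, map_inv, mul_inv_cancel_right]

lemma Dat.conj (h : Dat F s χ) (g : K ≃ₐ[k] K) :
    ∃ g' : K ≃ₐ[k] K, rs F g' = s * rs F g * s⁻¹ ∧ χ g' = (χ g)⁻¹ := by
  have hn := Subgroup.normal_of_index_eq_two (index_rs (K := K) h.deg)
  obtain ⟨g', hg'⟩ := hn.conj_mem (rs F g) ⟨g, rfl⟩ s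
  exact ⟨g', hg', h.anti g g' hg'⟩

/-- the subgroups `H_V` -/
noncomputable def HV (h : Dat F s χ) (V : Subgroup ℂˣ) : Subgroup (K ≃ₐ[F] K) where
  carrier := {γ | ∃ g : K ≃ₐ[k] K, χ g ∈ V ∧ (γ = rs F g ∨ γ = s * rs F g)}
  one_mem' := ⟨1, by rw [map_one]; exact V.one_mem, Or.inl (by rw [map_one])⟩
  mul_mem' := by
    rintro _ _ ⟨g, hg, hg'⟩ ⟨g₁, hg₁, hg₁'⟩
    rcases hg' with rfl | rfl <;> rcases hg₁' with rfl | rfl
    · exact ⟨g * g₁, by rw [map_mul]; exact V.mul_mem hg hg₁, Or.inl (by rw [map_mul])⟩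
    · obtain ⟨g', e1, e2⟩ := h.conj g
      refine ⟨g' * g₁, by rw [map_mul, e2]; exact V.mul_mem (V.inv_mem hg) hg₁, Or.inr ?_⟩
      rw [map_mul, e1, h.sinv]
      simp only [← mul_assoc]
      rw [h.inv, one_mul]
    · exact ⟨g * g₁, by rw [map_mul]; exact V.mul_mem hg hg₁, Or.inr (by rw [map_mul, mul_assoc])⟩
    · obtain ⟨g', e1, e2⟩ := h.conj g
      refine ⟨g' * g₁, by rw [map_mul, e2]; exact V.mul_mem (V.inv_mem hg) hg₁, Or.inl ?_⟩
      rw [map_mul, e1, h.sinv]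
      simp only [← mul_assoc]
  inv_mem' := by
    rintro _ ⟨g, hg, rfl | rfl⟩
    · exact ⟨g⁻¹, by rw [map_inv]; exact V.inv_mem hg, Or.inl (by rw [map_inv])⟩
    · obtain ⟨g', e1, e2⟩ := h.conj g⁻¹
      refine ⟨g', by rw [e2, map_inv, inv_inv]; exact hg, Or.inr ?_⟩
      rw [e1, map_inv, mul_inv_rev, h.sinv]
      simp only [← mul_assoc]
      rw [h.inv, one_mul]

lemma mem_HV (h : Dat F s χ) {V : Subgroup ℂˣ} {γ : K ≃ₐ[F] K} :
    γ ∈ HV h V ↔ ∃ g : K ≃ₐ[k] K, χ g ∈ V ∧ (γ = rs F g ∨ γ = s * rs F g) := Iff.rfl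

lemma rs_mem_HV (h : Dat F s χ) {V : Subgroup ℂˣ} {g : K ≃ₐ[k] K} :
    rs F g ∈ HV h V ↔ χ g ∈ V := by
  constructor
  · rintro ⟨g', h1, h2 | h2⟩
    · rw [rs_inj h2]
      exact h1
    · exact absurd h2 (h.disj _ _)
  · intro h1
    exact ⟨g, h1, Or.inl rfl⟩

lemma srs_mem_HV (h : Dat F s χ) {V : Subgroup ℂˣ} {g : K ≃ₐ[k] K} :
    s * rs F g ∈ HV h V ↔ χ g ∈ V := by
  constructor
  · rintro ⟨g', h1, h2 | h2⟩
    · exact absurd h2.symm (h.disj _ _)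
    · rw [rs_inj (mul_left_cancel h2)]
      exact h1
  · intro h1
    exact ⟨g, h1, Or.inr rfl⟩

lemma s_mem_HV (h : Dat F s χ) (V : Subgroup ℂˣ) : s ∈ HV h V :=
  ⟨1, by rw [map_one]; exact V.one_mem, Or.inr (by rw [map_one, mul_one])⟩

lemma HV_mono (h : Dat F s χ) {V W : Subgroup ℂˣ} (hVW : V ≤ W) : HV h V ≤ HV h W := by
  rintro γ ⟨g, h1, h2⟩
  exact ⟨g, hVW h1, h2⟩

lemma card_HV (h : Dat F s χ) (V : Subgroup ℂˣ) :
    Nat.card (HV h V) = 2 * Nat.card (V.comap χ) := by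
  set R := (rs F : (K ≃ₐ[k] K) →* (K ≃ₐ[F] K)).range with hR
  have h1 : (R.subgroupOf (HV h V)).index = 2 := by
    rw [Subgroup.index_eq_two_iff']
    refine ⟨⟨s, s_mem_HV h V⟩, fun b => ?_⟩
    rw [Subgroup.mem_subgroupOf, Subgroup.mem_subgroupOf, Subgroup.coe_mul,
      Subgroup.mul_mem_iff_of_index_two (index_rs h.deg)]
    by_cases hb : (b : K ≃ₐ[F] K) ∈ R
    · refine Or.inr ⟨hb, fun h4 => h.out (h4.mpr hb)⟩
    · exact Or.inl ⟨⟨fun h4 => absurd h4 h.out, fun h4 => absurd h4 hb⟩, hb⟩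
  have h2 := Subgroup.card_mul_index (R.subgroupOf (HV h V))
  rw [h1] at h2
  have h3 : Nat.card (R.subgroupOf (HV h V)) = Nat.card (V.comap χ) := by
    refine (Nat.card_congr (Equiv.ofBijective (fun g : V.comap χ =>
      (⟨⟨rs F (g : K ≃ₐ[k] K), (rs_mem_HV h).mpr g.2⟩, ⟨g, rfl⟩⟩ : R.subgroupOf (HV h V))) ?_)).symm
    constructor
    · intro g g' hg
      have h4 := congrArg (fun z : R.subgroupOf (HV h V) => ((z : HV h V) : K ≃ₐ[F] K)) hg
      exact Subtype.ext (rs_inj h4)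
    · rintro ⟨⟨γ, h4⟩, hg⟩
      obtain ⟨g, hg⟩ := Subgroup.mem_subgroupOf.mp hg
      change rs F g = γ at hg
      subst hg
      exact ⟨⟨g, (rs_mem_HV h).mp h4⟩, rfl⟩
  rw [← h2, h3, mul_comm]

lemma sq_one_cases {z : ℂ} (hz : z ^ 2 = 1) : z = 1 ∨ z = -1 := by
  have h : (z - 1) * (z + 1) = 0 := by linear_combination hz
  rcases mul_eq_zero.mp h with h | h
  · exact Or.inl (sub_eq_zero.mp h)
  · exact Or.inr (eq_neg_of_add_eq_zero_left h)

/-- an element with `χ c ^ 2 = -1` -/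
lemma Dat.exc (h : Dat F s χ) : ∃ c : K ≃ₐ[k] K, χ c ^ 2 = -1 := by
  obtain ⟨c, hc⟩ := h.ex
  refine ⟨c, ?_⟩
  have h4 := h.four c
  have h5 : (χ c ^ 2) ^ 2 = 1 := by rw [← pow_mul]; exact h4
  apply Units.ext
  have h6 : (((χ c ^ 2 : ℂˣ) : ℂ)) ^ 2 = 1 := by
    rw [← Units.val_pow_eq_pow_val, h5, Units.val_one]
  rcases sq_one_cases h6 with h7 | h7
  · exact absurd (Units.ext h7) hc
  · rw [h7]
    simp

lemma val_cases (h : Dat F s χ) {c : K ≃ₐ[k] K} (hc : χ c ^ 2 = -1) (g : K ≃ₐ[k] K) :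
    χ g = 1 ∨ χ g = -1 ∨ χ g = χ c ∨ χ g = -χ c := by
  have h4 := h.four g
  have h5 : (((χ g : ℂˣ) : ℂ) ^ 2) ^ 2 = 1 := by
    rw [← pow_mul, ← Units.val_pow_eq_pow_val]
    change (((χ g ^ 4 : ℂˣ)) : ℂ) = 1
    rw [h4, Units.val_one]
  have hc' : ((χ c : ℂˣ) : ℂ) ^ 2 = -1 := by
    rw [← Units.val_pow_eq_pow_val, hc]
    simp
  rcases sq_one_cases h5 with h6 | h6
  · rcases sq_one_cases h6 with h7 | h7
    · exact Or.inl (Units.ext h7)
    · exact Or.inr (Or.inl (Units.ext (by rw [h7]; simp)))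
  · have h8 : (((χ g : ℂˣ) : ℂ) - ((χ c : ℂˣ) : ℂ)) * (((χ g : ℂˣ) : ℂ) + ((χ c : ℂˣ) : ℂ)) = 0 := by
      linear_combination h6 - hc'
    rcases mul_eq_zero.mp h8 with h9 | h9
    · exact Or.inr (Or.inr (Or.inl (Units.ext (sub_eq_zero.mp h9))))
    · exact Or.inr (Or.inr (Or.inr (Units.ext (by
        rw [Units.val_neg]
        exact eq_neg_of_add_eq_zero_left h9))))

/-- the subgroup `{1, -1}` -/
def V2 : Subgroup ℂˣ := Subgroup.zpowers (-1)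

lemma mem_V2 {x : ℂˣ} : x ∈ V2 ↔ x = 1 ∨ x = -1 := by
  constructor
  · rintro ⟨n, rfl⟩
    rcases Int.even_or_odd n with hn | hn
    · left
      exact hn.neg_one_zpow
    · right
      exact hn.neg_one_zpow
  · rintro (rfl | rfl)
    · exact one_mem _
    · exact Subgroup.mem_zpowers _

lemma neg_one_ne : (-1 : ℂˣ) ≠ 1 := by
  intro h
  have := congrArg Units.val h
  norm_num at this

lemma card_comap (h : Dat F s χ) :
    Nat.card (K ≃ₐ[k] K) = 2 * Nat.card (V2.comap χ) ∧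
      Nat.card (V2.comap χ) = 2 * Nat.card ((⊥ : Subgroup ℂˣ).comap χ) := by
  obtain ⟨c, hc⟩ := h.exc
  have hcV : χ c ∉ V2 := by
    rw [mem_V2]
    rintro (h1 | h1) <;> rw [h1] at hc
    · rw [one_pow] at hc
      exact neg_one_ne hc.symm
    · rw [neg_one_sq] at hc
      exact neg_one_ne hc.symm
  have hi1 : (V2.comap χ).index = 2 := by
    rw [Subgroup.index_eq_two_iff']
    refine ⟨c, fun b => ?_⟩
    rw [Subgroup.mem_comap, Subgroup.mem_comap, map_mul]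
    have hcc : χ c * χ c ∈ V2 := by
      rw [← sq, hc, mem_V2]
      exact Or.inr rfl
    by_cases hb : χ b ∈ V2
    · exact Or.inr ⟨hb, fun h4 => hcV ((Subgroup.mul_mem_cancel_right _ hb).mp h4)⟩
    · refine Or.inl ⟨?_, hb⟩
      rcases val_cases h hc b with h1 | h1 | h1 | h1
      · exact absurd (mem_V2.mpr (Or.inl h1)) hb
      · exact absurd (mem_V2.mpr (Or.inr h1)) hb
      · rw [h1]
        exact hcc
      · rw [h1, mul_neg, ← neg_one_mul]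
        exact V2.mul_mem (mem_V2.mpr (Or.inr rfl)) hcc
  have hi2 : ((((⊥ : Subgroup ℂˣ).comap χ)).subgroupOf (V2.comap χ)).index = 2 := by
    rw [Subgroup.index_eq_two_iff']
    have hc2 : χ (c * c) = -1 := by rw [map_mul, ← sq, hc]
    refine ⟨⟨c * c, by rw [Subgroup.mem_comap, hc2, mem_V2]; exact Or.inr rfl⟩, fun b => ?_⟩
    change Xor (χ ((c * c) * (b : K ≃ₐ[k] K)) ∈ (⊥ : Subgroup ℂˣ)) (χ (b : K ≃ₐ[k] K) ∈ (⊥ : Subgroup ℂˣ))
    rw [map_mul, hc2, Subgroup.mem_bot, Subgroup.mem_bot]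
    rcases mem_V2.mp (Subgroup.mem_comap.mp b.2) with hb | hb
    · rw [hb]
      exact Or.inr ⟨rfl, by rw [mul_one]; exact neg_one_ne⟩
    · rw [hb]
      exact Or.inl ⟨by simp, neg_one_ne⟩
  have e1 := Subgroup.card_mul_index (V2.comap χ)
  have e2 := Subgroup.card_mul_index ((((⊥ : Subgroup ℂˣ).comap χ)).subgroupOf (V2.comap χ))
  rw [hi1] at e1
  rw [hi2] at e2
  have e3 : Nat.card ((((⊥ : Subgroup ℂˣ).comap χ)).subgroupOf (V2.comap χ)) =
      Nat.card ((⊥ : Subgroup ℂˣ).comap χ) :=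
    Nat.card_congr (Subgroup.subgroupOfEquivOfLe (Subgroup.comap_mono bot_le)).toEquiv
  rw [e3] at e2
  omega

/-- the quotient of two elements of `H_2` outside `H_1` -/
lemma index_two_mem (h : Dat F s χ) {a b : K ≃ₐ[F] K} (ha : a ∈ HV h V2) (ha' : a ∉ HV h ⊥)
    (hb : b ∈ HV h V2) (hb' : b ∉ HV h ⊥) : a⁻¹ * b ∈ HV h ⊥ := by
  have c1 := card_HV h V2
  have c2 := card_HV h ⊥
  obtain ⟨c3, c4⟩ := card_comap h
  have hle : HV h ⊥ ≤ HV h V2 := HV_mono h bot_le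
  have hi : ((HV h ⊥).subgroupOf (HV h V2)).index = 2 := by
    have e1 := Subgroup.card_mul_index ((HV h ⊥).subgroupOf (HV h V2))
    have e2 : Nat.card ((HV h ⊥).subgroupOf (HV h V2)) = Nat.card (HV h ⊥) :=
      Nat.card_congr (Subgroup.subgroupOfEquivOfLe hle).toEquiv
    rw [e2] at e1
    have e3 : 0 < Nat.card (HV h ⊥) := Nat.card_pos
    have e4 : Nat.card (HV h ⊥) * ((HV h ⊥).subgroupOf (HV h V2)).index =
        Nat.card (HV h ⊥) * 2 := by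
      rw [e1]
      omega
    exact Nat.eq_of_mul_eq_mul_left e3 e4
  have h1 : (⟨a, ha⟩ : HV h V2)⁻¹ * ⟨b, hb⟩ ∈ (HV h ⊥).subgroupOf (HV h V2) := by
    rw [Subgroup.mul_mem_iff_of_index_two hi, inv_mem_iff, Subgroup.mem_subgroupOf,
      Subgroup.mem_subgroupOf]
    exact ⟨fun h2 => absurd h2 ha', fun h2 => absurd h2 hb'⟩
  exact Subgroup.mem_subgroupOf.mp h1

/-- an element which acts on `L` as the nontrivial automorphism -/
def Out (h : Dat F s χ) (i : K ≃ₐ[F] K) : Prop := i ∈ HV h V2 ∧ i ∉ HV h ⊥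

end Pool.Agent.L0h48.DS
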