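import Pool.Agent.L0h48.DS.Grp
import Pool.Agent.L0h48.DS.Log

/-!
# The class function identity
-/

set_option autoImplicit false
set_option linter.unusedSectionVars false

namespace Pool.Agent.L0h48.DS

open Module NumberField
open Pool.Agent.K4H74.ST (indChar)
open Pool.Agent.K4H74.SC

section exn

variable {F E K : Type} [Field F] [Field E] [Field K] [NumberField F] [NumberField E]
  [NumberField K] [Algebra F E] [Algebra E K] [Algebra F K] [IsScalarTower F E K]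

/-- extension by zero -/
noncomputable def exn (χ : (K ≃ₐ[E] K) → ℂ) (γ : K ≃ₐ[F] K) : ℂ :=
  ∑ᶠ (h : K ≃ₐ[E] K) (_ : h.restrictScalars F = γ), χ h

lemma rS_inj : Function.Injective (fun h : K ≃ₐ[E] K => h.restrictScalars F) := by
  intro a b hab
  exact AlgEquiv.restrictScalars_injective F hab

lemma exn_res (χ : (K ≃ₐ[E] K) → ℂ) (h : K ≃ₐ[E] K) : exn χ (h.restrictScalars F) = χ h := by
  rw [exn, finsum_eq_single _ h, finsum_eq_single _ rfl]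
  · intro h1 h2
    exact absurd rfl h2
  · intro h' hh
    refine @finsum_of_isEmpty _ _ _ ⟨fun h1 => hh (rS_inj h1)⟩ _

lemma exn_not (χ : (K ≃ₐ[E] K) → ℂ) {γ : K ≃ₐ[F] K}
    (hγ : ∀ h : K ≃ₐ[E] K, h.restrictScalars F ≠ γ) : exn χ γ = 0 := by
  rw [exn]
  apply finsum_eq_zero_of_forall_eq_zero
  intro h
  exact @finsum_of_isEmpty _ _ _ ⟨fun h1 => hγ h h1⟩ _

lemma indChar_exn [Fintype (K ≃ₐ[F] K)] (χ : (K ≃ₐ[E] K) → ℂ) (γ : K ≃ₐ[F] K) :
    indChar F E K χ γ = (Nat.card (K ≃ₐ[E] K) : ℂ)⁻¹ * ∑ x : K ≃ₐ[F] K, exn χ (x⁻¹ * γ * x) := by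
  rw [indChar, finsum_eq_sum_of_fintype]
  rfl

end exn

variable {F k K : Type} [Field F] [NumberField F] [Field k] [NumberField k] [Field K]
  [NumberField K] [Algebra F k] [Algebra k K] [Algebra F K] [IsScalarTower F k K] [IsGalois F K]
  {s : K ≃ₐ[F] K} {χ : (K ≃ₐ[k] K) →* ℂˣ}

/-- a linear character as a function -/
noncomputable def cf (χ : (K ≃ₐ[k] K) →* ℂˣ) (g : K ≃ₐ[k] K) : ℂ := ((χ g : ℂˣ) : ℂ)

open Classical in
/-- the class function which vanishes after induction -/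
noncomputable def ph (h : Dat F s χ) (γ : K ≃ₐ[F] K) : ℂ :=
  exn (cf χ) γ + (if γ ∈ HV h V2 then 1 else 0) - 2 * (if γ ∈ HV h ⊥ then 1 else 0)

lemma exn_rs (χ : (K ≃ₐ[k] K) →* ℂˣ) (g : K ≃ₐ[k] K) : exn (cf χ) (rs F g) = ((χ g : ℂˣ) : ℂ) :=
  exn_res (cf χ) g

lemma exn_srs (h : Dat F s χ) (g : K ≃ₐ[k] K) : exn (cf χ) (s * rs F g) = 0 :=
  exn_not (cf χ) fun h' => h.disj h' g

lemma ne_neg_one : ((1 : ℂˣ) : ℂ) ≠ ((-1 : ℂˣ) : ℂ) := by norm_num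

lemma ph_rs_conj (h : Dat F s χ) (g g' : K ≃ₐ[k] K) (hg : χ g' = (χ g)⁻¹) :
    ph h (rs F g') = -ph h (rs F g) := by
  classical
  obtain ⟨c, hc⟩ := h.exc
  rw [ph, ph, exn_rs, exn_rs]
  simp only [rs_mem_HV, mem_V2, Subgroup.mem_bot]
  have hne := neg_one_ne
  have hc1 : χ c ≠ 1 := by
    intro h1
    rw [h1, one_pow] at hc
    exact hne hc.symm
  have hc2 : χ c ≠ -1 := by
    intro h1
    rw [h1, neg_one_sq] at hc
    exact hne hc.symm
  have hci : (χ c)⁻¹ = -χ c := by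
    rw [inv_eq_iff_mul_eq_one, mul_neg, ← sq, hc, neg_neg]
  have hc3 : -χ c ≠ 1 := fun h1 => hc2 (by rw [← h1, neg_neg])
  have hc4 : -χ c ≠ -1 := fun h1 => hc1 (neg_injective h1)
  rcases val_cases h hc g with h1 | h1 | h1 | h1
  · rw [h1, inv_one] at hg
    rw [hg, h1]
    simp
    norm_num
  · have h2 : (-1 : ℂˣ)⁻¹ = -1 := by simp
    rw [h1, h2] at hg
    rw [hg, h1]
    simp [hne]
  · rw [h1, hci] at hg
    rw [hg, h1]
    simp [hc1, hc2, hc3, hc4]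
  · rw [h1, inv_neg, hci, neg_neg] at hg
    rw [hg, h1]
    simp [hc1, hc2, hc3, hc4]

lemma ph_srs_conj (h : Dat F s χ) (g g' : K ≃ₐ[k] K) (hg : χ g' = -χ g) :
    ph h (s * rs F g') = -ph h (s * rs F g) := by
  classical
  obtain ⟨c, hc⟩ := h.exc
  rw [ph, ph, exn_srs h, exn_srs h]
  simp only [srs_mem_HV, mem_V2, Subgroup.mem_bot]
  have hne := neg_one_ne
  have hc1 : χ c ≠ 1 := by
    intro h1
    rw [h1, one_pow] at hc
    exact hne hc.symm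
  have hc2 : χ c ≠ -1 := by
    intro h1
    rw [h1, neg_one_sq] at hc
    exact hne hc.symm
  have hc3 : -χ c ≠ 1 := fun h1 => hc2 (by rw [← h1, neg_neg])
  have hc4 : -χ c ≠ -1 := fun h1 => hc1 (neg_injective h1)
  rcases val_cases h hc g with h1 | h1 | h1 | h1
  · rw [h1] at hg
    rw [hg, h1]
    simp [hne]
    norm_num
  · rw [h1, neg_neg] at hg
    rw [hg, h1]
    simp [hne]
    norm_num
  · rw [h1] at hg
    rw [hg, h1]
    simp [hc1, hc2, hc3, hc4]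
  · rw [h1, neg_neg] at hg
    rw [hg, h1]
    simp [hc1, hc2, hc3, hc4]

/-- conjugating an element outside `Gal(K/k)` by `c` -/
lemma Dat.conjc (h : Dat F s χ) {c : K ≃ₐ[k] K} (hc : χ c ^ 2 = -1) (g : K ≃ₐ[k] K) :
    ∃ g' : K ≃ₐ[k] K, (rs F c)⁻¹ * (s * rs F g) * rs F c = s * rs F g' ∧ χ g' = -χ g := by
  obtain ⟨c', e1, e2⟩ := h.conj c⁻¹
  refine ⟨c' * g * c, ?_, ?_⟩
  · rw [map_mul, map_mul, e1, map_inv, h.sinv]
    simp only [← mul_assoc]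
    rw [h.inv, one_mul]
  · rw [map_mul, map_mul, e2, map_inv, inv_inv, mul_right_comm, ← sq, hc, neg_one_mul]

lemma sum_ph [Fintype (K ≃ₐ[F] K)] (h : Dat F s χ) (γ : K ≃ₐ[F] K) :
    ∑ x : K ≃ₐ[F] K, ph h (x⁻¹ * γ * x) = 0 := by
  have hn := Subgroup.normal_of_index_eq_two (index_rs (K := K) h.deg)
  -- a general principle
  have key : ∀ y : K ≃ₐ[F] K, (∀ x : K ≃ₐ[F] K, ph h (y⁻¹ * (x⁻¹ * γ * x) * y) =
      -ph h (x⁻¹ * γ * x)) → ∑ x : K ≃ₐ[F] K, ph h (x⁻¹ * γ * x) = 0 := by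
    intro y hy
    have h1 : ∑ x : K ≃ₐ[F] K, ph h (x⁻¹ * γ * x) =
        ∑ x : K ≃ₐ[F] K, ph h ((x * y)⁻¹ * γ * (x * y)) :=
      (Equiv.sum_comp (Equiv.mulRight y) (fun x => ph h (x⁻¹ * γ * x))).symm
    have h2 : ∑ x : K ≃ₐ[F] K, ph h ((x * y)⁻¹ * γ * (x * y)) =
        -∑ x : K ≃ₐ[F] K, ph h (x⁻¹ * γ * x) := by
      rw [← Finset.sum_neg_distrib]
      refine Finset.sum_congr rfl fun x _ => ?_
      rw [← hy x]
      have h9 : (x * y)⁻¹ * γ * (x * y) = y⁻¹ * (x⁻¹ * γ * x) * y := by group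
      rw [h9]
    rw [h2] at h1
    have h3 : (2 : ℂ) * ∑ x : K ≃ₐ[F] K, ph h (x⁻¹ * γ * x) = 0 := by linear_combination h1
    exact (mul_eq_zero.mp h3).resolve_left two_ne_zero
  by_cases hγ : γ ∈ (rs F : (K ≃ₐ[k] K) →* (K ≃ₐ[F] K)).range
  · refine key s fun x => ?_
    obtain ⟨g, hg⟩ : x⁻¹ * γ * x ∈ (rs F : (K ≃ₐ[k] K) →* (K ≃ₐ[F] K)).range := by
      have := hn.conj_mem γ hγ x⁻¹
      rwa [inv_inv] at this
    rw [← hg]
    obtain ⟨g', e1, e2⟩ := h.conj g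
    have e3 : s⁻¹ * rs F g * s = rs F g' := by rw [e1, h.sinv]
    rw [e3]
    exact ph_rs_conj h g g' e2
  · obtain ⟨c, hc⟩ := h.exc
    refine key (rs F c) fun x => ?_
    obtain ⟨g, hg | hg⟩ := h.cases (x⁻¹ * γ * x)
    · exfalso
      apply hγ
      have h1 := hn.conj_mem (x⁻¹ * γ * x) ⟨g, hg.symm⟩ x
      have h2 : x * (x⁻¹ * γ * x) * x⁻¹ = γ := by group
      rwa [h2] at h1
    · rw [hg]
      obtain ⟨g', e1, e2⟩ := h.conjc hc g
      rw [e1]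
      exact ph_srs_conj h g g' e2

/-- **the identity of induced characters** -/
theorem ind_eq (h : Dat F s χ) {M L : Type} [Field M] [NumberField M] [Field L] [NumberField L]
    [Algebra F M] [Algebra M K] [IsScalarTower F M K] [Algebra F L] [Algebra L K]
    [IsScalarTower F L K]
    (hM : ∀ γ : K ≃ₐ[F] K, γ ∈ HV h V2 ↔ ∃ h' : K ≃ₐ[M] K, h'.restrictScalars F = γ)
    (hL : ∀ γ : K ≃ₐ[F] K, γ ∈ HV h ⊥ ↔ ∃ h' : K ≃ₐ[L] K, h'.restrictScalars F = γ) :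
    indChar F k K (cf χ) + indChar F M K (fun _ => 1) = indChar F L K (fun _ => 1) := by
  classical
  have hft : Fintype (K ≃ₐ[F] K) := Fintype.ofFinite _
  have cM : Nat.card (K ≃ₐ[M] K) = Nat.card (HV h V2) := by
    refine Nat.card_congr (Equiv.ofBijective (fun h' =>
      (⟨h'.restrictScalars F, (hM _).mpr ⟨h', rfl⟩⟩ : HV h V2)) ⟨?_, ?_⟩)
    · intro a b hab
      exact rS_inj (congrArg Subtype.val hab)
    · rintro ⟨γ, hγ⟩
      obtain ⟨h', rfl⟩ := (hM _).mp hγ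
      exact ⟨h', rfl⟩
  have cL : Nat.card (K ≃ₐ[L] K) = Nat.card (HV h ⊥) := by
    refine Nat.card_congr (Equiv.ofBijective (fun h' =>
      (⟨h'.restrictScalars F, (hL _).mpr ⟨h', rfl⟩⟩ : HV h ⊥)) ⟨?_, ?_⟩)
    · intro a b hab
      exact rS_inj (congrArg Subtype.val hab)
    · rintro ⟨γ, hγ⟩
      obtain ⟨h', rfl⟩ := (hL _).mp hγ
      exact ⟨h', rfl⟩
  have c1 := card_HV h V2
  have c2 := card_HV h ⊥
  obtain ⟨c3, c4⟩ := card_comap h
  have d1 : Nat.card (K ≃ₐ[k] K) = 2 * Nat.card (K ≃ₐ[L] K) := by omega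
  have d2 : Nat.card (K ≃ₐ[M] K) = 2 * Nat.card (K ≃ₐ[L] K) := by omega
  have hne : (Nat.card (K ≃ₐ[L] K) : ℂ) ≠ 0 := by exact_mod_cast Nat.card_pos.ne'
  funext γ
  rw [Pi.add_apply, indChar_exn, indChar_exn, indChar_exn, d1, d2]
  have e1 : ∀ δ : K ≃ₐ[F] K, exn (E := M) (fun _ => 1) δ = if δ ∈ HV h V2 then 1 else 0 := by
    intro δ
    by_cases hδ : δ ∈ HV h V2
    · rw [if_pos hδ]
      obtain ⟨h', rfl⟩ := (hM _).mp hδ
      rw [exn_res]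
    · rw [if_neg hδ, exn_not]
      intro h' hh
      exact hδ ((hM _).mpr ⟨h', hh⟩)
  have e2 : ∀ δ : K ≃ₐ[F] K, exn (E := L) (fun _ => 1) δ = if δ ∈ HV h ⊥ then 1 else 0 := by
    intro δ
    by_cases hδ : δ ∈ HV h ⊥
    · rw [if_pos hδ]
      obtain ⟨h', rfl⟩ := (hL _).mp hδ
      rw [exn_res]
    · rw [if_neg hδ, exn_not]
      intro h' hh
      exact hδ ((hL _).mpr ⟨h', hh⟩)
  have h3 := sum_ph h γ
  simp only [ph, Finset.sum_sub_distrib, Finset.sum_add_distrib, ← Finset.mul_sum] at h3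
  simp only [e1, e2]
  push_cast
  field_simp
  linear_combination h3

end Pool.Agent.L0h48.DS
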