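import Mathlib

/-!
# Quadratic extensions in which exactly one infinite place is unramified: the places
-/

set_option autoImplicit false
set_option linter.unusedSectionVars false

namespace Pool.Agent.L0h48.DS

open NumberField NumberField.InfinitePlace Module

variable {M L : Type} [Field M] [NumberField M] [Field L] [NumberField L] [Algebra M L]

section

variable [IsGalois M L]

open scoped Classical in
lemma card_unram (h2 : finrank M L = 2)
    (hc : Fintype.card (InfinitePlace L) = Fintype.card (InfinitePlace M) + 1) :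
    (Finset.univ.filter fun v : InfinitePlace M => v.IsUnramifiedIn L).card = 1 := by
  have h1 := card_eq_card_isUnramifiedIn M L
  rw [h2, Nat.div_self two_pos, mul_one, hc] at h1
  have h3 := Finset.card_add_card_compl
    (Finset.univ.filter fun v : InfinitePlace M => v.IsUnramifiedIn L)
  omega

open scoped Classical in
/-- the number of unramified places in general -/
lemma card_unram' (h2 : finrank M L = 2) :
    Fintype.card (InfinitePlace L) = Fintype.card (InfinitePlace M) +
      (Finset.univ.filter fun v : InfinitePlace M => v.IsUnramifiedIn L).card := by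
  have h1 := card_eq_card_isUnramifiedIn M L
  rw [h2, Nat.div_self two_pos, mul_one] at h1
  have h3 := Finset.card_add_card_compl
    (Finset.univ.filter fun v : InfinitePlace M => v.IsUnramifiedIn L)
  omega

/-- the data of the places -/
structure PlData (M L : Type) [Field M] [NumberField M] [Field L] [NumberField L] [Algebra M L]
    (σ : L ≃ₐ[M] L) (w₁ : InfinitePlace L) : Prop where
  real : w₁.IsReal
  ne : σ • w₁ ≠ w₁
  abv : ∀ w : InfinitePlace L, w.comap (algebraMap M L) = w₁.comap (algebraMap M L) →
    w = w₁ ∨ w = σ • w₁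
  cpx : ∀ w : InfinitePlace L, w.comap (algebraMap M L) ≠ w₁.comap (algebraMap M L) →
    w.IsComplex ∧ (w.comap (algebraMap M L)).IsReal ∧ σ • w = w
  uniq : ∀ w w' : InfinitePlace L, w.comap (algebraMap M L) = w'.comap (algebraMap M L) →
    w.comap (algebraMap M L) ≠ w₁.comap (algebraMap M L) → w = w'

lemma eq_one_or (h2 : finrank M L = 2) {σ : L ≃ₐ[M] L} (hσ : σ ≠ 1) (g : L ≃ₐ[M] L) :
    g = 1 ∨ g = σ := by
  classical
  have hc : Nat.card (L ≃ₐ[M] L) = 2 := by rw [IsGalois.card_aut_eq_finrank, h2]
  have : Fintype (L ≃ₐ[M] L) := Fintype.ofFinite _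
  rw [Nat.card_eq_fintype_card] at hc
  by_contra hne
  push Not at hne
  have h3 : ({1, σ, g} : Finset (L ≃ₐ[M] L)).card = 3 := by
    rw [Finset.card_eq_three]
    exact ⟨1, σ, g, hσ.symm, hne.1.symm, hne.2.symm, rfl⟩
  have h4 := Finset.card_le_univ ({1, σ, g} : Finset (L ≃ₐ[M] L))
  omega

lemma sq_eq_one (h2 : finrank M L = 2) {σ : L ≃ₐ[M] L} (hσ : σ ≠ 1) : σ * σ = 1 := by
  rcases eq_one_or h2 hσ (σ * σ) with h | h
  · exact h
  · exact absurd (mul_eq_left.mp h) hσ

theorem plData (h2 : finrank M L = 2) {σ : L ≃ₐ[M] L} (hσ : σ ≠ 1)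
    (hc : Fintype.card (InfinitePlace L) = Fintype.card (InfinitePlace M) + 1)
    {w₁ : InfinitePlace L} (hw : w₁.IsReal) : PlData M L σ w₁ := by
  classical
  have h1 := card_unram h2 hc
  have hv : (w₁.comap (algebraMap M L)).IsUnramifiedIn L :=
    isUnramifiedIn_comap.mpr (IsReal.isUnramified M hw)
  have huniq : ∀ v : InfinitePlace M, v ≠ w₁.comap (algebraMap M L) → ¬ v.IsUnramifiedIn L := by
    intro v hne hun
    rw [Finset.card_eq_one] at h1
    obtain ⟨a, ha⟩ := h1
    have e1 : v ∈ Finset.univ.filter fun v : InfinitePlace M => v.IsUnramifiedIn L := by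
      simp [hun]
    have e2 : w₁.comap (algebraMap M L) ∈
        Finset.univ.filter fun v : InfinitePlace M => v.IsUnramifiedIn L := by
      simp [hv]
    rw [ha, Finset.mem_singleton] at e1 e2
    exact hne (e1.trans e2.symm)
  have hram : ∀ w : InfinitePlace L, w.comap (algebraMap M L) ≠ w₁.comap (algebraMap M L) →
      w.IsRamified M := by
    intro w hne
    rcases isUnramified_or_isRamified (k := M) (w := w) with h | h
    · exact absurd (isUnramifiedIn_comap.mpr h) (huniq _ hne)
    · exact h
  have hfix : ∀ w : InfinitePlace L, w.comap (algebraMap M L) ≠ w₁.comap (algebraMap M L) →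
      σ • w = w := by
    intro w hne
    have e1 := (isRamified_iff_card_stabilizer_eq_two).mp (hram w hne)
    have e2 : MulAction.stabilizer (L ≃ₐ[M] L) w = ⊤ := by
      refine Subgroup.eq_top_of_card_eq _ ?_
      rw [e1, IsGalois.card_aut_eq_finrank, h2]
    have e3 : σ ∈ MulAction.stabilizer (L ≃ₐ[M] L) w := by
      rw [e2]
      exact Subgroup.mem_top _
    exact e3
  refine ⟨hw, ?_, ?_, ?_, ?_⟩
  · intro he
    have e1 := (isUnramified_iff_stabilizer_eq_bot).mp (IsReal.isUnramified M hw)
    have e2 : σ ∈ MulAction.stabilizer (L ≃ₐ[M] L) w₁ := he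
    rw [e1, Subgroup.mem_bot] at e2
    exact hσ e2
  · intro w he
    obtain ⟨g, hg⟩ := exists_smul_eq_of_comap_eq he.symm
    rcases eq_one_or h2 hσ g with rfl | rfl
    · left
      rw [← hg, one_smul]
    · right
      exact hg.symm
  · intro w hne
    have e1 := isRamified_iff.mp (hram w hne)
    exact ⟨e1.1, e1.2, hfix w hne⟩
  · intro w w' he hne
    obtain ⟨g, hg⟩ := exists_smul_eq_of_comap_eq he
    rcases eq_one_or h2 hσ g with rfl | rfl
    · rw [← hg, one_smul]
    · rw [← hg, hfix w hne]

end

end Pool.Agent.L0h48.DS
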