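import Pool.Agent.L0h48.DS.Pl

/-!
# The units of relative norm one
-/

set_option autoImplicit false
set_option linter.unusedSectionVars false

namespace Pool.Agent.L0h48.DS

open NumberField NumberField.InfinitePlace Module

variable {M L : Type} [Field M] [NumberField M] [Field L] [NumberField L] [Algebra M L]

/-- the action on the units -/
noncomputable def us (σ : L ≃ₐ[M] L) : (𝓞 L)ˣ →* (𝓞 L)ˣ :=
  Units.map (MulSemiringAction.toRingHom (L ≃ₐ[M] L) (𝓞 L) σ : 𝓞 L →* 𝓞 L)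

lemma us_coe (σ : L ≃ₐ[M] L) (u : (𝓞 L)ˣ) : ((us σ u : 𝓞 L) : L) = σ ((u : 𝓞 L) : L) := rfl

lemma ext_u {u v : (𝓞 L)ˣ} (h : ((u : 𝓞 L) : L) = ((v : 𝓞 L) : L)) : u = v :=
  Units.ext (RingOfIntegers.ext h)

variable (M L) in
/-- the units of the base field -/
noncomputable def em : (𝓞 M)ˣ →* (𝓞 L)ˣ := Units.map (algebraMap (𝓞 M) (𝓞 L) : 𝓞 M →* 𝓞 L)

lemma em_coe (u : (𝓞 M)ˣ) : ((em M L u : 𝓞 L) : L) = algebraMap M L ((u : 𝓞 M) : M) := rfl

lemma us_em (σ : L ≃ₐ[M] L) (u : (𝓞 M)ˣ) : us σ (em M L u) = em M L u := by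
  apply ext_u
  rw [us_coe, em_coe, AlgEquiv.commutes]

lemma us_us {σ : L ≃ₐ[M] L} (h : σ * σ = 1) (u : (𝓞 L)ˣ) : us σ (us σ u) = u := by
  apply ext_u
  rw [us_coe, us_coe]
  change (σ * σ) _ = _
  rw [h]
  rfl

/-- the units of relative norm one -/
noncomputable def Em (σ : L ≃ₐ[M] L) : Subgroup (𝓞 L)ˣ := (MonoidHom.id _ * us σ).ker

lemma mem_Em {σ : L ≃ₐ[M] L} {u : (𝓞 L)ˣ} : u ∈ Em σ ↔ u * us σ u = 1 := Iff.rfl

lemma us_of_Em {σ : L ≃ₐ[M] L} {u : (𝓞 L)ˣ} (h : u ∈ Em σ) : us σ u = u⁻¹ :=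
  (inv_eq_of_mul_eq_one_right (mem_Em.mp h)).symm

/-- `u ↦ u / σ u` -/
noncomputable def dh (σ : L ≃ₐ[M] L) : (𝓞 L)ˣ →* (𝓞 L)ˣ := MonoidHom.id _ * (us σ)⁻¹

lemma dh_apply (σ : L ≃ₐ[M] L) (u : (𝓞 L)ˣ) : dh σ u = u * (us σ u)⁻¹ := rfl

lemma dh_range_le {σ : L ≃ₐ[M] L} (h : σ * σ = 1) : (dh σ).range ≤ Em σ := by
  rintro _ ⟨u, rfl⟩
  rw [mem_Em, dh_apply, map_mul, map_inv, us_us h]
  rw [mul_comm (us σ u), mul_mul_mul_comm, mul_inv_cancel, one_mul, inv_mul_cancel]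

/-- the squares of the units of relative norm one -/
noncomputable def Sq (σ : L ≃ₐ[M] L) : Subgroup (𝓞 L)ˣ := (Em σ).map (powMonoidHom 2)

lemma mem_Sq {σ : L ≃ₐ[M] L} {u : (𝓞 L)ˣ} : u ∈ Sq σ ↔ ∃ v ∈ Em σ, v ^ 2 = u := Iff.rfl

lemma Sq_le {σ : L ≃ₐ[M] L} : Sq σ ≤ (dh σ).range := by
  rintro _ ⟨v, hv, rfl⟩
  refine ⟨v, ?_⟩
  rw [dh_apply, us_of_Em hv, inv_inv, powMonoidHom_apply, sq]

section gal

variable [IsGalois M L]

lemma mem_em_range (h2 : finrank M L = 2) {σ : L ≃ₐ[M] L} (hσ : σ ≠ 1) {u : (𝓞 L)ˣ}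
    (h : us σ u = u) : u ∈ (em M L).range := by
  have hfix : ∀ v : (𝓞 L)ˣ, us σ v = v → ∃ y : 𝓞 M, algebraMap (𝓞 M) (𝓞 L) y = v := by
    intro v hv
    have h1 : ((v : 𝓞 L) : L) ∈ Set.range (algebraMap M L) := by
      refine (IsGalois.mem_range_algebraMap_iff_fixed _).mpr fun g => ?_
      rcases eq_one_or h2 hσ g with rfl | rfl
      · rfl
      · have := congrArg (fun z : (𝓞 L)ˣ => ((z : 𝓞 L) : L)) hv
        exact this
    obtain ⟨y, hy⟩ := h1
    have h3 : IsIntegral ℤ y := by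
      have h4 : IsIntegral ℤ (algebraMap M L y) := by
        rw [hy]
        exact RingOfIntegers.isIntegral_coe _
      exact (isIntegral_algebraMap_iff (FaithfulSMul.algebraMap_injective M L)).mp h4
    refine ⟨⟨y, h3⟩, ?_⟩
    apply RingOfIntegers.ext
    exact hy
  obtain ⟨y, hy⟩ := hfix u h
  obtain ⟨z, hz⟩ := hfix u⁻¹ (by rw [map_inv, h])
  have hinj : Function.Injective (algebraMap (𝓞 M) (𝓞 L)) := FaithfulSMul.algebraMap_injective _ _
  have hyz : y * z = 1 := by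
    apply hinj
    rw [map_mul, hy, hz, map_one]
    exact u.mul_inv
  refine ⟨⟨y, z, hyz, by rw [mul_comm]; exact hyz⟩, ?_⟩
  apply Units.ext
  exact hy

lemma comap_Sq (h2 : finrank M L = 2) {σ : L ≃ₐ[M] L} (hσ : σ ≠ 1) :
    (Sq σ).comap (dh σ) = (em M L).range ⊔ Em σ := by
  apply le_antisymm
  · intro x hx
    obtain ⟨y, hy, hxy⟩ := mem_Sq.mp (Subgroup.mem_comap.mp hx)
    have h1 : us σ (x * y⁻¹) = x * y⁻¹ := by
      rw [map_mul, map_inv, us_of_Em hy, inv_inv]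
      rw [dh_apply] at hxy
      have h3 : us σ x = x * (y ^ 2)⁻¹ := by
        rw [hxy, mul_inv, inv_inv, ← mul_assoc, mul_inv_cancel, one_mul]
      rw [h3, sq, mul_inv, ← mul_assoc, inv_mul_cancel_right]
    have h4 : x = (x * y⁻¹) * y := by rw [inv_mul_cancel_right]
    rw [h4]
    exact Subgroup.mul_mem_sup (mem_em_range h2 hσ h1) hy
  · rw [sup_le_iff]
    constructor
    · rintro _ ⟨u, rfl⟩
      rw [Subgroup.mem_comap, dh_apply, us_em, mul_inv_cancel]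
      exact Subgroup.one_mem _
    · intro x hx
      rw [Subgroup.mem_comap, dh_apply, us_of_Em hx, inv_inv]
      exact ⟨x, hx, by rw [powMonoidHom_apply, sq]⟩

/-- the two indices -/
theorem index_eq (h2 : finrank M L = 2) {σ : L ≃ₐ[M] L} (hσ : σ ≠ 1) :
    ((em M L).range ⊔ Em σ).index = (Sq σ).relIndex (dh σ).range := by
  rw [← comap_Sq h2 hσ, Subgroup.index_comap]

end gal

/-- an index dividing two -/
lemma relIndex_dvd_two {G : Type*} [CommGroup G] {H K : Subgroup G} (a : G) (ha : a ∈ K)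
    (ha2 : a * a ∈ H) (h : ∀ x ∈ K, x ∈ H ∨ x * a ∈ H) : H.relIndex K ∣ 2 := by
  by_cases haH : a ∈ H
  · have h1 : K ≤ H := by
      intro x hx
      rcases h x hx with h3 | h3
      · exact h3
      · have := H.mul_mem h3 (H.inv_mem haH)
        rwa [mul_inv_cancel_right] at this
    rw [Subgroup.relIndex_eq_one.mpr h1]
    exact one_dvd _
  · have h1 : H.relIndex K = 2 := by
      rw [Subgroup.relIndex, Subgroup.index_eq_two_iff]
      refine ⟨⟨a, ha⟩, fun b => ?_⟩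
      rw [Subgroup.mem_subgroupOf, Subgroup.mem_subgroupOf]
      rcases h b b.2 with h3 | h3
      · refine Or.inr ⟨h3, fun h4 => haH ?_⟩
        have := H.mul_mem (H.inv_mem h3) h4
        rwa [Subgroup.coe_mul, inv_mul_cancel_left] at this
      · refine Or.inl ⟨h3, fun h4 => haH ?_⟩
        have := H.mul_mem (H.inv_mem h4) h3
        rwa [inv_mul_cancel_left] at this
    rw [h1]

/-- a generator of the units of relative norm one -/
structure IsGen (σ : L ≃ₐ[M] L) (η : (𝓞 L)ˣ) : Prop where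
  mem : η ∈ Em σ
  gen : ∀ x ∈ Em σ, ∃ k : ℤ, x = η ^ k ∨ x = -η ^ k

lemma neg_one_mem (σ : L ≃ₐ[M] L) : (-1 : (𝓞 L)ˣ) ∈ Em σ := by
  rw [mem_Em]
  have : us σ (-1) = -1 := by
    apply ext_u
    rw [us_coe]
    simp
  rw [this]
  simp

lemma IsGen.kappa {σ : L ≃ₐ[M] L} {η : (𝓞 L)ˣ} (h : IsGen σ η) :
    (Sq σ).relIndex (Em σ) ∣ 4 := by
  have h1 : Sq σ ≤ Sq σ ⊔ Subgroup.zpowers (-1 : (𝓞 L)ˣ) := le_sup_left
  have h0 : Sq σ ≤ Em σ := by
    rintro _ ⟨v, hv, rfl⟩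
    exact (Em σ).pow_mem hv 2
  have h2 : Sq σ ⊔ Subgroup.zpowers (-1 : (𝓞 L)ˣ) ≤ Em σ := by
    rw [sup_le_iff]
    exact ⟨h0, by rw [Subgroup.zpowers_le]; exact neg_one_mem σ⟩
  rw [← Subgroup.relIndex_mul_relIndex _ _ _ h1 h2]
  have e1 : (Sq σ).relIndex (Sq σ ⊔ Subgroup.zpowers (-1 : (𝓞 L)ˣ)) ∣ 2 := by
    refine relIndex_dvd_two (-1) (Subgroup.mem_sup_right (Subgroup.mem_zpowers _)) ?_ ?_
    · simp
    · intro x hx
      obtain ⟨y, hy, z, hz, rfl⟩ := Subgroup.mem_sup.mp hx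
      obtain ⟨k, rfl⟩ := Subgroup.mem_zpowers_iff.mp hz
      rcases Int.even_or_odd k with hk | hk
      · left
        rw [hk.neg_one_zpow, mul_one]
        exact hy
      · right
        rw [hk.neg_one_zpow]
        simpa using hy
  have e2 : (Sq σ ⊔ Subgroup.zpowers (-1 : (𝓞 L)ˣ)).relIndex (Em σ) ∣ 2 := by
    refine relIndex_dvd_two η h.mem ?_ ?_
    · exact Subgroup.mem_sup_left ⟨η, h.mem, by rw [powMonoidHom_apply, sq]⟩
    · have hm : ∀ k : ℤ, η ^ (2 * k) ∈ Sq σ := fun k => ⟨η ^ k, (Em σ).zpow_mem h.mem k, by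
        rw [powMonoidHom_apply, ← zpow_natCast, ← zpow_mul, mul_comm]
        rfl⟩
      have hneg : ∀ x : (𝓞 L)ˣ, x ∈ Sq σ ⊔ Subgroup.zpowers (-1 : (𝓞 L)ˣ) →
          -x ∈ Sq σ ⊔ Subgroup.zpowers (-1 : (𝓞 L)ˣ) := by
        intro x hx
        have := Subgroup.mul_mem _ hx (Subgroup.mem_sup_right (S := Sq σ)
          (Subgroup.mem_zpowers (-1 : (𝓞 L)ˣ)))
        simpa using this
      intro x hx
      obtain ⟨k, hk⟩ := h.gen x hx
      rcases Int.even_or_odd' k with ⟨j, rfl | rfl⟩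
      · left
        rcases hk with rfl | rfl
        · exact Subgroup.mem_sup_left (hm j)
        · exact hneg _ (Subgroup.mem_sup_left (hm j))
      · right
        have h5 : η ^ (2 * j + 1) * η = η ^ (2 * (j + 1)) := by
          rw [← zpow_add_one]
          congr 1
          ring
        rcases hk with rfl | rfl
        · rw [h5]
          exact Subgroup.mem_sup_left (hm _)
        · rw [neg_mul, h5]
          exact hneg _ (Subgroup.mem_sup_left (hm _))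
  exact mul_dvd_mul e1 e2

end Pool.Agent.L0h48.DS
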