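import Pool.Agent.R362.HkFe
import Pool.Agent.Y772.NZ.Zeta

/-!
# The Dedekind zeta function at `s = 0`
-/

set_option autoImplicit false
set_option linter.unusedSectionVars false

namespace Pool.Agent.L0h48.DS

open NumberField NumberField.InfinitePlace Module Complex Filter Topology
open Pool.Agent.Y773 Pool.Agent.Y773.G Pool.Agent.R362.HL
open Pool.Agent.Y772.NZ (one one_ne one_norm LI_one)

section

variable (K : Type) [Field K] [NumberField K]

/-- the gamma factors -/
noncomputable def gp (s : ℂ) : ℂ := ∏ φ : K →+* ℂ, Gammaℝ (s + ex (fun _ => 0) φ)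

lemma ex_zero (φ : K →+* ℂ) [Decidable ((InfinitePlace.mk φ).embedding = φ)] :
    ex (fun _ : InfinitePlace K => 0) φ = if (InfinitePlace.mk φ).embedding = φ then 0 else 1 := by
  classical
  unfold ex
  by_cases h : (InfinitePlace.mk φ).IsReal
  · rw [if_pos h]
    have h1 : (InfinitePlace.mk φ).embedding = φ := by
      rcases InfinitePlace.mk_eq_iff.mp (InfinitePlace.mk_embedding (InfinitePlace.mk φ)) with h2 | h2
      · exact h2
      · have h3 : ComplexEmbedding.IsReal φ := InfinitePlace.isReal_mk_iff.mp h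
        rw [ComplexEmbedding.isReal_iff] at h3
        have h4 : ComplexEmbedding.conjugate
            (ComplexEmbedding.conjugate (InfinitePlace.mk φ).embedding) =
            (InfinitePlace.mk φ).embedding := star_star _
        rw [h2, h3] at h4
        exact h4.symm
    rw [if_pos h1]
  · rw [if_neg h]
    congr 1

open scoped Classical in
lemma gp_eq (s : ℂ) : gp K s = Gammaℝ s ^ Fintype.card (InfinitePlace K) *
    Gammaℝ (s + 1) ^ nrComplexPlaces K := by
  have h1 : gp K s = ∏ φ : K →+* ℂ,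
      if (InfinitePlace.mk φ).embedding = φ then Gammaℝ s else Gammaℝ (s + 1) := by
    refine Finset.prod_congr rfl fun φ _ => ?_
    rw [ex_zero]
    by_cases h : (InfinitePlace.mk φ).embedding = φ
    · rw [if_pos h, if_pos h, Nat.cast_zero, add_zero]
    · rw [if_neg h, if_neg h, Nat.cast_one]
  have hA : (Finset.univ.filter fun φ : K →+* ℂ => (InfinitePlace.mk φ).embedding = φ).card =
      Fintype.card (InfinitePlace K) := by
    rw [← Finset.card_univ]
    refine Finset.card_bij (fun φ _ => InfinitePlace.mk φ) (fun _ _ => Finset.mem_univ _) ?_ ?_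
    · intro φ hφ ψ hψ h
      rw [Finset.mem_filter] at hφ hψ
      rw [← hφ.2, ← hψ.2, h]
    · intro w _
      refine ⟨w.embedding, ?_, InfinitePlace.mk_embedding w⟩
      rw [Finset.mem_filter, InfinitePlace.mk_embedding]
      exact ⟨Finset.mem_univ _, rfl⟩
  have hB : (Finset.univ.filter fun φ : K →+* ℂ => ¬ (InfinitePlace.mk φ).embedding = φ).card =
      nrComplexPlaces K := by
    have h3 := Finset.card_filter_add_card_filter_not (s := (Finset.univ : Finset (K →+* ℂ)))
      (p := fun φ : K →+* ℂ => (InfinitePlace.mk φ).embedding = φ)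
    rw [hA, Finset.card_univ, NumberField.Embeddings.card,
      ← InfinitePlace.card_add_two_mul_card_eq_rank, InfinitePlace.card_eq_nrRealPlaces_add_nrComplexPlaces] at h3
    omega
  rw [h1, Finset.prod_ite, Finset.prod_const, Finset.prod_const, hA, hB]

/-- the trivial character is unramified -/
lemma unr_one : IsUnr (fun _ : InfinitePlace K => 0) (one K) := by
  refine ⟨fun _ => zero_le_one, fun _ _ => rfl, fun x hx => ?_⟩
  rw [one_ne K (by
    rw [Ne, Ideal.zero_eq_bot, Ideal.span_singleton_eq_bot]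
    exact hx)]
  unfold G.sg
  exact (Finset.prod_eq_one fun w _ => pow_zero _).symm

lemma norm_diff : ((Ideal.absNorm (differentIdeal ℤ (𝓞 K)) : ℕ) : ℝ) = |(discr K : ℝ)| := by
  rw [NumberField.absNorm_differentIdeal K (𝓞 K), Nat.cast_natAbs, Int.cast_abs]

/-- the leading value `2^(r₁+r₂) h R / w` -/
noncomputable def lv : ℝ :=
  2 ^ Fintype.card (InfinitePlace K) * classNumber K * Units.regulator K / Units.torsionOrder K

lemma lv_pos : 0 < lv K := by
  unfold lv
  have h1 := Units.regulator_pos K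
  have h2 : 0 < classNumber K := classNumber_pos K
  have h3 : 0 < Units.torsionOrder K := Units.torsionOrder_pos K
  positivity

/-- **the completed zeta function** -/
theorem exists_X : ∃ X : ℂ → ℂ, Differentiable ℂ X ∧ (X 0 = lv K ∨ X 0 = -lv K) ∧
    ∀ s : ℂ, 1 < s.re → X s = s * (s - 1) *
      (((|(discr K : ℝ)| : ℝ) : ℂ) ^ (s / 2) * (Gammaℝ s ^ Fintype.card (InfinitePlace K) *
        Gammaℝ (s + 1) ^ nrComplexPlaces K)) * LI (one K) s := by
  obtain ⟨X, hX⟩ := xi_unr (unr_one K) (r := 1) (Or.inl rfl)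
  have hR0 : (0 : ℝ) < |(discr K : ℝ)| := abs_pos.mpr (Int.cast_ne_zero.mpr (discr_ne_zero K))
  have heq : ∀ s : ℂ, 1 < s.re → X s = s * (s - 1) *
      (((|(discr K : ℝ)| : ℝ) : ℂ) ^ (s / 2) * (Gammaℝ s ^ Fintype.card (InfinitePlace K) *
        Gammaℝ (s + 1) ^ nrComplexPlaces K)) * LI (one K) s := by
    intro s hs
    have h1 := hX.eq s hs
    rw [pow_one] at h1
    rw [h1, ← gp_eq, gp, norm_diff]
  refine ⟨X, hX.diff, ?_, heq⟩
  -- the value at one
  have h1 : X 1 = lv K := by
    have ht : Tendsto (fun s : ℝ => (s : ℂ)) (𝓝[>] 1) (𝓝 (1 : ℂ)) := by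
      have h0 := (continuous_ofReal.tendsto (1 : ℝ))
      rw [ofReal_one] at h0
      exact h0.mono_left nhdsWithin_le_nhds
    have h3 : Tendsto (fun s : ℝ => X (s : ℂ)) (𝓝[>] 1) (𝓝 (X 1)) :=
      (hX.diff.continuous.tendsto 1).comp ht
    have h4 := tendsto_sub_one_mul_dedekindZeta_nhdsGT K
    have hg1 : ContinuousAt Gammaℝ 1 := by
      have hh := differentiable_Gammaℝ_inv.continuous.continuousAt (x := (1 : ℂ))
      have h5 : ContinuousAt (fun s : ℂ => ((Gammaℝ s)⁻¹)⁻¹) 1 :=
        hh.inv₀ (by rw [Gammaℝ_one]; norm_num)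
      simpa using h5
    have hg2 : ContinuousAt (fun s : ℂ => Gammaℝ (s + 1)) 1 := by
      have hh : ContinuousAt (fun s : ℂ => (Gammaℝ (s + 1))⁻¹) 1 :=
        (differentiable_Gammaℝ_inv.continuous.comp (continuous_id.add continuous_const)).continuousAt
      have h5 : ContinuousAt (fun s : ℂ => ((Gammaℝ (s + 1))⁻¹)⁻¹) 1 := hh.inv₀ (by
        rw [Ne, inv_eq_zero]
        exact Gammaℝ_ne_zero_of_re_pos (by norm_num))
      simpa using h5
    have hc : ContinuousAt (fun s : ℂ => s * (((|(discr K : ℝ)| : ℝ) : ℂ) ^ (s / 2) *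
        (Gammaℝ s ^ Fintype.card (InfinitePlace K) * Gammaℝ (s + 1) ^ nrComplexPlaces K))) 1 := by
      refine continuousAt_id.mul (ContinuousAt.mul ?_ ((hg1.pow _).mul (hg2.pow _)))
      refine ContinuousAt.const_cpow (by fun_prop) (Or.inl ?_)
      exact_mod_cast hR0.ne'
    have h5 := (hc.tendsto.comp ht).mul h4
    have h6 : Tendsto (fun s : ℝ => X (s : ℂ)) (𝓝[>] 1) (𝓝 (1 * (((|(discr K : ℝ)| : ℝ) : ℂ) ^ ((1 : ℂ) / 2) *
        (Gammaℝ 1 ^ Fintype.card (InfinitePlace K) * Gammaℝ (1 + 1) ^ nrComplexPlaces K)) *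
          (dedekindZeta_residue K : ℂ))) := by
      refine h5.congr' ?_
      filter_upwards [self_mem_nhdsWithin] with s hs
      have hs' : 1 < ((s : ℂ)).re := by simpa using hs
      simp only [Function.comp_apply]
      rw [heq _ hs', LI_one K hs']
      ring
    rw [tendsto_nhds_unique h3 h6, Gammaℝ_one, one_pow, one_mul, one_mul]
    have h7 : Gammaℝ (1 + 1) = ((Real.pi : ℝ) : ℂ)⁻¹ := by
      rw [Gammaℝ_def]
      have e1 : ((1 + 1 : ℂ) / 2) = 1 := by norm_num
      have e2 : (-(1 + 1 : ℂ) / 2) = -1 := by norm_num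
      rw [e1, e2, Complex.Gamma_one, mul_one, Complex.cpow_neg_one]
    have h8 : ((|(discr K : ℝ)| : ℝ) : ℂ) ^ ((1 : ℂ) / 2) = ((Real.sqrt |(discr K : ℝ)| : ℝ) : ℂ) := by
      rw [Real.sqrt_eq_rpow, Complex.ofReal_cpow hR0.le]
      push_cast
      rfl
    rw [h7, h8, dedekindZeta_residue_def, lv,
      InfinitePlace.card_eq_nrRealPlaces_add_nrComplexPlaces]
    have h9 : Real.sqrt |(discr K : ℝ)| ≠ 0 := (Real.sqrt_pos.mpr hR0).ne'
    have h10 : (Units.torsionOrder K : ℝ) ≠ 0 := by
      exact_mod_cast (Units.torsionOrder_pos K).ne'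
    have h11 : Real.pi ≠ 0 := Real.pi_ne_zero
    have h12 : Real.sqrt |(discr K : ℝ)| * (Real.pi⁻¹) ^ nrComplexPlaces K *
        ((2 ^ nrRealPlaces K * (2 * Real.pi) ^ nrComplexPlaces K * Units.regulator K *
          classNumber K) / (Units.torsionOrder K * Real.sqrt |(discr K : ℝ)|)) =
        2 ^ (nrRealPlaces K + nrComplexPlaces K) * classNumber K * Units.regulator K /
          Units.torsionOrder K := by
      rw [mul_pow, pow_add, inv_pow]
      field_simp
    rw [← h12]
    push_cast
    rfl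
  -- reality
  have hconj : ∀ s, (starRingEnd ℂ) (X ((starRingEnd ℂ) s)) = X s := by
    have h2 : (fun s => (starRingEnd ℂ) (X ((starRingEnd ℂ) s))) = X := by
      refine Pool.Agent.Y773.entire_eq (diff_conj_conj hX.diff) hX.diff fun s hs => ?_
      have hs' : 1 < ((starRingEnd ℂ) s).re := by simpa using hs
      rw [heq _ hs', heq _ hs]
      have hG : ∀ z : ℂ, (starRingEnd ℂ) (Gammaℝ ((starRingEnd ℂ) z)) = Gammaℝ z := by
        intro z
        rw [Gammaℝ_def, Gammaℝ_def, map_mul, ← Complex.Gamma_conj, map_div₀, Complex.conj_conj,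
          conj_cpow_real Real.pi_pos, map_div₀, map_neg, Complex.conj_conj]
        have h20 : (starRingEnd ℂ) (2 : ℂ) = 2 := map_ofNat (starRingEnd ℂ) 2
        rw [h20]
      have hG1 : (starRingEnd ℂ) (Gammaℝ ((starRingEnd ℂ) s + 1)) = Gammaℝ (s + 1) := by
        rw [← hG (s + 1), map_add, map_one]
      have hL : (starRingEnd ℂ) (LI (one K) ((starRingEnd ℂ) s)) = LI (one K) s := by
        unfold LI
        rw [Complex.conj_tsum]
        refine tsum_congr fun 𝔞 => ?_
        rw [map_mul]
        congr 1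
        · by_cases h : 𝔞 = 0
          · rw [h, map_zero, map_zero]
          · rw [one_ne K h, map_one]
        · have h8 := Complex.conj_cpow ((Ideal.absNorm 𝔞 : ℕ) : ℂ) (-s) (by
            rw [Complex.natCast_arg]
            exact Real.pi_ne_zero.symm)
          rw [map_natCast, map_neg] at h8
          exact h8.symm
      rw [map_mul, map_mul, map_mul, map_mul, map_mul, map_pow, map_pow, hG, hG1, hL, map_sub,
        map_one, Complex.conj_conj]
      congr 4
      have := conj_cpow_real hR0 ((starRingEnd ℂ) s / 2)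
      rw [this, map_div₀, Complex.conj_conj]
      have h20 : (starRingEnd ℂ) (2 : ℂ) = 2 := map_ofNat (starRingEnd ℂ) 2
      rw [h20]
    exact fun s => congrFun h2 s
  obtain ⟨w, hw, hfe⟩ := hX.fe
  have h0 := hfe 0
  rw [map_zero, sub_zero, h1, Complex.conj_ofReal] at h0
  have h2 := hconj 0
  rw [map_zero] at h2
  have h3 : (X 0).im = 0 := by
    have := congrArg Complex.im h2
    rw [Complex.conj_im] at this
    linarith
  have h4 : X 0 = ((X 0).re : ℂ) := Complex.ext rfl (by rw [h3, Complex.ofReal_im])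
  have h5 : ‖X 0‖ = lv K := by
    rw [h0, norm_mul, hw, one_mul, Complex.norm_real, Real.norm_of_nonneg (lv_pos K).le]
  rw [h4, Complex.norm_real, Real.norm_eq_abs] at h5
  rcases (abs_eq (lv_pos K).le).mp h5 with h6 | h6
  · left
    rw [h4, h6]
  · right
    rw [h4, h6]
    push_cast
    rfl

end

end Pool.Agent.L0h48.DS
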